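import Pool.Agent.Lib_helper2.PSP.P1
import Pool.Agent.Lib_helper10.T2F.PLM
import Pool.Agent.Lib_helper90.PNT.WienerIkehara

/-! PolynomialShifts, pointwise half, part 2: the pointwise bound for the twisted Liouville function -/

/-! ### Block XCM -/

namespace Pool.Agent.PS

/-- completely multiplicative functions of absolute value at most one -/
structure CM (f : ℕ → ℂ) : Prop where
  zero : f 0 = 0
  one : f 1 = 1
  mul : ∀ a b, f (a * b) = f a * f b
  bd : ∀ n, ‖f n‖ ≤ 1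

end Pool.Agent.PS

/-! ### Block LAS -/


namespace Pool.Agent.PS

theorem las_lam_zero : lam 0 = 0 := by simp [lam]

theorem las_lam_one : lam 1 = 1 := by simp [lam]

theorem las_lam_mul (a b : ℕ) : lam (a * b) = lam a * lam b := by
  unfold lam
  rcases Nat.eq_zero_or_pos a with ha | ha
  · simp [ha]
  rcases Nat.eq_zero_or_pos b with hb | hb
  · simp [hb]
  rw [if_neg (Nat.mul_pos ha hb).ne', if_neg ha.ne', if_neg hb.ne',
    ArithmeticFunction.cardFactors_mul ha.ne' hb.ne', pow_add]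

theorem las_lam_prime {p : ℕ} (hp : p.Prime) : lam p = -1 := by
  unfold lam
  rw [if_neg hp.ne_zero, ArithmeticFunction.cardFactors_apply_prime hp, pow_one]

theorem las_lam_abs (n : ℕ) : ‖(lam n : ℂ)‖ ≤ 1 := by
  rw [Complex.norm_real, Real.norm_eq_abs]
  unfold lam
  split_ifs
  · simp
  · rw [abs_pow, abs_neg, abs_one, one_pow]

/-- the function `λ χ n^(iτ)` is completely multiplicative; the value at zero does not matter -/
theorem lxt_cm {m : ℕ} [NeZero m] (χ : DirichletCharacter ℂ m) (τ : ℝ) :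
    CM (fun n => (lam n : ℂ) * (χ n * tw τ n)) := by
  refine ⟨?_, ?_, ?_, ?_⟩
  · simp [las_lam_zero]
  · simp [las_lam_one, tw]
  · intro a b
    have h1 : tw τ (a * b) = tw τ a * tw τ b := by
      unfold tw
      rw [Nat.cast_mul, Complex.natCast_mul_natCast_cpow]
    simp only [las_lam_mul, h1, Nat.cast_mul, map_mul]
    push_cast
    ring
  · intro n
    rcases Nat.eq_zero_or_pos n with hn | hn
    · simp [hn, las_lam_zero]
    · have h1 : ‖tw τ n‖ = 1 := by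
        unfold tw
        rw [Complex.norm_natCast_cpow_of_pos hn]
        simp
      rw [norm_mul, norm_mul, h1, mul_one]
      exact mul_le_one₀ (las_lam_abs n) (norm_nonneg _) (DirichletCharacter.norm_le_one χ _)

/-- `λ(n) χ(n) n^(-w)` -/
noncomputable def las_H {m : ℕ} (χ : DirichletCharacter ℂ m) {w : ℂ} (hw : w ≠ 0) : ℕ →*₀ ℂ where
  toFun n := (lam n : ℂ) * dirichletSummandHom χ hw n
  map_zero' := by simp [las_lam_zero]
  map_one' := by simp [las_lam_one]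
  map_mul' a b := by
    rw [las_lam_mul, map_mul]
    push_cast
    ring

/-- LAS: the series of `λ χ n^(iτ)` -/
theorem las {m : ℕ} [NeZero m] (χ : DirichletCharacter ℂ m) (τ : ℝ) (s : ℂ) (hs : 1 < s.re) :
    ‖LSeries (fun n => (lam n : ℂ) * (χ n * tw τ n)) s‖ *
      ‖LSeries (fun n => χ n) (s - τ * Complex.I)‖ ≤ 2 := by
  set w : ℂ := s - τ * Complex.I with hw
  have hw1 : 1 < w.re := by
    rw [hw]
    simpa using hs
  have hw0 : w ≠ 0 := Complex.ne_zero_of_one_lt_re hw1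
  set g : ℕ →*₀ ℂ := dirichletSummandHom χ hw0 with hg
  have hgn : ∀ n : ℕ, g n = χ n * (n : ℂ) ^ (-w) := fun n => rfl
  have hsum : Summable fun n : ℕ => ‖g n‖ := summable_dirichletSummand χ hw1
  have hg1 : ∀ n : ℕ, ‖g n‖ ≤ (n : ℝ) ^ (-(1 : ℝ)) := by
    intro n
    rcases Nat.eq_zero_or_pos n with hn | hn
    · rw [hn, map_zero, norm_zero]
      positivity
    · rw [hgn, norm_mul, Complex.norm_natCast_cpow_of_pos hn]
      have hn1 : (1 : ℝ) ≤ n := by exact_mod_cast hn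
      calc ‖χ (n : ZMod m)‖ * (n : ℝ) ^ (-w).re ≤ 1 * (n : ℝ) ^ (-(1 : ℝ)) := by
            refine mul_le_mul (DirichletCharacter.norm_le_one χ _) ?_ (by positivity) zero_le_one
            refine Real.rpow_le_rpow_of_exponent_le hn1 ?_
            rw [Complex.neg_re]
            linarith
        _ = _ := one_mul _
  have hg1' : ∀ n : ℕ, ‖g n‖ ≤ 1 := by
    intro n
    rcases Nat.eq_zero_or_pos n with hn | hn
    · rw [hn, map_zero, norm_zero]
      exact zero_le_one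
    · refine (hg1 n).trans ?_
      refine Real.rpow_le_one_of_one_le_of_nonpos ?_ (by norm_num)
      exact_mod_cast hn
  -- the three Euler products
  have e1 := EulerProduct.eulerProduct_completely_multiplicative_hasProd hsum
  have hsum2 : Summable fun n : ℕ => ‖las_H χ hw0 n‖ := by
    refine Summable.of_nonneg_of_le (fun n => norm_nonneg _) (fun n => ?_) hsum
    change ‖(lam n : ℂ) * g n‖ ≤ ‖g n‖
    rw [norm_mul]
    exact mul_le_of_le_one_left (norm_nonneg _) (las_lam_abs n)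
  have e2 := EulerProduct.eulerProduct_completely_multiplicative_hasProd hsum2
  have hmul : ∀ n : ℕ, (g * g) n = g n * g n := fun n => rfl
  have hsum3 : Summable fun n : ℕ => ‖(g * g) n‖ := by
    refine Summable.of_nonneg_of_le (fun n => norm_nonneg _) (fun n => ?_) hsum
    rw [hmul, norm_mul]
    exact mul_le_of_le_one_left (norm_nonneg _) (hg1' n)
  have e3 := EulerProduct.eulerProduct_completely_multiplicative_hasProd hsum3
  have e4 := e2.mul e1
  have h5 : (fun p : Nat.Primes => (1 - las_H χ hw0 p)⁻¹ * (1 - g p)⁻¹) =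
      fun p : Nat.Primes => (1 - (g * g) p)⁻¹ := by
    funext p
    have h6 : las_H χ hw0 p = -g p := by
      change (lam p : ℂ) * g p = -g p
      rw [las_lam_prime p.2]
      push_cast
      ring
    rw [h6, hmul, ← mul_inv]
    congr 1
    ring
  rw [h5] at e4
  have h7 := e4.unique e3
  -- the values
  have v1 : LSeries (fun n => χ n) w = ∑' n : ℕ, g n := by
    unfold LSeries
    refine tsum_congr fun n => ?_
    rcases Nat.eq_zero_or_pos n with hn | hn
    · rw [hn, LSeries.term_zero, map_zero]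
    · rw [LSeries.term_of_ne_zero hn.ne', hgn, Complex.cpow_neg, div_eq_mul_inv]
  have v2 : LSeries (fun n => (lam n : ℂ) * (χ n * tw τ n)) s = ∑' n : ℕ, las_H χ hw0 n := by
    unfold LSeries
    refine tsum_congr fun n => ?_
    rcases Nat.eq_zero_or_pos n with hn | hn
    · rw [hn, LSeries.term_zero, map_zero]
    · have hn0 : (n : ℂ) ≠ 0 := by exact_mod_cast hn.ne'
      rw [LSeries.term_of_ne_zero hn.ne']
      change _ = (lam n : ℂ) * (χ n * (n : ℂ) ^ (-w))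
      have h8 : (n : ℂ) ^ (-w) = tw τ n / (n : ℂ) ^ s := by
        unfold tw
        rw [← Complex.cpow_sub _ _ hn0, hw]
        congr 1
        ring
      rw [h8]
      ring
  rw [v1, v2, ← norm_mul, h7]
  -- the bound
  have hs3 : Summable fun n : ℕ => 1 / (n : ℝ) ^ 2 := hasSum_zeta_two.summable
  have h9 : ∀ n : ℕ, ‖(g * g) n‖ ≤ 1 / (n : ℝ) ^ 2 := by
    intro n
    rw [hmul, norm_mul]
    have h10 := hg1 n
    have h11 : (n : ℝ) ^ (-(1 : ℝ)) = 1 / (n : ℝ) := by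
      rw [Real.rpow_neg_one, one_div]
    rw [h11] at h10
    calc ‖g n‖ * ‖g n‖ ≤ 1 / (n : ℝ) * (1 / (n : ℝ)) := by gcongr
      _ = 1 / (n : ℝ) ^ 2 := by ring
  calc ‖∑' n : ℕ, (g * g) n‖ ≤ ∑' n : ℕ, ‖(g * g) n‖ := norm_tsum_le_tsum_norm hsum3
    _ ≤ ∑' n : ℕ, 1 / (n : ℝ) ^ 2 := hsum3.tsum_le_tsum h9 hs3
    _ = Real.pi ^ 2 / 6 := hasSum_zeta_two.tsum_eq
    _ ≤ 2 := by
        have := Real.pi_lt_d2
        have := Real.pi_pos
        nlinarith

end Pool.Agent.PS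

/-! ### Block LCV -/

/-! PolynomialShifts, LCV: the logarithm as a convolution; trivial bounds -/

namespace Pool.Agent.PS

open MeasureTheory Filter Asymptotics

open ArithmeticFunction in
private theorem lcv_dom (a : ℕ → ℝ) (ha : ∀ n, 0 ≤ a n) (C : ℝ) (hC : 0 ≤ C)
    (h : ∀ n : ℕ, ∑ k ∈ Finset.Icc 1 n, a k ≤ C * n) (f : ℕ → ℂ) (hf : ∀ n, ‖f n‖ ≤ a n)
    (s : ℂ) (hs : 1 < s.re) :
    LSeriesSummable f s ∧ ‖LSeries f s‖ ≤ s.re * C / (s.re - 1) := by
  have hO : (fun n : ℕ ↦ ∑ k ∈ Finset.Icc 1 n, a k) =O[atTop] fun n ↦ (n : ℝ) ^ (1 : ℝ) := by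
    refine isBigO_iff.mpr ⟨C, Eventually.of_forall fun n => ?_⟩
    rw [Real.rpow_one, Real.norm_of_nonneg (Finset.sum_nonneg fun k _ => ha k),
      Real.norm_of_nonneg (Nat.cast_nonneg n)]
    exact h n
  have hsr : (1 : ℝ) < ((s.re : ℝ) : ℂ).re := by rwa [Complex.ofReal_re]
  have hS : LSeriesSummable (fun n => (a n : ℂ)) ((s.re : ℝ) : ℂ) :=
    LSeriesSummable_of_sum_norm_bigO_and_nonneg hO ha zero_le_one hsr
  have hterm : ∀ n, ‖LSeries.term f s n‖ ≤ ‖LSeries.term (fun n => (a n : ℂ)) ((s.re : ℝ) : ℂ) n‖ := by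
    intro n
    rw [LSeries.norm_term_eq, LSeries.norm_term_eq, Complex.ofReal_re]
    split_ifs with hn
    · exact le_rfl
    · refine div_le_div_of_nonneg_right ?_ (Real.rpow_nonneg (Nat.cast_nonneg n) _)
      rw [Complex.norm_real, Real.norm_of_nonneg (ha n)]
      exact hf n
  have hfS : LSeriesSummable f s := by
    refine Summable.of_norm_bounded hS.norm hterm
  refine ⟨hfS, ?_⟩
  have e := LSeries_eq_mul_integral_of_nonneg a zero_le_one hsr hO ha
  have hreal : ∀ n, LSeries.term (fun n => (a n : ℂ)) ((s.re : ℝ) : ℂ) n =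
      ((‖LSeries.term (fun n => (a n : ℂ)) ((s.re : ℝ) : ℂ) n‖ : ℝ) : ℂ) := by
    intro n
    rw [LSeries.norm_term_eq, LSeries.term_def]
    split_ifs with hn
    · simp
    · rw [Complex.ofReal_div, Complex.ofReal_re, Complex.norm_real, Real.norm_of_nonneg (ha n),
        Complex.ofReal_cpow (Nat.cast_nonneg n), Complex.ofReal_natCast]
  have h1 : ‖LSeries f s‖ ≤ ‖LSeries (fun n => (a n : ℂ)) ((s.re : ℝ) : ℂ)‖ := by
    have h2 : ‖LSeries f s‖ ≤ ∑' n, ‖LSeries.term f s n‖ := norm_tsum_le_tsum_norm hfS.norm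
    have h3 : ∑' n, ‖LSeries.term f s n‖ ≤
        ∑' n, ‖LSeries.term (fun n => (a n : ℂ)) ((s.re : ℝ) : ℂ) n‖ :=
      Summable.tsum_le_tsum hterm hfS.norm hS.norm
    have h4 : LSeries (fun n => (a n : ℂ)) ((s.re : ℝ) : ℂ) =
        ((∑' n, ‖LSeries.term (fun n => (a n : ℂ)) ((s.re : ℝ) : ℂ) n‖ : ℝ) : ℂ) := by
      rw [LSeries, Complex.ofReal_tsum]
      exact tsum_congr hreal
    rw [h4, Complex.norm_real, Real.norm_of_nonneg (tsum_nonneg fun n => norm_nonneg _)]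
    exact h2.trans h3
  refine h1.trans ?_
  have hs0 : 0 < s.re := by linarith
  rw [e, norm_mul, Complex.norm_real, Real.norm_of_nonneg hs0.le, mul_div_assoc]
  refine mul_le_mul_of_nonneg_left ?_ hs0.le
  have hI : ∫ t in Set.Ioi (1 : ℝ), C * t ^ (-s.re) = C / (s.re - 1) := by
    rw [integral_const_mul, integral_Ioi_rpow_of_lt (by linarith) zero_lt_one, Real.one_rpow]
    have h5 : s.re - 1 ≠ 0 := by linarith
    have h6 : -s.re + 1 ≠ 0 := by linarith
    field_simp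
    ring
  rw [← hI]
  refine norm_integral_le_of_norm_le
    ((integrableOn_Ioi_rpow_of_lt (by linarith) zero_lt_one).const_mul C) ?_
  refine (ae_restrict_iff' measurableSet_Ioi).mpr (Eventually.of_forall fun t ht => ?_)
  have ht1 : (1 : ℝ) < t := ht
  have ht0 : (0 : ℝ) < t := by linarith
  rw [norm_mul, Complex.norm_cpow_eq_rpow_re_of_pos ht0]
  have h7 : (-(((s.re : ℝ) : ℂ) + 1)).re = -s.re + -1 := by
    simp
    ring
  rw [h7, Real.rpow_add ht0, Real.rpow_neg_one]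
  have h8 : ‖∑ k ∈ Finset.Icc 1 ⌊t⌋₊, (a k : ℂ)‖ ≤ C * t := by
    rw [← Complex.ofReal_sum, Complex.norm_real,
      Real.norm_of_nonneg (Finset.sum_nonneg fun k _ => ha k)]
    refine (h _).trans (mul_le_mul_of_nonneg_left ?_ hC)
    exact Nat.floor_le ht0.le
  have h9 : 0 ≤ t ^ (-s.re) * t⁻¹ := mul_nonneg (Real.rpow_nonneg ht0.le _) (by positivity)
  calc _ ≤ C * t * (t ^ (-s.re) * t⁻¹) := mul_le_mul_of_nonneg_right h8 h9
    _ = C * t ^ (-s.re) := by
      field_simp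

private theorem lcv_one (n : ℕ) : ∑ _k ∈ Finset.Icc 1 n, (1 : ℝ) ≤ 1 * n := by
  simp

private theorem lcv_psi (n : ℕ) :
    ∑ k ∈ Finset.Icc 1 n, ArithmeticFunction.vonMangoldt k ≤ (Real.log 4 + 4) * n := by
  have h := Chebyshev.psi_le_const_mul_self (x := (n : ℝ)) (Nat.cast_nonneg n)
  rw [Chebyshev.psi, Nat.floor_natCast] at h
  exact h

private theorem lcv_f {f : ℕ → ℂ} (hf : CM f) {s : ℂ} (hs : 1 < s.re) :
    LSeriesSummable f s ∧ ‖LSeries f s‖ ≤ s.re * 1 / (s.re - 1) :=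
  lcv_dom (fun _ => 1) (fun _ => zero_le_one) 1 zero_le_one lcv_one f hf.bd s hs

private theorem lcv_L {f : ℕ → ℂ} (hf : CM f) {s : ℂ} (hs : 1 < s.re) :
    LSeriesSummable (fun n => ((ArithmeticFunction.vonMangoldt n : ℝ) : ℂ) * f n) s ∧
      ‖LSeries (fun n => ((ArithmeticFunction.vonMangoldt n : ℝ) : ℂ) * f n) s‖ ≤
        s.re * (Real.log 4 + 4) / (s.re - 1) := by
  refine lcv_dom (fun n => ArithmeticFunction.vonMangoldt n)
    (fun n => ArithmeticFunction.vonMangoldt_nonneg) (Real.log 4 + 4) ?_ lcv_psi _ (fun n => ?_) s hs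
  · have : 0 ≤ Real.log 4 := Real.log_nonneg (by norm_num)
    linarith
  · rw [norm_mul, Complex.norm_real, Real.norm_of_nonneg ArithmeticFunction.vonMangoldt_nonneg]
    exact mul_le_of_le_one_right ArithmeticFunction.vonMangoldt_nonneg (hf.bd n)

/-- LCV: the logarithm as a convolution -/
theorem log_conv {f : ℕ → ℂ} (hf : CM f) {s : ℂ} (hs : 1 < s.re) :
    LSeriesSummable f s ∧ LSeriesSummable (fun n => (Real.log n : ℂ) * f n) s ∧
      LSeriesSummable (fun n => ((ArithmeticFunction.vonMangoldt n : ℝ) : ℂ) * f n) s ∧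
      LSeries (fun n => (Real.log n : ℂ) * f n) s =
        LSeries f s * LSeries (fun n => ((ArithmeticFunction.vonMangoldt n : ℝ) : ℂ) * f n) s := by
  have h1 := (lcv_f hf hs).1
  have h2 := (lcv_L hf hs).1
  have hc : LSeries.convolution f
      (fun n => ((ArithmeticFunction.vonMangoldt n : ℝ) : ℂ) * f n) =
        fun n : ℕ => (Real.log n : ℂ) * f n := by
    funext n
    rw [LSeries.convolution_def]
    beta_reduce
    have h3 : ∀ p ∈ n.divisorsAntidiagonal,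
        f p.1 * (((ArithmeticFunction.vonMangoldt p.2 : ℝ) : ℂ) * f p.2) =
          ((ArithmeticFunction.vonMangoldt p.2 : ℝ) : ℂ) * f n := by
      intro p hp
      rw [← (Nat.mem_divisorsAntidiagonal.1 hp).1, hf.mul]
      ring
    rw [Finset.sum_congr rfl h3, ← Finset.sum_mul, ← Complex.ofReal_sum,
      Nat.sum_divisorsAntidiagonal' (fun _ b => ArithmeticFunction.vonMangoldt b),
      ArithmeticFunction.vonMangoldt_sum]
  refine ⟨h1, ?_, h2, ?_⟩
  · rw [← hc]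
    exact h1.convolution h2
  · rw [← hc]
    exact LSeries_convolution' h1 h2

/-- LCV: trivial bounds -/
theorem ser_bound : ∃ C : ℝ, 1 ≤ C ∧ ∀ f : ℕ → ℂ, CM f → ∀ s : ℂ, 1 < s.re → s.re ≤ 2 →
    ‖LSeries f s‖ ≤ C / (s.re - 1) ∧
      ‖LSeries (fun n => ((ArithmeticFunction.vonMangoldt n : ℝ) : ℂ) * f n) s‖ ≤ C / (s.re - 1) := by
  have h4 : 0 ≤ Real.log 4 := Real.log_nonneg (by norm_num)
  refine ⟨2 * (Real.log 4 + 4), by linarith, fun f hf s hs hs2 => ⟨?_, ?_⟩⟩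
  · refine (lcv_f hf hs).2.trans ?_
    refine div_le_div_of_nonneg_right ?_ (by linarith)
    linarith
  · refine (lcv_L hf hs).2.trans ?_
    refine div_le_div_of_nonneg_right ?_ (by linarith)
    refine mul_le_mul_of_nonneg_right hs2 (by linarith)

end Pool.Agent.PS

/-! ### Block MSQ -/

/-! PolynomialShifts, block MSQ: the mean square of the partial sums with the weight `log n` -/

namespace Pool.Agent.PS

open MeasureTheory Filter

private theorem msq_log_bound {f : ℕ → ℂ} (hf : CM f) (n : ℕ) (hn : 1 ≤ n) :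
    ‖∑ k ∈ Finset.Icc 1 n, (Real.log k : ℂ) * f k‖ ≤ 1 * n * (1 + Real.log n) := by
  have hn1 : (1 : ℝ) ≤ n := by exact_mod_cast hn
  have hlog : 0 ≤ Real.log n := Real.log_nonneg hn1
  have h2 : ∀ z ∈ Finset.Icc 1 n, ‖(Real.log z : ℂ) * f z‖ ≤ Real.log n := by
    intro z hz
    rw [Finset.mem_Icc] at hz
    have h4 : (1 : ℝ) ≤ z := by exact_mod_cast hz.1
    rw [norm_mul, Complex.norm_real, Real.norm_eq_abs, abs_of_nonneg (Real.log_nonneg h4)]
    have h5 : Real.log z ≤ Real.log n :=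
      Real.log_le_log (by linarith) (by exact_mod_cast hz.2)
    nlinarith [hf.bd z, Real.log_nonneg h4, norm_nonneg (f z)]
  calc ‖∑ z ∈ Finset.Icc 1 n, (Real.log z : ℂ) * f z‖
      ≤ ∑ z ∈ Finset.Icc 1 n, ‖(Real.log z : ℂ) * f z‖ := norm_sum_le _ _
    _ ≤ ∑ z ∈ Finset.Icc 1 n, Real.log n := Finset.sum_le_sum h2
    _ = n * Real.log n := by rw [Finset.sum_const, nsmul_eq_mul, Nat.card_Icc]; simp
    _ ≤ 1 * n * (1 + Real.log n) := by
        rw [one_mul]
        apply mul_le_mul_of_nonneg_left (by linarith)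
        positivity

private theorem msq_v_bound {f : ℕ → ℂ} (hf : CM f) (u : ℝ) (hu : 1 ≤ u) :
    ‖∑ z ∈ Finset.Icc 1 ⌊u⌋₊, ((ArithmeticFunction.vonMangoldt z : ℝ) : ℂ) * f z‖ ≤
      (Real.log 4 + 4) * u := by
  have h := Chebyshev.psi_le_const_mul_self (x := u) (by linarith)
  have h' : ∑ k ∈ Finset.Icc 1 ⌊u⌋₊, ArithmeticFunction.vonMangoldt k ≤ (Real.log 4 + 4) * u := by
    rw [Chebyshev.psi] at h
    exact h
  refine (norm_sum_le _ _).trans ((Finset.sum_le_sum fun z _ => ?_).trans h')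
  rw [norm_mul, Complex.norm_real, Real.norm_eq_abs,
    abs_of_nonneg ArithmeticFunction.vonMangoldt_nonneg]
  exact mul_le_of_le_one_right ArithmeticFunction.vonMangoldt_nonneg (hf.bd z)

private theorem msq_cauchy {T : ℝ} (hT : 0 < T) :
    Integrable (fun t : ℝ => (T ^ 2 + t ^ 2)⁻¹) ∧
      ∫ t : ℝ, (T ^ 2 + t ^ 2)⁻¹ = Real.pi / T := by
  have e : (fun t : ℝ => (T ^ 2 + t ^ 2)⁻¹) =
      fun t : ℝ => (T ^ 2)⁻¹ * (1 + (t / T) ^ 2)⁻¹ := by
    funext t
    have h1 : T ^ 2 + t ^ 2 = T ^ 2 * (1 + (t / T) ^ 2) := by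
      field_simp
    rw [h1, mul_inv]
  have hi : Integrable (fun t : ℝ => (1 + (t / T) ^ 2)⁻¹) :=
    integrable_inv_one_add_sq.comp_div hT.ne'
  refine ⟨?_, ?_⟩
  · rw [e]
    exact hi.const_mul _
  · rw [e, integral_const_mul]
    have h2 : ∫ t : ℝ, (1 + (t / T) ^ 2)⁻¹ = |T| • ∫ x : ℝ, (1 + x ^ 2)⁻¹ :=
      Measure.integral_comp_div (fun x : ℝ => (1 + x ^ 2)⁻¹) T
    rw [h2, integral_univ_inv_one_add_sq, abs_of_pos hT, smul_eq_mul]
    field_simp

/-- MSQ: the mean square of the partial sums with the weight `log n` -/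
theorem mean_square : ∃ C : ℝ, 1 ≤ C ∧ ∀ f : ℕ → ℂ, CM f → ∀ L T M : ℝ, 1 ≤ L → 1 ≤ T → 0 ≤ M →
    (∀ t : ℝ, |t| ≤ T → ‖LSeries f ((1 + 1 / L : ℝ) + t * Complex.I)‖ ≤ M) →
      ∫ u in Set.Ioi (1 : ℝ), ‖∑ n ∈ Bl u, (Real.log n : ℂ) * f n‖ ^ 2 *
        u ^ (-(3 + 2 / L)) ≤ C * (M ^ 2 * L + L ^ 4 / T) := by
  obtain ⟨C₃, hC₃, hd⟩ := ser_bound
  have h4 : 0 ≤ Real.log 4 := Real.log_nonneg (by norm_num)
  obtain ⟨C₂, hC₂e⟩ : ∃ C : ℝ, C = Real.log 4 + 4 := ⟨_, rfl⟩
  have hC₂ : 1 ≤ C₂ := by rw [hC₂e]; linarith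
  refine ⟨C₂ ^ 2 + C₃ ^ 4, by nlinarith [pow_pos (lt_of_lt_of_le one_pos hC₃) 4], ?_⟩
  intro f hf L T M hL hT hM hb
  set σ : ℝ := 1 + 1 / L with hσ
  have hL0 : 0 < L := by linarith
  have hT0 : 0 < T := by linarith
  have hiL : 0 < 1 / L := by positivity
  have hσ1 : 1 < σ := by rw [hσ]; linarith
  have hσ2 : σ ≤ 2 := by
    have : 1 / L ≤ 1 := by rw [div_le_one hL0]; exact hL
    rw [hσ]; linarith
  set fl : ℕ → ℂ := fun z => (Real.log z : ℂ) * f z with hfl
  set fv : ℕ → ℂ := fun z => ((ArithmeticFunction.vonMangoldt z : ℝ) : ℂ) * f z with hfv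
  -- the Dirichlet series
  have hre : ∀ t : ℝ, (((σ : ℝ) : ℂ) + t * Complex.I).re = σ := by intro t; simp
  have sl : ∀ s : ℂ, 1 < s.re → LSeriesSummable fl s := fun s hs => (log_conv hf hs).2.1
  have sv : ∀ s : ℂ, 1 < s.re → LSeriesSummable fv s := fun s hs => (log_conv hf hs).2.2.1
  have hconv : ∀ s : ℂ, 1 < s.re → LSeries fl s = LSeries f s * LSeries fv s :=
    fun s hs => (log_conv hf hs).2.2.2
  have hv : ∀ u : ℝ, 1 ≤ u → ‖∑ k ∈ Finset.Icc 1 ⌊u⌋₊, fv k‖ ≤ C₂ * u := by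
    intro u hu
    rw [hC₂e]
    exact msq_v_bound hf u hu
  -- bounds of partial sums
  have hvb : ∀ n : ℕ, 1 ≤ n → ‖∑ k ∈ Finset.Icc 1 n, fv k‖ ≤ C₂ * n * (1 + Real.log n) := by
    intro n hn
    have hn1 : (1 : ℝ) ≤ n := by exact_mod_cast hn
    have h0 := hv n hn1
    rw [Nat.floor_natCast] at h0
    refine h0.trans ?_
    have : 0 ≤ Real.log n := Real.log_nonneg hn1
    have h2 : 0 ≤ C₂ * n := by positivity
    nlinarith
  have hlb : ∀ n : ℕ, 1 ≤ n → ‖∑ k ∈ Finset.Icc 1 n, fl k‖ ≤ 1 * n * (1 + Real.log n) :=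
    fun n hn => msq_log_bound hf n hn
  obtain ⟨il, el⟩ := Pool.Agent.T2.mellin_plancherel fl 1 hlb sl hσ1
  obtain ⟨iv, ev⟩ := Pool.Agent.T2.mellin_plancherel fv C₂ hvb sv hσ1
  obtain ⟨ic, ec⟩ := msq_cauchy hT0
  -- pointwise bound
  have hpt : ∀ t : ℝ, ‖LSeries fl (σ + t * Complex.I) / (σ + t * Complex.I)‖ ^ 2 ≤
      M ^ 2 * ‖LSeries fv (σ + t * Complex.I) / (σ + t * Complex.I)‖ ^ 2 +
        2 * (C₃ * L) ^ 4 * (T ^ 2 + t ^ 2)⁻¹ := by
    intro t
    set s : ℂ := (σ : ℂ) + t * Complex.I with hs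
    have hs1 : 1 < s.re := by rw [hs, hre]; exact hσ1
    have hsn : t ^ 2 ≤ ‖s‖ ^ 2 := by
      have h1 : |s.im| ≤ ‖s‖ := Complex.abs_im_le_norm s
      have h2 : s.im = t := by rw [hs]; simp
      rw [h2] at h1
      calc t ^ 2 = |t| ^ 2 := (sq_abs t).symm
        _ ≤ ‖s‖ ^ 2 := by gcongr
    have hs0 : 0 < ‖s‖ := by
      have h1 : |s.re| ≤ ‖s‖ := Complex.abs_re_le_norm s
      have h2 : 1 < |s.re| := lt_of_lt_of_le hs1 (le_abs_self _)
      linarith
    have hpos : 0 ≤ 2 * (C₃ * L) ^ 4 * (T ^ 2 + t ^ 2)⁻¹ := by positivity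
    rw [hconv s hs1]
    by_cases ht : |t| ≤ T
    · have h1 : ‖LSeries f s‖ ≤ M := hb t ht
      have h2 : ‖LSeries f s * LSeries fv s / s‖ ≤ M * ‖LSeries fv s / s‖ := by
        rw [mul_div_assoc, norm_mul]
        exact mul_le_mul_of_nonneg_right h1 (norm_nonneg _)
      have h3 : ‖LSeries f s * LSeries fv s / s‖ ^ 2 ≤
          (M * ‖LSeries fv s / s‖) ^ 2 := by
        gcongr
      rw [mul_pow] at h3
      linarith
    · have ht' : T < |t| := not_le.1 ht
      obtain ⟨h1, h2⟩ := hd f hf s hs1 (by rw [hs, hre]; exact hσ2)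
      have e1 : C₃ / (s.re - 1) = C₃ * L := by
        rw [hs, hre, hσ]; field_simp; ring
      rw [e1] at h1 h2
      have h2' : ‖LSeries fv s‖ ≤ C₃ * L := h2
      have hCL : 0 ≤ C₃ * L := by positivity
      have h3 : ‖LSeries f s * LSeries fv s‖ ≤ (C₃ * L) ^ 2 := by
        rw [norm_mul, sq]
        exact mul_le_mul h1 h2' (norm_nonneg _) hCL
      have htt : T ^ 2 < t ^ 2 := by
        rw [← sq_abs t]
        exact pow_lt_pow_left₀ ht' hT0.le (by norm_num)
      have hT2 : 0 < T ^ 2 := by positivity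
      have h4 : ‖LSeries f s * LSeries fv s / s‖ ^ 2 ≤ 2 * (C₃ * L) ^ 4 * (T ^ 2 + t ^ 2)⁻¹ := by
        rw [norm_div, div_pow, ← div_eq_mul_inv]
        have h5 : ‖LSeries f s * LSeries fv s‖ ^ 2 ≤ (C₃ * L) ^ 4 := by
          calc ‖LSeries f s * LSeries fv s‖ ^ 2 ≤ ((C₃ * L) ^ 2) ^ 2 := by gcongr
            _ = (C₃ * L) ^ 4 := by ring
        rw [div_le_div_iff₀ (by positivity) (by positivity)]
        have h6 : T ^ 2 + t ^ 2 ≤ 2 * ‖s‖ ^ 2 := by linarith
        have h7 : 0 ≤ (C₃ * L) ^ 4 := by positivity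
        calc ‖LSeries f s * LSeries fv s‖ ^ 2 * (T ^ 2 + t ^ 2)
            ≤ (C₃ * L) ^ 4 * (2 * ‖s‖ ^ 2) := by gcongr
          _ = 2 * (C₃ * L) ^ 4 * ‖s‖ ^ 2 := by ring
      have h8 : 0 ≤ M ^ 2 * ‖LSeries fv s / s‖ ^ 2 := by positivity
      linarith
  -- integrate
  have hint : ∫ t : ℝ, ‖LSeries fl (σ + t * Complex.I) / (σ + t * Complex.I)‖ ^ 2 ≤
      M ^ 2 * (∫ t : ℝ, ‖LSeries fv (σ + t * Complex.I) / (σ + t * Complex.I)‖ ^ 2) +
        2 * (C₃ * L) ^ 4 * (Real.pi / T) := by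
    rw [← ec, ← integral_const_mul, ← integral_const_mul,
      ← integral_add (iv.const_mul _) (ic.const_mul _)]
    exact integral_mono il ((iv.const_mul _).add (ic.const_mul _)) hpt
  have hexp : (-(2 * σ + 1) : ℝ) = -(3 + 2 / L) := by rw [hσ]; field_simp; ring
  -- the integral for the von Mangoldt function
  have hLv : ∫ u in Set.Ioi (1 : ℝ), ‖∑ k ∈ Finset.Icc 1 ⌊u⌋₊, fv k‖ ^ 2 *
      u ^ (-(2 * σ + 1)) ≤ C₂ ^ 2 * (L / 2) := by
    have hlt : (-(1 + 2 / L) : ℝ) < -1 := by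
      have : 0 < 2 / L := by positivity
      linarith
    have h1 : ∫ u in Set.Ioi (1 : ℝ), C₂ ^ 2 * u ^ (-(1 + 2 / L) : ℝ) = C₂ ^ 2 * (L / 2) := by
      rw [integral_const_mul, integral_Ioi_rpow_of_lt hlt one_pos, Real.one_rpow]
      field_simp
      ring
    rw [← h1]
    refine integral_mono_of_nonneg ?_
      ((integrableOn_Ioi_rpow_of_lt hlt one_pos).const_mul _) ?_
    · refine (ae_restrict_iff' measurableSet_Ioi).2 (Eventually.of_forall fun u hu => ?_)
      have hu0 : 0 < u := lt_trans one_pos hu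
      have : 0 ≤ ‖∑ k ∈ Finset.Icc 1 ⌊u⌋₊, fv k‖ ^ 2 * u ^ (-(2 * σ + 1)) := by positivity
      exact this
    · refine (ae_restrict_iff' measurableSet_Ioi).2 (Eventually.of_forall fun u hu => ?_)
      have hu1 : 1 < u := hu
      have hu0 : 0 < u := lt_trans one_pos hu1
      have h2 : ‖∑ k ∈ Finset.Icc 1 ⌊u⌋₊, fv k‖ ≤ C₂ * u := hv u hu1.le
      have h3 : u ^ (-(2 * σ + 1)) * u ^ 2 = u ^ (-(1 + 2 / L) : ℝ) := by
        rw [← Real.rpow_natCast u 2, ← Real.rpow_add hu0, hexp]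
        congr 1
        push_cast
        ring
      have h4 : ‖∑ k ∈ Finset.Icc 1 ⌊u⌋₊, fv k‖ ^ 2 ≤ (C₂ * u) ^ 2 := by gcongr
      calc ‖∑ k ∈ Finset.Icc 1 ⌊u⌋₊, fv k‖ ^ 2 * u ^ (-(2 * σ + 1))
          ≤ (C₂ * u) ^ 2 * u ^ (-(2 * σ + 1)) := by gcongr
        _ = C₂ ^ 2 * (u ^ (-(2 * σ + 1)) * u ^ 2) := by ring
        _ = C₂ ^ 2 * u ^ (-(1 + 2 / L) : ℝ) := by rw [h3]
  -- conclusion
  have hfin : ∫ u in Set.Ioi (1 : ℝ), ‖∑ n ∈ Bl u, fl n‖ ^ 2 *
        u ^ (-(3 + 2 / L)) = ∫ u in Set.Ioi (1 : ℝ), ‖∑ k ∈ Finset.Icc 1 ⌊u⌋₊, fl k‖ ^ 2 *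
        u ^ (-(2 * σ + 1)) := by
    rw [hexp]
    rfl
  rw [hfin]
  have hpi := Real.pi_pos
  have h10 : 2 * Real.pi * (∫ u in Set.Ioi (1 : ℝ), ‖∑ k ∈ Finset.Icc 1 ⌊u⌋₊, fl k‖ ^ 2 *
        u ^ (-(2 * σ + 1))) ≤ 2 * Real.pi * ((C₂ ^ 2 + C₃ ^ 4) * (M ^ 2 * L + L ^ 4 / T)) := by
    rw [← el]
    refine hint.trans ?_
    rw [ev]
    have h11 : M ^ 2 * (2 * Real.pi * ∫ u in Set.Ioi (1 : ℝ),
        ‖∑ k ∈ Finset.Icc 1 ⌊u⌋₊, fv k‖ ^ 2 * u ^ (-(2 * σ + 1))) ≤
        M ^ 2 * (2 * Real.pi * (C₂ ^ 2 * (L / 2))) := by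
      gcongr
    have h12 : 2 * (C₃ * L) ^ 4 * (Real.pi / T) = 2 * Real.pi * (C₃ ^ 4 * (L ^ 4 / T)) := by ring
    rw [h12]
    refine (add_le_add h11 le_rfl).trans ?_
    have h13 : M ^ 2 * (2 * Real.pi * (C₂ ^ 2 * (L / 2))) + 2 * Real.pi * (C₃ ^ 4 * (L ^ 4 / T)) =
        2 * Real.pi * (C₂ ^ 2 * (M ^ 2 * L) / 2 + C₃ ^ 4 * (L ^ 4 / T)) := by ring
    rw [h13]
    apply mul_le_mul_of_nonneg_left _ (by positivity)
    have h14 : 0 ≤ M ^ 2 * L := by positivity
    have h15 : 0 ≤ L ^ 4 / T := by positivity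
    have h16 : 0 ≤ C₂ ^ 2 := by positivity
    have h17 : 0 ≤ C₃ ^ 4 := by positivity
    nlinarith [mul_nonneg h16 h14, mul_nonneg h16 h15, mul_nonneg h17 h14, mul_nonneg h17 h15]
  exact le_of_mul_le_mul_left h10 (by positivity)

end Pool.Agent.PS

/-! ### Block LMS -/

/-! PS, block LMS: the mean square of the partial sums in the logarithmic scale -/

namespace Pool.Agent.PS

open Filter Topology MeasureTheory

/-- the partial sums -/
noncomputable def lms_S (f : ℕ → ℂ) (u : ℝ) : ℂ := ∑ n ∈ Bl u, f n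

/-- the partial sums with the logarithm -/
noncomputable def lms_B (f : ℕ → ℂ) (u : ℝ) : ℂ := ∑ n ∈ Bl u, (Real.log n : ℂ) * f n

theorem lms_fac (N : ℕ) (hN : 1 ≤ N) :
    ∑ n ∈ Finset.Icc 1 N, (Real.log N - Real.log n) ≤ N := by
  induction N, hN using Nat.le_induction with
  | base => simp
  | succ n hn ih =>
    have hn0 : (0 : ℝ) < n := by exact_mod_cast hn
    rw [Finset.sum_Icc_succ_top (by omega), sub_self, add_zero]
    have h2 : ∑ k ∈ Finset.Icc 1 n, (Real.log ((n + 1 : ℕ) : ℝ) - Real.log k) =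
        ∑ k ∈ Finset.Icc 1 n, (Real.log n - Real.log k) +
          n * (Real.log ((n + 1 : ℕ) : ℝ) - Real.log n) := by
      have : (n : ℝ) * (Real.log ((n + 1 : ℕ) : ℝ) - Real.log n) =
          ∑ k ∈ Finset.Icc 1 n, (Real.log ((n + 1 : ℕ) : ℝ) - Real.log n) := by
        rw [Finset.sum_const, Nat.card_Icc, nsmul_eq_mul, Nat.add_sub_cancel]
      rw [this, ← Finset.sum_add_distrib]
      apply Finset.sum_congr rfl
      intro k _
      ring
    rw [h2]
    have h3 : Real.log ((n + 1 : ℕ) : ℝ) - Real.log n ≤ 1 / n := by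
      rw [← Real.log_div (by positivity) hn0.ne']
      have h4 : ((n + 1 : ℕ) : ℝ) / n = 1 + 1 / n := by push_cast; field_simp
      rw [h4]
      have := Real.log_le_sub_one_of_pos (x := 1 + 1 / (n : ℝ)) (by positivity)
      linarith
    have h6 : (n : ℝ) * (Real.log ((n + 1 : ℕ) : ℝ) - Real.log n) ≤ 1 := by
      calc (n : ℝ) * (Real.log ((n + 1 : ℕ) : ℝ) - Real.log n) ≤ n * (1 / n) :=
            mul_le_mul_of_nonneg_left h3 hn0.le
        _ = 1 := by field_simp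
    push_cast
    push_cast at h6
    linarith

theorem lms_T {u : ℝ} (hu : 1 ≤ u) :
    ∑ n ∈ Bl u, (Real.log u - Real.log n) ≤ 2 * u := by
  have hN1 : 1 ≤ ⌊u⌋₊ := Nat.le_floor (by simpa using hu)
  have hN0 : (1 : ℝ) ≤ (⌊u⌋₊ : ℝ) := by exact_mod_cast hN1
  have hNu : ((⌊u⌋₊ : ℕ) : ℝ) ≤ u := Nat.floor_le (by linarith)
  have huN : u < (⌊u⌋₊ : ℝ) + 1 := Nat.lt_floor_add_one u
  have h1 := lms_fac ⌊u⌋₊ hN1
  have h2 : ∑ n ∈ Bl u, (Real.log u - Real.log n) =
      ∑ n ∈ Finset.Icc 1 ⌊u⌋₊, (Real.log (⌊u⌋₊ : ℝ) - Real.log n) +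
        (⌊u⌋₊ : ℝ) * (Real.log u - Real.log (⌊u⌋₊ : ℝ)) := by
    have : (⌊u⌋₊ : ℝ) * (Real.log u - Real.log (⌊u⌋₊ : ℝ)) =
        ∑ k ∈ Finset.Icc 1 ⌊u⌋₊, (Real.log u - Real.log (⌊u⌋₊ : ℝ)) := by
      rw [Finset.sum_const, Nat.card_Icc, nsmul_eq_mul, Nat.add_sub_cancel]
    rw [this, ← Finset.sum_add_distrib, Bl]
    apply Finset.sum_congr rfl
    intro k _
    ring
  have h3 : Real.log u - Real.log (⌊u⌋₊ : ℝ) ≤ 1 / (⌊u⌋₊ : ℝ) := by
    rw [← Real.log_div (by linarith) (by linarith)]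
    have := Real.log_le_sub_one_of_pos (x := u / (⌊u⌋₊ : ℝ)) (by positivity)
    refine this.trans ?_
    rw [sub_le_iff_le_add, div_le_iff₀ (by linarith)]
    have : (1 / (⌊u⌋₊ : ℝ) + 1) * (⌊u⌋₊ : ℝ) = 1 + (⌊u⌋₊ : ℝ) := by
      field_simp
    rw [this]
    linarith
  have h4 : (⌊u⌋₊ : ℝ) * (Real.log u - Real.log (⌊u⌋₊ : ℝ)) ≤ 1 := by
    calc _ ≤ (⌊u⌋₊ : ℝ) * (1 / (⌊u⌋₊ : ℝ)) := mul_le_mul_of_nonneg_left h3 (by linarith)
      _ = 1 := by field_simp
  rw [h2]
  linarith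

theorem lms_partial {f : ℕ → ℂ} (hb : ∀ n, ‖f n‖ ≤ 1) {u : ℝ} (hu : 1 ≤ u) :
    ‖lms_S f u‖ * Real.log u ≤ ‖lms_B f u‖ + 2 * u := by
  have h1 : (Real.log u : ℂ) * lms_S f u =
      lms_B f u + ∑ n ∈ Bl u, ((Real.log u - Real.log n : ℝ) : ℂ) * f n := by
    unfold lms_S lms_B
    rw [Finset.mul_sum, ← Finset.sum_add_distrib]
    apply Finset.sum_congr rfl
    intro n _
    push_cast
    ring
  have h2 : ‖∑ n ∈ Bl u, ((Real.log u - Real.log n : ℝ) : ℂ) * f n‖ ≤ 2 * u := by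
    refine le_trans (norm_sum_le _ _) (le_trans (Finset.sum_le_sum ?_) (lms_T hu))
    intro n hn
    rw [Bl, Finset.mem_Icc] at hn
    rw [norm_mul, Complex.norm_real, Real.norm_eq_abs]
    have h3 : (0 : ℝ) < n := by exact_mod_cast hn.1
    have h5 : (n : ℝ) ≤ u := (Nat.le_floor_iff (by linarith)).1 hn.2
    have h4 : 0 ≤ Real.log u - Real.log n := by
      have := Real.log_le_log h3 h5
      linarith
    rw [abs_of_nonneg h4]
    have := hb n
    nlinarith
  have h5 : ‖lms_S f u‖ * Real.log u = ‖(Real.log u : ℂ) * lms_S f u‖ := by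
    rw [norm_mul, Complex.norm_real, Real.norm_eq_abs, abs_of_nonneg (Real.log_nonneg hu),
      mul_comm]
  rw [h5, h1]
  exact (norm_add_le _ _).trans (by linarith)

theorem lms_card {u : ℝ} (hu : 0 ≤ u) : ((Bl u).card : ℝ) ≤ u := by
  rw [Bl, Nat.card_Icc, Nat.add_sub_cancel]
  exact Nat.floor_le hu

theorem lms_S_le {f : ℕ → ℂ} (hb : ∀ n, ‖f n‖ ≤ 1) {u : ℝ} (hu : 0 ≤ u) : ‖lms_S f u‖ ≤ u := by
  unfold lms_S
  calc ‖∑ n ∈ Bl u, f n‖ ≤ ∑ n ∈ Bl u, ‖f n‖ := norm_sum_le _ _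
    _ ≤ ∑ n ∈ Bl u, (1 : ℝ) := Finset.sum_le_sum (fun n _ => hb n)
    _ = ((Bl u).card : ℝ) := by simp
    _ ≤ u := lms_card hu

theorem lms_B_le {f : ℕ → ℂ} (hb : ∀ n, ‖f n‖ ≤ 1) {u : ℝ} (hu : 1 ≤ u) :
    ‖lms_B f u‖ ≤ u * Real.log u := by
  unfold lms_B
  calc ‖∑ n ∈ Bl u, (Real.log n : ℂ) * f n‖ ≤ ∑ n ∈ Bl u, ‖(Real.log n : ℂ) * f n‖ :=
        norm_sum_le _ _
    _ ≤ ∑ n ∈ Bl u, Real.log u := by
        apply Finset.sum_le_sum
        intro n hn
        rw [Bl, Finset.mem_Icc] at hn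
        have h3 : (1 : ℝ) ≤ n := by exact_mod_cast hn.1
        have h5 : (n : ℝ) ≤ u := (Nat.le_floor_iff (by linarith)).1 hn.2
        rw [norm_mul, Complex.norm_real, Real.norm_eq_abs, abs_of_nonneg (Real.log_nonneg h3)]
        have h4 := Real.log_le_log (by linarith) h5
        have h6 := Real.log_nonneg h3
        have h7 : 0 ≤ ‖f n‖ := norm_nonneg _
        nlinarith [hb n]
    _ = ((Bl u).card : ℝ) * Real.log u := by rw [Finset.sum_const, nsmul_eq_mul]
    _ ≤ u * Real.log u :=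
        mul_le_mul_of_nonneg_right (lms_card (by linarith)) (Real.log_nonneg hu)

theorem lms_int {f : ℕ → ℂ} (hb : ∀ n, ‖f n‖ ≤ 1) {L : ℝ} (hL : 1 ≤ L) :
    IntegrableOn (fun u : ℝ => ‖lms_B f u‖ ^ 2 * u ^ (-(3 + 2 / L))) (Set.Ioi 1) := by
  have hL0 : 0 < L := by linarith
  have hmeas : Measurable (fun u : ℝ => ‖lms_B f u‖ ^ 2 * u ^ (-(3 + 2 / L))) := by
    have h1 : (fun u : ℝ => lms_B f u) = (fun n : ℕ => ∑ k ∈ Finset.Icc 1 n, (Real.log k : ℂ) * f k) ∘
        (fun u : ℝ => ⌊u⌋₊) := by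
      funext u
      simp only [Function.comp, lms_B, Bl]
    have h2 : Measurable (fun u : ℝ => lms_B f u) := by
      rw [h1]
      exact (measurable_from_top).comp Nat.measurable_floor
    exact (h2.norm.pow_const 2).mul (by fun_prop)
  have hdom : IntegrableOn (fun u : ℝ => (16 * L ^ 2) * u ^ (-(1 + 3 / (2 * L))))
      (Set.Ioi 1) := by
    apply Integrable.const_mul
    apply integrableOn_Ioi_rpow_of_lt _ zero_lt_one
    have : 0 < 3 / (2 * L) := by positivity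
    linarith
  refine Integrable.mono' hdom hmeas.aestronglyMeasurable ?_
  rw [ae_restrict_iff' measurableSet_Ioi]
  refine Eventually.of_forall (fun u hu => ?_)
  have hu1 : (1 : ℝ) < u := hu
  have hu0 : 0 < u := by linarith
  rw [Real.norm_eq_abs, abs_of_nonneg (by positivity)]
  have h1 := lms_B_le hb hu1.le
  have h2 : Real.log u ≤ u ^ (1 / (4 * L)) / (1 / (4 * L)) :=
    Real.log_le_rpow_div hu0.le (by positivity)
  have h3 : u ^ (1 / (4 * L)) / (1 / (4 * L)) = 4 * L * u ^ (1 / (4 * L)) := by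
    field_simp
  rw [h3] at h2
  have h4 : 0 ≤ Real.log u := Real.log_nonneg hu1.le
  calc ‖lms_B f u‖ ^ 2 * u ^ (-(3 + 2 / L))
      ≤ (u * (4 * L * u ^ (1 / (4 * L)))) ^ 2 * u ^ (-(3 + 2 / L)) := by
        gcongr
        exact h1.trans (by gcongr)
    _ = (16 * L ^ 2) * (u ^ (2 : ℝ) * (u ^ (1 / (4 * L)) * u ^ (1 / (4 * L))) *
          u ^ (-(3 + 2 / L))) := by
        rw [Real.rpow_two]; ring
    _ = _ := by
        rw [← Real.rpow_add hu0, ← Real.rpow_add hu0, ← Real.rpow_add hu0]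
        congr 2
        field_simp
        ring

/-- the bound of the mean square of `S` by that of `B` -/
theorem lms_SB {f : ℕ → ℂ} (hb : ∀ n, ‖f n‖ ≤ 1) {X θ I : ℝ} (hX : 1 ≤ Real.log X) (hX0 : 0 < X)
    (hθ : 0 < θ) (hθ1 : θ ≤ 1)
    (hI : ∫ u in Set.Ioi (1 : ℝ), ‖lms_B f u‖ ^ 2 * u ^ (-(3 + 2 / Real.log X)) ≤ I) :
    ∫ u in Set.Ioc (1 : ℝ) X, ‖lms_S f u‖ ^ 2 / u ^ 3 ≤
      θ * Real.log X + 2 / (θ ^ 2 * Real.log X ^ 2) * (9 * I + 4 * Real.log X) := by
  set L := Real.log X with hL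
  have hL0 : 0 < L := by linarith
  have hX1 : 1 < X := by
    by_contra h
    push Not at h
    have := Real.log_nonpos hX0.le h
    linarith
  have hXθ : 1 ≤ X ^ θ := Real.one_le_rpow hX1.le hθ.le
  have hXθX : X ^ θ ≤ X := by
    calc X ^ θ ≤ X ^ (1 : ℝ) := Real.rpow_le_rpow_of_exponent_le hX1.le hθ1
      _ = X := Real.rpow_one _
  set c : ℝ := 2 / (θ ^ 2 * L ^ 2) with hc
  have hc0 : 0 < c := by positivity
  set g1 : ℝ → ℝ := Set.indicator (Set.Ioc 1 (X ^ θ)) (fun u => u⁻¹) with hg1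
  set g2 : ℝ → ℝ := fun u => ‖lms_B f u‖ ^ 2 * u ^ (-(3 + 2 / L)) with hg2
  set g3 : ℝ → ℝ := fun u => u⁻¹ with hg3
  have hinv : ∀ Z : ℝ, 1 ≤ Z → IntegrableOn (fun u : ℝ => u⁻¹) (Set.Ioc 1 Z) ∧
      ∫ u in Set.Ioc 1 Z, u⁻¹ = Real.log Z := by
    intro Z hZ
    have h1 : IntervalIntegrable (fun u : ℝ => u⁻¹) volume 1 Z := by
      apply intervalIntegral.intervalIntegrable_inv
      · intro x hx
        rw [Set.uIcc_of_le hZ, Set.mem_Icc] at hx
        linarith [hx.1]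
      · exact continuousOn_id
    refine ⟨(intervalIntegrable_iff_integrableOn_Ioc_of_le hZ).1 h1, ?_⟩
    rw [← intervalIntegral.integral_of_le hZ, integral_inv_of_pos one_pos (by linarith), div_one]
  have hi1 : IntegrableOn g1 (Set.Ioc 1 X) := by
    have h1 := (hinv (X ^ θ) hXθ).1
    have h2 : Integrable g1 := by
      rw [hg1, integrable_indicator_iff measurableSet_Ioc]
      exact h1
    exact h2.integrableOn
  have hi2 : IntegrableOn g2 (Set.Ioc 1 X) := (lms_int hb hX).mono_set Set.Ioc_subset_Ioi_self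
  have hi3 : IntegrableOn g3 (Set.Ioc 1 X) := (hinv X hX1.le).1
  have hv1 : ∫ u in Set.Ioc 1 X, g1 u = θ * L := by
    rw [hg1, setIntegral_indicator measurableSet_Ioc]
    have : Set.Ioc 1 X ∩ Set.Ioc 1 (X ^ θ) = Set.Ioc 1 (X ^ θ) := by
      apply Set.inter_eq_right.2
      exact Set.Ioc_subset_Ioc_right hXθX
    rw [this, (hinv (X ^ θ) hXθ).2, Real.log_rpow hX0]
  have hv2 : ∫ u in Set.Ioc 1 X, g2 u ≤ I := by
    refine le_trans ?_ hI
    apply setIntegral_mono_set (lms_int hb hX)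
    · rw [EventuallyLE, ae_restrict_iff' measurableSet_Ioi]
      refine Eventually.of_forall (fun u hu => ?_)
      have hu0 : (0 : ℝ) < u := lt_trans one_pos hu
      simp only [Pi.zero_apply]
      positivity
    · exact (Set.Ioc_subset_Ioi_self).eventuallyLE
  have hv3 : ∫ u in Set.Ioc 1 X, g3 u = L := (hinv X hX1.le).2
  have hmain : ∫ u in Set.Ioc (1 : ℝ) X, ‖lms_S f u‖ ^ 2 / u ^ 3 ≤
      ∫ u in Set.Ioc (1 : ℝ) X, (g1 u + (c * 9 * g2 u + c * 4 * g3 u)) := by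
    apply integral_mono_of_nonneg
    · rw [EventuallyLE, ae_restrict_iff' measurableSet_Ioc]
      refine Eventually.of_forall (fun u hu => ?_)
      have hu0 : (0 : ℝ) < u := lt_trans one_pos hu.1
      simp only [Pi.zero_apply]
      positivity
    · exact hi1.add ((hi2.const_mul _).add (hi3.const_mul _))
    · rw [EventuallyLE, ae_restrict_iff' measurableSet_Ioc]
      refine Eventually.of_forall (fun u hu => ?_)
      have hu1 : (1 : ℝ) < u := hu.1
      have hu0 : (0 : ℝ) < u := by linarith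
      have hg20 : 0 ≤ g2 u := by simp only [hg2]; positivity
      have hg30 : 0 ≤ g3 u := by simp only [hg3]; positivity
      by_cases h : u ≤ X ^ θ
      · have h1 : g1 u = u⁻¹ := by
          rw [hg1, Set.indicator_of_mem (show u ∈ Set.Ioc 1 (X ^ θ) from ⟨hu1, h⟩)]
        have h2 := lms_S_le hb hu0.le
        have h3 : ‖lms_S f u‖ ^ 2 / u ^ 3 ≤ u⁻¹ := by
          rw [div_le_iff₀ (by positivity)]
          calc ‖lms_S f u‖ ^ 2 ≤ u ^ 2 := by gcongr
            _ = u⁻¹ * u ^ 3 := by field_simp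
        rw [h1]
        have h4 : 0 ≤ c * 9 * g2 u + c * 4 * g3 u := by positivity
        linarith
      · have h1 : g1 u = 0 := by
          rw [hg1, Set.indicator_of_notMem]
          intro h5
          exact h h5.2
        push Not at h
        rw [h1, zero_add]
        have h2 := lms_partial hb hu1.le
        have h3 : θ * L ≤ Real.log u := by
          rw [hL, ← Real.log_rpow hX0]
          exact Real.log_le_log (by positivity) h.le
        have h4 : ‖lms_S f u‖ * (θ * L) ≤ ‖lms_B f u‖ + 2 * u :=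
          (mul_le_mul_of_nonneg_left h3 (norm_nonneg _)).trans h2
        have h5 : ‖lms_S f u‖ ^ 2 ≤ c * (‖lms_B f u‖ ^ 2 + 4 * u ^ 2) := by
          have h6 : (‖lms_S f u‖ * (θ * L)) ^ 2 ≤ (‖lms_B f u‖ + 2 * u) ^ 2 := by gcongr
          have h7 : (‖lms_B f u‖ + 2 * u) ^ 2 ≤ 2 * (‖lms_B f u‖ ^ 2 + 4 * u ^ 2) := by
            nlinarith [sq_nonneg (‖lms_B f u‖ - 2 * u)]
          have h8 : ‖lms_S f u‖ ^ 2 * (θ ^ 2 * L ^ 2) ≤ 2 * (‖lms_B f u‖ ^ 2 + 4 * u ^ 2) := by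
            calc _ = (‖lms_S f u‖ * (θ * L)) ^ 2 := by ring
              _ ≤ _ := h6.trans h7
          rw [hc, div_mul_eq_mul_div, le_div_iff₀ (by positivity)]
          exact h8
        have h9 : u⁻¹ ^ 3 ≤ 9 * u ^ (-(3 + 2 / L)) := by
          rw [Real.rpow_neg hu0.le, Real.rpow_add hu0]
          have e1 : u ^ (3 : ℝ) = u ^ 3 := by
            rw [show (3 : ℝ) = ((3 : ℕ) : ℝ) by norm_num, Real.rpow_natCast]
          have e2 : u ^ (2 / L) ≤ 9 := by
            rw [Real.rpow_def_of_pos hu0]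
            have e3 : Real.log u * (2 / L) ≤ 2 := by
              have e4 : Real.log u ≤ L := Real.log_le_log hu0 hu.2
              rw [mul_div_assoc', div_le_iff₀ hL0]
              linarith
            calc Real.exp (Real.log u * (2 / L)) ≤ Real.exp 2 := Real.exp_le_exp.mpr e3
              _ = Real.exp 1 * Real.exp 1 := by rw [← Real.exp_add]; norm_num
              _ ≤ 9 := by
                have := Real.exp_one_lt_d9
                have h0 := Real.exp_pos 1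
                nlinarith
          rw [e1, mul_inv, inv_pow]
          have e5 : 1 ≤ 9 * (u ^ (2 / L))⁻¹ := by
            rw [← div_eq_mul_inv, le_div_iff₀ (by positivity)]
            linarith
          have e6 : 0 < (u ^ 3)⁻¹ := by positivity
          nlinarith
        calc ‖lms_S f u‖ ^ 2 / u ^ 3 ≤ c * (‖lms_B f u‖ ^ 2 + 4 * u ^ 2) / u ^ 3 := by gcongr
          _ = c * ‖lms_B f u‖ ^ 2 * u⁻¹ ^ 3 + c * 4 * u⁻¹ := by field_simp
          _ ≤ c * ‖lms_B f u‖ ^ 2 * (9 * u ^ (-(3 + 2 / L))) + c * 4 * u⁻¹ := by gcongr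
          _ = c * 9 * g2 u + c * 4 * g3 u := by simp only [hg2, hg3]; ring
  refine hmain.trans ?_
  have hi2' : IntegrableOn (fun u => c * 9 * g2 u) (Set.Ioc 1 X) := hi2.const_mul _
  have hi3' : IntegrableOn (fun u => c * 4 * g3 u) (Set.Ioc 1 X) := hi3.const_mul _
  have hi23 : IntegrableOn (fun u => c * 9 * g2 u + c * 4 * g3 u) (Set.Ioc 1 X) := hi2'.add hi3'
  rw [integral_add hi1 hi23, integral_add hi2' hi3', integral_const_mul, integral_const_mul,
    hv1, hv3]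
  have : c * 9 * ∫ u in Set.Ioc 1 X, g2 u ≤ c * 9 * I :=
    mul_le_mul_of_nonneg_left hv2 (by positivity)
  linarith

theorem log_ms {m : ℕ} [NeZero m] (χ : DirichletCharacter ℂ m) (ε : ℝ) (hε : 0 < ε) :
    ∃ X₀ : ℝ, ∀ X : ℝ, X₀ ≤ X → ∀ τ : ℝ, |τ| ≤ X ^ 2 →
      ∫ u in Set.Ioc (1 : ℝ) X, ‖Sf χ τ u‖ ^ 2 / u ^ 3 ≤ ε * Real.log X := by
  obtain ⟨C, hC1, hC⟩ := mean_square
  have hC0 : 0 < C := by linarith
  -- the parameters
  set θ : ℝ := min 1 (ε / 4) with hθdef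
  have hθ : 0 < θ := lt_min one_pos (by positivity)
  have hθ1 : θ ≤ 1 := min_le_left _ _
  have hθ2 : θ ≤ ε / 4 := min_le_right _ _
  set δ : ℝ := ε * θ ^ 2 / (36 * 4 * C) with hδdef
  have hδ : 0 < δ := by positivity
  set η : ℝ := min 1 (δ / 4) with hηdef
  have hη : 0 < η := lt_min one_pos (by positivity)
  have hη1 : η ≤ 1 := min_le_left _ _
  have hη2 : 4 * η ^ 2 ≤ δ := by
    have : η ≤ δ / 4 := min_le_right _ _
    nlinarith
  set K₀ : ℝ := max 1 (1 / δ) with hKdef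
  have hK1 : 1 ≤ K₀ := le_max_left _ _
  have hK2 : 1 / K₀ ≤ δ := by
    have h1 : 1 / δ ≤ K₀ := le_max_right _ _
    rw [div_le_iff₀ (by linarith)]
    rw [div_le_iff₀ hδ] at h1
    linarith
  obtain ⟨L₁, hL₁, hinv⟩ := inv_bd χ η 3 hη (by norm_num)
  set L₀ : ℝ := max L₁ (max K₀ (32 / (θ ^ 2 * ε))) with hL₀
  refine ⟨max 3 (Real.exp L₀), ?_⟩
  intro X hX τ hτ
  have hX3 : 3 ≤ X := le_trans (le_max_left _ _) hX
  have hXe : Real.exp L₀ ≤ X := le_trans (le_max_right _ _) hX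
  have hX0 : 0 < X := by linarith
  have hL : L₀ ≤ Real.log X := by
    rw [← Real.log_exp L₀]
    exact Real.log_le_log (Real.exp_pos _) hXe
  have hexpL : Real.exp (Real.log X) = X := Real.exp_log hX0
  set L := Real.log X with hLdef
  have hLL1 : L₁ ≤ L := le_trans (le_max_left _ _) hL
  have hL1 : 1 ≤ L := hL₁.trans hLL1
  have hL0 : 0 < L := by linarith
  have hLK : K₀ ≤ L := le_trans (le_trans (le_max_left _ _) (le_max_right _ _)) hL
  have hL3 : 32 / (θ ^ 2 * ε) ≤ L := le_trans (le_trans (le_max_right _ _) (le_max_right _ _)) hL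
  set f : ℕ → ℂ := fun n => (lam n : ℂ) * (χ n * tw τ n) with hf
  have hCM : CM f := lxt_cm χ τ
  -- the bound for the Dirichlet series
  have hsup : ∀ t : ℝ, |t| ≤ K₀ * L →
      ‖LSeries f ((1 + 1 / L : ℝ) + t * Complex.I)‖ ≤ 2 * η * L := by
    intro t ht
    have hs : 1 < (((1 + 1 / L : ℝ) : ℂ) + t * Complex.I).re := by
      simp
      positivity
    have h1 := las χ τ (((1 + 1 / L : ℝ) : ℂ) + t * Complex.I) hs
    have e1 : ((1 + 1 / L : ℝ) : ℂ) + t * Complex.I - τ * Complex.I =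
        ((1 + 1 / L : ℝ) : ℂ) + ((t - τ : ℝ) : ℂ) * Complex.I := by
      push_cast
      ring
    rw [e1] at h1
    have h2 := hinv L hLL1 (t - τ) (by
      have e2 : Real.exp (3 * L) = X ^ 3 := by
        rw [mul_comm, Real.exp_mul, hexpL]
        norm_cast
      rw [e2]
      have e3 : |t - τ| ≤ |t| + |τ| := abs_sub t τ
      have e4 : L ≤ X := by
        have := Real.log_le_sub_one_of_pos hX0
        linarith
      have e5 : K₀ * L ≤ X ^ 2 := by nlinarith
      have e6 : 2 * X ^ 2 ≤ X ^ 3 := by nlinarith [sq_nonneg X]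
      linarith)
    set y := ‖LSeries (fun n => χ n) (((1 + 1 / L : ℝ) : ℂ) + ((t - τ : ℝ) : ℂ) * Complex.I)‖ with hy
    have hy0 : 0 ≤ y := norm_nonneg _
    set z := ‖LSeries f (((1 + 1 / L : ℝ) : ℂ) + t * Complex.I)‖ with hz
    have hz0 : 0 ≤ z := norm_nonneg _
    have h3 : z * y ≤ 2 := h1
    calc z = z * 1 := (mul_one _).symm
      _ ≤ z * (η * L * y) := mul_le_mul_of_nonneg_left h2 hz0
      _ = η * L * (z * y) := by ring
      _ ≤ η * L * 2 := mul_le_mul_of_nonneg_left h3 (by positivity)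
      _ = 2 * η * L := by ring
  have hms := hC f hCM L (K₀ * L) (2 * η * L) hL1 (by nlinarith) (by positivity) hsup
  have hI : ∫ u in Set.Ioi (1 : ℝ), ‖lms_B f u‖ ^ 2 * u ^ (-(3 + 2 / L)) ≤ C * (2 * δ) * L ^ 3 := by
    refine le_trans hms ?_
    have h1 : (2 * η * L) ^ 2 * L + L ^ 4 / (K₀ * L) = (4 * η ^ 2 + 1 / K₀) * L ^ 3 := by
      have : K₀ ≠ 0 := by linarith
      field_simp
      ring
    rw [h1]
    have h2 : (4 * η ^ 2 + 1 / K₀) ≤ 2 * δ := by linarith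
    calc C * ((4 * η ^ 2 + 1 / K₀) * L ^ 3) ≤ C * ((2 * δ) * L ^ 3) := by gcongr
      _ = _ := by ring
  have hS := lms_SB hCM.bd hL1 hX0 hθ hθ1 hI
  have heq : ∀ u : ℝ, Sf χ τ u = lms_S f u := fun u => rfl
  simp only [heq]
  refine hS.trans ?_
  have h1 : 2 / (θ ^ 2 * L ^ 2) * (9 * (C * (2 * δ) * L ^ 3) + 4 * L) = ε / 4 * L +
      8 / (θ ^ 2 * L) := by
    rw [hδdef]
    field_simp
    ring
  rw [h1]
  have h2 : 8 / (θ ^ 2 * L) ≤ ε / 4 * L := by
    rw [div_le_iff₀ (by positivity)] at hL3 ⊢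
    have h3 : 32 ≤ ε * θ ^ 2 * L := by linarith
    have h4 : ε * θ ^ 2 * L * 1 ≤ ε * θ ^ 2 * L * L := by
      apply mul_le_mul_of_nonneg_left hL1 (by positivity)
    nlinarith
  nlinarith

end Pool.Agent.PS

/-! ### Block NAT -/


namespace Pool.Agent.PS

open MeasureTheory Filter Topology

/-- `|∑_{n ≤ u} f(n)|` -/
private noncomputable def nat_A (f : ℕ → ℂ) (u : ℝ) : ℝ := ‖∑ n ∈ Bl u, f n‖

private theorem nat_A_nonneg (f : ℕ → ℂ) (u : ℝ) : 0 ≤ nat_A f u := norm_nonneg _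

private theorem nat_A_le {f : ℕ → ℂ} (hf : CM f) {u : ℝ} (hu : 0 ≤ u) : nat_A f u ≤ u := by
  unfold nat_A Bl
  calc ‖∑ n ∈ Finset.Icc 1 ⌊u⌋₊, f n‖ ≤ ∑ n ∈ Finset.Icc 1 ⌊u⌋₊, (1 : ℝ) :=
        norm_sum_le_of_le _ fun n _ => hf.bd n
    _ = ⌊u⌋₊ := by simp
    _ ≤ u := Nat.floor_le hu

private theorem nat_A_zero (f : ℕ → ℂ) {u : ℝ} (hu : u < 1) : nat_A f u = 0 := by
  unfold nat_A Bl
  have : ⌊u⌋₊ = 0 := Nat.floor_eq_zero.2 hu
  rw [this]
  simp

private theorem nat_A_diff {f : ℕ → ℂ} (hf : CM f) {u v : ℝ} (hu : 0 ≤ u) (huv : u ≤ v) :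
    nat_A f v ≤ nat_A f u + (v - u) + 1 := by
  unfold nat_A Bl
  have h1 : ⌊u⌋₊ ≤ ⌊v⌋₊ := Nat.floor_le_floor huv
  have h2 : ∑ n ∈ Finset.Icc 1 ⌊v⌋₊, f n =
      ∑ n ∈ Finset.Icc 1 ⌊u⌋₊, f n + ∑ n ∈ Finset.Ioc ⌊u⌋₊ ⌊v⌋₊, f n := by
    have e1 : Finset.Icc 1 ⌊v⌋₊ = Finset.Ioc 0 ⌊v⌋₊ := by
      ext; simp [Nat.succ_le_iff]
    have e2 : Finset.Icc 1 ⌊u⌋₊ = Finset.Ioc 0 ⌊u⌋₊ := by
      ext; simp [Nat.succ_le_iff]
    rw [e1, e2]
    exact (Finset.sum_Ioc_consecutive _ (Nat.zero_le _) h1).symm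
  have h3 : ‖∑ n ∈ Finset.Ioc ⌊u⌋₊ ⌊v⌋₊, f n‖ ≤ (v - u) + 1 := by
    calc ‖∑ n ∈ Finset.Ioc ⌊u⌋₊ ⌊v⌋₊, f n‖ ≤ ∑ n ∈ Finset.Ioc ⌊u⌋₊ ⌊v⌋₊, (1 : ℝ) :=
          norm_sum_le_of_le _ fun n _ => hf.bd n
      _ = (⌊v⌋₊ : ℝ) - ⌊u⌋₊ := by
          simp [Nat.cast_sub h1]
      _ ≤ (v - u) + 1 := by
          have := Nat.floor_le (hu.trans huv)
          have := Nat.lt_floor_add_one u
          linarith
  rw [h2]
  linarith [norm_add_le (∑ n ∈ Finset.Icc 1 ⌊u⌋₊, f n) (∑ n ∈ Finset.Ioc ⌊u⌋₊ ⌊v⌋₊, f n)]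

private theorem nat_A_meas (f : ℕ → ℂ) : Measurable (nat_A f) := by
  have : nat_A f = (fun k : ℕ => ‖∑ n ∈ Finset.Icc 1 k, f n‖) ∘ (fun u : ℝ => ⌊u⌋₊) := by
    funext u
    rfl
  rw [this]
  exact (measurable_from_nat).comp Nat.measurable_floor

/-- the identity `∑ log n f(n) = ∑ Λ(d) f(d) S(X/d)` -/
private theorem nat_conv {f : ℕ → ℂ} (hf : ∀ a b, f (a * b) = f a * f b) (X : ℝ) :
    ∑ n ∈ Bl X, (Real.log n : ℂ) * f n =
      ∑ d ∈ Bl X, ((ArithmeticFunction.vonMangoldt d : ℝ) : ℂ) * f d * ∑ m ∈ Bl (X / d), f m := by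
  unfold Bl
  have e : ∀ N : ℕ, Finset.Icc 1 N = Finset.Ioc 0 N := by
    intro N; ext; simp [Nat.succ_le_iff]
  simp only [e, Nat.floor_div_natCast]
  let g : ArithmeticFunction ℂ := ⟨fun n => if n = 0 then 0 else
    ((ArithmeticFunction.vonMangoldt n : ℝ) : ℂ) * f n, by simp⟩
  let h : ArithmeticFunction ℂ := ⟨fun n => if n = 0 then 0 else f n, by simp⟩
  have key := ArithmeticFunction.sum_Ioc_mul_eq_sum_sum g h ⌊X⌋₊
  have hg : ∀ n ∈ Finset.Ioc 0 ⌊X⌋₊, g n = ((ArithmeticFunction.vonMangoldt n : ℝ) : ℂ) * f n := by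
    intro n hn
    have : n ≠ 0 := by
      have := (Finset.mem_Ioc.1 hn).1
      omega
    show (if n = 0 then 0 else _) = _
    rw [if_neg this]
  have hh : ∀ N, ∀ n ∈ Finset.Ioc 0 N, h n = f n := by
    intro N n hn
    have : n ≠ 0 := by
      have := (Finset.mem_Ioc.1 hn).1
      omega
    show (if n = 0 then 0 else _) = _
    rw [if_neg this]
  have h1 : ∑ n ∈ Finset.Ioc 0 ⌊X⌋₊, (g * h) n = ∑ n ∈ Finset.Ioc 0 ⌊X⌋₊, (Real.log n : ℂ) * f n := by
    refine Finset.sum_congr rfl fun n hn => ?_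
    have hn0 : n ≠ 0 := by
      have := (Finset.mem_Ioc.1 hn).1
      omega
    rw [ArithmeticFunction.mul_apply]
    have h2 : ∀ x ∈ n.divisorsAntidiagonal, g x.1 * h x.2 =
        ((ArithmeticFunction.vonMangoldt x.1 : ℝ) : ℂ) * f n := by
      intro x hx
      have hx' := Nat.mem_divisorsAntidiagonal.1 hx
      have a1 : x.1 ≠ 0 := by
        rintro h0
        rw [h0, zero_mul] at hx'
        exact hn0 hx'.1.symm
      have a2 : x.2 ≠ 0 := by
        rintro h0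
        rw [h0, mul_zero] at hx'
        exact hn0 hx'.1.symm
      show (if x.1 = 0 then 0 else _) * (if x.2 = 0 then 0 else _) = _
      rw [if_neg a1, if_neg a2, mul_assoc, ← hf, hx'.1]
    rw [Finset.sum_congr rfl h2, ← Finset.sum_mul]
    congr 1
    rw [Nat.sum_divisorsAntidiagonal (fun i _ => ((ArithmeticFunction.vonMangoldt i : ℝ) : ℂ)),
      ← Complex.ofReal_sum, ArithmeticFunction.vonMangoldt_sum]
  rw [← h1, key]
  refine Finset.sum_congr rfl fun n hn => ?_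
  rw [hg n hn, Finset.sum_congr rfl (hh _)]

/-- `∑ log (X/n) ≤ X` -/
private theorem nat_log_sum {X : ℝ} (hX : 1 ≤ X) :
    ∑ n ∈ Bl X, (Real.log X - Real.log n) ≤ X := by
  have hind : ∀ N : ℕ, 1 ≤ N → N * Real.log N - N ≤ ∑ n ∈ Finset.Icc 1 N, Real.log n := by
    intro N hN
    induction N, hN using Nat.le_induction with
    | base => simp
    | succ N hN ih =>
      rw [← Nat.succ_eq_add_one, Finset.sum_Icc_succ_top (by omega)]
      have hNpos : (0 : ℝ) < N := by exact_mod_cast hN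
      have h1 : Real.log ((N.succ : ℕ) : ℝ) - Real.log N ≤ 1 / N := by
        rw [← Real.log_div (by positivity) (by positivity)]
        have h2 : ((N.succ : ℕ) : ℝ) / N = 1 + 1 / N := by
          push_cast
          field_simp
        rw [h2]
        have := Real.log_le_sub_one_of_pos (show (0 : ℝ) < 1 + 1 / N by positivity)
        linarith
      have h3 : N * (Real.log ((N.succ : ℕ) : ℝ) - Real.log N) ≤ 1 := by
        calc N * (Real.log ((N.succ : ℕ) : ℝ) - Real.log N) ≤ N * (1 / N) := by gcongr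
          _ = 1 := by field_simp
      push_cast at h3 ih ⊢
      simp only [Nat.succ_eq_add_one] at *
      push_cast at *
      nlinarith [h3, ih]
  unfold Bl
  have hN : 1 ≤ ⌊X⌋₊ := Nat.one_le_floor_iff _ |>.2 hX
  have h1 := hind ⌊X⌋₊ hN
  have hNpos : (0 : ℝ) < ⌊X⌋₊ := by exact_mod_cast hN
  rw [Finset.sum_sub_distrib, Finset.sum_const, Nat.card_Icc, nsmul_eq_mul]
  have h2 : Real.log X - Real.log ⌊X⌋₊ ≤ X / ⌊X⌋₊ - 1 := by
    rw [← Real.log_div (by positivity) (by positivity)]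
    exact Real.log_le_sub_one_of_pos (by positivity)
  have h3 : (⌊X⌋₊ : ℝ) * (Real.log X - Real.log ⌊X⌋₊) ≤ X - ⌊X⌋₊ := by
    calc (⌊X⌋₊ : ℝ) * (Real.log X - Real.log ⌊X⌋₊) ≤ ⌊X⌋₊ * (X / ⌊X⌋₊ - 1) := by gcongr
      _ = X - ⌊X⌋₊ := by field_simp
  have h4 : ((⌊X⌋₊ + 1 - 1 : ℕ) : ℝ) = ⌊X⌋₊ := by simp
  rw [h4]
  linarith

/-- Chebyshev/Mertens: `∑ Λ(d)/d ≤ 2 log X` -/
private theorem nat_mertens {X : ℝ} (hX : 1 ≤ X) :
    ∑ d ∈ Bl X, ArithmeticFunction.vonMangoldt d / d ≤ 2 * Real.log X := by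
  have h := nat_conv (f := fun _ => 1) (by intro a b; simp) X
  simp only [mul_one] at h
  have h' : ∑ n ∈ Bl X, Real.log n =
      ∑ d ∈ Bl X, ArithmeticFunction.vonMangoldt d * ((Bl (X / d)).card : ℝ) := by
    have : ((∑ n ∈ Bl X, Real.log n : ℝ) : ℂ) =
        ((∑ d ∈ Bl X, ArithmeticFunction.vonMangoldt d * ((Bl (X / d)).card : ℝ) : ℝ) : ℂ) := by
      rw [Complex.ofReal_sum, h, Complex.ofReal_sum]
      refine Finset.sum_congr rfl fun d _ => ?_
      simp
    exact Complex.ofReal_injective this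
  have hXpos : 0 < X := by linarith
  have h1 : ∀ d ∈ Bl X, ArithmeticFunction.vonMangoldt d * (X / (2 * d)) ≤
      ArithmeticFunction.vonMangoldt d * ((Bl (X / d)).card : ℝ) := by
    intro d hd
    have hd' := Finset.mem_Icc.1 hd
    have hdpos : (0 : ℝ) < d := by exact_mod_cast hd'.1
    have hdX : (d : ℝ) ≤ X := (Nat.le_floor_iff hXpos.le).1 hd'.2
    have hX1 : 1 ≤ X / d := by
      rw [le_div_iff₀ hdpos]; linarith
    refine mul_le_mul_of_nonneg_left ?_ ArithmeticFunction.vonMangoldt_nonneg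
    have e : ((Bl (X / d)).card : ℝ) = ⌊X / d⌋₊ := by simp [Bl]
    rw [e]
    have a1 : (1 : ℝ) ≤ ⌊X / d⌋₊ := by
      exact_mod_cast (Nat.one_le_floor_iff _).2 hX1
    have a2 := Nat.lt_floor_add_one (X / d)
    have a3 : X / (2 * d) = (X / d) / 2 := by
      field_simp
    rw [a3]
    linarith
  have h2 : ∑ n ∈ Bl X, Real.log n ≤ X * Real.log X := by
    calc ∑ n ∈ Bl X, Real.log n ≤ ∑ n ∈ Bl X, Real.log X := by
          refine Finset.sum_le_sum fun n hn => ?_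
          have hn' := Finset.mem_Icc.1 hn
          have : (0 : ℝ) < n := by exact_mod_cast hn'.1
          exact Real.log_le_log this ((Nat.le_floor_iff hXpos.le).1 hn'.2)
      _ = ⌊X⌋₊ * Real.log X := by simp [Bl]
      _ ≤ X * Real.log X := by
          gcongr
          · exact Real.log_nonneg hX
          · exact Nat.floor_le hXpos.le
  have h3 := Finset.sum_le_sum h1
  rw [← h'] at h3
  have h4 : ∑ d ∈ Bl X, ArithmeticFunction.vonMangoldt d * (X / (2 * d)) =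
      (X / 2) * ∑ d ∈ Bl X, ArithmeticFunction.vonMangoldt d / d := by
    rw [Finset.mul_sum]
    refine Finset.sum_congr rfl fun d hd => ?_
    have hd' := Finset.mem_Icc.1 hd
    have hdpos : (0 : ℝ) < d := by exact_mod_cast hd'.1
    field_simp
  rw [h4] at h3
  have h5 : (X / 2) * ∑ d ∈ Bl X, ArithmeticFunction.vonMangoldt d / d ≤ (X / 2) * (2 * Real.log X) := by
    linarith
  exact le_of_mul_le_mul_left h5 (by positivity)


/-- short intervals: a consequence of the prime number theorem -/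
private theorem nat_short {δ : ℝ} (hδ : 0 < δ) (hδ1 : δ ≤ 1) : ∃ M₀ : ℝ, 1 ≤ M₀ ∧
    ∀ y : ℝ, M₀ ≤ y → Chebyshev.psi y - Chebyshev.psi (y / (1 + δ)) ≤ 2 * y * δ / (1 + δ) := by
  have h := Pool.Agent.Lib_helper90.PNT.tendsto_psi_div
  have h3 : 0 < δ / 3 := by positivity
  have h1 := (Metric.tendsto_atTop.1 h) (δ / 3) h3
  obtain ⟨Y, hY⟩ := h1
  refine ⟨2 * max Y 1, by linarith [le_max_right Y 1], fun y hy => ?_⟩
  have m1 := le_max_left Y 1
  have m2 := le_max_right Y 1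
  have hy0 : 0 < y := by linarith
  have hyd : y / 2 ≤ y / (1 + δ) := by
    apply div_le_div_of_nonneg_left hy0.le (by linarith) (by linarith)
  have a1 := hY y (by linarith)
  have a2 := hY (y / (1 + δ)) (by linarith)
  rw [Real.dist_eq, abs_lt] at a1 a2
  have hz0 : 0 < y / (1 + δ) := by positivity
  have b1 : Chebyshev.psi y ≤ (1 + δ / 3) * y := by
    have : Chebyshev.psi y / y ≤ 1 + δ / 3 := by linarith [a1.2]
    rwa [div_le_iff₀ hy0] at this
  have b2 : (1 - δ / 3) * (y / (1 + δ)) ≤ Chebyshev.psi (y / (1 + δ)) := by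
    have : 1 - δ / 3 ≤ Chebyshev.psi (y / (1 + δ)) / (y / (1 + δ)) := by linarith [a2.1]
    rwa [le_div_iff₀ hz0] at this
  have b3 : (1 + δ / 3) * y - (1 - δ / 3) * (y / (1 + δ)) ≤ 2 * y * δ / (1 + δ) := by
    have e : (1 + δ / 3) * y - (1 - δ / 3) * (y / (1 + δ)) =
        (y * (δ + δ / 3 * (2 + δ))) / (1 + δ) := by
      field_simp
      ring
    rw [e]
    apply div_le_div_of_nonneg_right _ (by linarith)
    nlinarith [mul_nonneg hy0.le (mul_nonneg hδ.le (sub_nonneg.2 hδ1))]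
  linarith

private theorem nat_int_sq {a b : ℝ} (ha : 0 < a) (hab : a ≤ b) :
    ∫ u in Set.Ioc a b, 1 / u ^ 2 = 1 / a - 1 / b := by
  rw [← intervalIntegral.integral_of_le hab]
  have h : ∀ x ∈ Set.uIcc a b, HasDerivAt (fun u : ℝ => -(u⁻¹)) (1 / x ^ 2) x := by
    intro x hx
    rw [Set.uIcc_of_le hab] at hx
    have hx0 : x ≠ 0 := (lt_of_lt_of_le ha hx.1).ne'
    have := (hasDerivAt_inv hx0).neg
    refine this.congr_deriv ?_
    rw [neg_neg, one_div]
  have hint : IntervalIntegrable (fun x : ℝ => 1 / x ^ 2) volume a b := by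
    apply ContinuousOn.intervalIntegrable
    intro x hx
    rw [Set.uIcc_of_le hab] at hx
    have hx0 : x ≠ 0 := (lt_of_lt_of_le ha hx.1).ne'
    exact ((continuousAt_const).div (continuousAt_id.pow 2) (pow_ne_zero 2 hx0)).continuousWithinAt
  rw [intervalIntegral.integral_eq_sub_of_hasDerivAt h hint]
  rw [one_div, one_div]
  ring

private theorem nat_integrable {f : ℕ → ℂ} (hf : CM f) {a b : ℝ} (ha : 0 < a) :
    IntegrableOn (fun u => nat_A f u / u ^ 2) (Set.Ioc a b) := by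
  refine Measure.integrableOn_of_bounded (M := 1 / a) ?_ ?_ ?_
  · simp
  · exact ((nat_A_meas f).div (measurable_id.pow_const 2)).aestronglyMeasurable
  · rw [ae_restrict_iff' measurableSet_Ioc]
    filter_upwards with u hu
    have hu0 : 0 < u := ha.trans hu.1
    rw [Real.norm_of_nonneg (div_nonneg (nat_A_nonneg f u) (by positivity)),
      div_le_div_iff₀ (by positivity) ha]
    have := nat_A_le hf hu0.le
    have h2 : a ≤ u := hu.1.le
    have h3 := nat_A_nonneg f u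
    nlinarith

private theorem nat_integrable_sq {a b : ℝ} (ha : 0 < a) :
    IntegrableOn (fun u : ℝ => 1 / u ^ 2) (Set.Ioc a b) := by
  refine Measure.integrableOn_of_bounded (M := 1 / a ^ 2) ?_ ?_ ?_
  · simp
  · exact ((measurable_const).div (measurable_id.pow_const 2)).aestronglyMeasurable
  · rw [ae_restrict_iff' measurableSet_Ioc]
    filter_upwards with u hu
    have hu0 : 0 < u := ha.trans hu.1
    rw [Real.norm_of_nonneg (by positivity)]
    apply one_div_le_one_div_of_le (by positivity)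
    exact pow_le_pow_left₀ ha.le hu.1.le 2

/-- averaging over a short interval -/
private theorem nat_avg {f : ℕ → ℂ} (hf : CM f) {δ X d : ℝ} (hδ : 0 < δ) (hX : 0 < X)
    (hd : 0 < d) :
    nat_A f (X / d) ≤ X / (δ * d) * (∫ u in Set.Ioc (X / ((1 + δ) * d)) (X / d), nat_A f u / u ^ 2) +
      δ * (X / d) + 1 := by
  set a := X / ((1 + δ) * d) with ha
  set b := X / d with hb
  have ha0 : 0 < a := by positivity
  have hb0 : 0 < b := by positivity
  have hab : a ≤ b := by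
    rw [ha, hb]
    apply div_le_div_of_nonneg_left hX.le hd
    nlinarith
  have e1 : b - a ≤ δ * b := by
    have : a = b / (1 + δ) := by
      rw [ha, hb]
      field_simp
    rw [this]
    have : b - b / (1 + δ) = δ * b / (1 + δ) := by
      field_simp
      ring
    rw [this]
    apply div_le_self (by positivity)
    linarith
  have e2 : ∫ u in Set.Ioc a b, 1 / u ^ 2 = δ * d / X := by
    rw [nat_int_sq ha0 hab, ha, hb]
    field_simp
    ring
  have hK : 0 < δ * d / X := by positivity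
  have e3 : ∫ u in Set.Ioc a b, nat_A f b * (1 / u ^ 2) ≤
      ∫ u in Set.Ioc a b, (nat_A f u / u ^ 2 + (δ * b + 1) * (1 / u ^ 2)) := by
    apply setIntegral_mono_on
    · exact (nat_integrable_sq ha0).const_mul _
    · exact (nat_integrable hf ha0).add ((nat_integrable_sq ha0).const_mul _)
    · exact measurableSet_Ioc
    · intro u hu
      have hu0 : 0 < u := ha0.trans hu.1
      have h1 := nat_A_diff hf hu0.le hu.2
      have h2 : nat_A f b ≤ nat_A f u + (δ * b + 1) := by linarith [hu.1]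
      have h3 : 0 < 1 / u ^ 2 := by positivity
      calc nat_A f b * (1 / u ^ 2) ≤ (nat_A f u + (δ * b + 1)) * (1 / u ^ 2) := by gcongr
        _ = nat_A f u / u ^ 2 + (δ * b + 1) * (1 / u ^ 2) := by ring
  rw [integral_const_mul, integral_add (nat_integrable hf ha0)
    ((nat_integrable_sq ha0).const_mul _), integral_const_mul, e2] at e3
  have e4 : nat_A f b ≤ (∫ u in Set.Ioc a b, nat_A f u / u ^ 2) / (δ * d / X) + (δ * b + 1) := by
    have : nat_A f b * (δ * d / X) ≤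
        ((∫ u in Set.Ioc a b, nat_A f u / u ^ 2) / (δ * d / X) + (δ * b + 1)) * (δ * d / X) := by
      rw [add_mul, div_mul_cancel₀ _ hK.ne']
      exact e3
    exact le_of_mul_le_mul_right this hK
  have e5 : (∫ u in Set.Ioc a b, nat_A f u / u ^ 2) / (δ * d / X) =
      X / (δ * d) * (∫ u in Set.Ioc a b, nat_A f u / u ^ 2) := by
    field_simp
  rw [e5] at e4
  linarith


private theorem nat_psi_diff {δ : ℝ} (hδ : 0 < δ) {X : ℝ} (hX : 1 ≤ X) {u y : ℝ}
    (hu : 0 < u) (hy : y = X / u) :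
    ∑ d ∈ (Bl X).filter (fun d : ℕ => y / (1 + δ) < (d : ℝ) ∧ (d : ℝ) ≤ y),
      ArithmeticFunction.vonMangoldt d ≤ Chebyshev.psi y - Chebyshev.psi (y / (1 + δ)) := by
  have hy0 : 0 < y := by rw [hy]; positivity
  have hz0 : 0 < y / (1 + δ) := by positivity
  have hzy : y / (1 + δ) ≤ y := div_le_self hy0.le (by linarith)
  have h1 : Chebyshev.psi y = Chebyshev.psi (y / (1 + δ)) +
      ∑ d ∈ Finset.Ioc ⌊y / (1 + δ)⌋₊ ⌊y⌋₊, ArithmeticFunction.vonMangoldt d := by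
    unfold Chebyshev.psi
    exact (Finset.sum_Ioc_consecutive _ (Nat.zero_le _) (Nat.floor_le_floor hzy)).symm
  have h2 : ∑ d ∈ (Bl X).filter (fun d : ℕ => y / (1 + δ) < (d : ℝ) ∧ (d : ℝ) ≤ y),
      ArithmeticFunction.vonMangoldt d ≤
      ∑ d ∈ Finset.Ioc ⌊y / (1 + δ)⌋₊ ⌊y⌋₊, ArithmeticFunction.vonMangoldt d := by
    apply Finset.sum_le_sum_of_subset_of_nonneg
    · intro d hd
      have hd' := (Finset.mem_filter.1 hd).2
      exact Finset.mem_Ioc.2 ⟨(Nat.floor_lt hz0.le).2 hd'.1, (Nat.le_floor_iff hy0.le).2 hd'.2⟩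
    · intro d _ _
      exact ArithmeticFunction.vonMangoldt_nonneg
  linarith

/-- the weight in the swapped sum -/
private noncomputable def nat_W (δ X u : ℝ) : ℝ :=
  ∑ d ∈ Bl X, ArithmeticFunction.vonMangoldt d * (X / (δ * d)) *
    (Set.Ioc (X / ((1 + δ) * d)) (X / d)).indicator (fun _ => (1 : ℝ)) u

private theorem nat_W_bound {δ M₀ : ℝ} (hδ : 0 < δ) (hM : 1 ≤ M₀)
    (hM0 : ∀ y : ℝ, M₀ ≤ y → Chebyshev.psi y - Chebyshev.psi (y / (1 + δ)) ≤ 2 * y * δ / (1 + δ))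
    {f : ℕ → ℂ} (hf : CM f) {X : ℝ} (hX : 1 ≤ X) {u : ℝ} (hu : 0 < u) :
    nat_W δ X u * (nat_A f u / u ^ 2) ≤
      2 * X * (nat_A f u / u ^ 2) + Chebyshev.psi M₀ / δ * M₀ := by
  have hX0 : 0 < X := by linarith
  have hg0 : 0 ≤ nat_A f u / u ^ 2 := div_nonneg (nat_A_nonneg f u) (by positivity)
  have hg1 : nat_A f u / u ^ 2 ≤ 1 / u := by
    rw [div_le_div_iff₀ (by positivity) hu]
    have := nat_A_le hf hu.le
    nlinarith
  set y := X / u with hy
  have hy0 : 0 < y := by positivity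
  -- membership
  have hmem : ∀ d ∈ Bl X, u ∈ Set.Ioc (X / ((1 + δ) * d)) (X / d) ↔
      (y / (1 + δ) < (d : ℝ) ∧ (d : ℝ) ≤ y) := by
    intro d hd
    have hd' := Finset.mem_Icc.1 hd
    have hdpos : (0 : ℝ) < d := by exact_mod_cast hd'.1
    rw [Set.mem_Ioc, hy, div_lt_iff₀ (by positivity), le_div_iff₀ hdpos, div_lt_iff₀ (by positivity),
      le_div_iff₀ hu, div_lt_iff₀ hu]
    constructor
    · rintro ⟨h1, h2⟩
      exact ⟨by nlinarith, by nlinarith⟩
    · rintro ⟨h1, h2⟩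
      exact ⟨by nlinarith, by nlinarith⟩
  have hW : nat_W δ X u = ∑ d ∈ (Bl X).filter (fun d : ℕ => y / (1 + δ) < (d : ℝ) ∧ (d : ℝ) ≤ y),
      ArithmeticFunction.vonMangoldt d * (X / (δ * d)) := by
    unfold nat_W
    rw [Finset.sum_filter]
    refine Finset.sum_congr rfl fun d hd => ?_
    by_cases h : u ∈ Set.Ioc (X / ((1 + δ) * d)) (X / d)
    · rw [Set.indicator_of_mem h, if_pos ((hmem d hd).1 h), mul_one]
    · rw [Set.indicator_of_notMem h, if_neg (fun h' => h ((hmem d hd).2 h')), mul_zero]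
  by_cases hcase : M₀ ≤ y
  · have hW2 : nat_W δ X u ≤ 2 * X := by
      rw [hW]
      calc ∑ d ∈ (Bl X).filter (fun d : ℕ => y / (1 + δ) < (d : ℝ) ∧ (d : ℝ) ≤ y),
            ArithmeticFunction.vonMangoldt d * (X / (δ * d)) ≤
          ∑ d ∈ (Bl X).filter (fun d : ℕ => y / (1 + δ) < (d : ℝ) ∧ (d : ℝ) ≤ y),
            ArithmeticFunction.vonMangoldt d * (X * (1 + δ) / (δ * y)) := by
            refine Finset.sum_le_sum fun d hd => ?_
            have hd2 := (Finset.mem_filter.1 hd).2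
            have hd' := Finset.mem_Icc.1 (Finset.mem_filter.1 hd).1
            have hdpos : (0 : ℝ) < d := by exact_mod_cast hd'.1
            refine mul_le_mul_of_nonneg_left ?_ ArithmeticFunction.vonMangoldt_nonneg
            rw [div_le_div_iff₀ (by positivity) (by positivity)]
            have h1 : y < d * (1 + δ) := by
              have := hd2.1
              rwa [div_lt_iff₀ (by positivity)] at this
            have : X * δ * y ≤ X * δ * (d * (1 + δ)) := by gcongr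
            nlinarith
        _ = (X * (1 + δ) / (δ * y)) *
            ∑ d ∈ (Bl X).filter (fun d : ℕ => y / (1 + δ) < (d : ℝ) ∧ (d : ℝ) ≤ y),
            ArithmeticFunction.vonMangoldt d := by
            rw [← Finset.sum_mul, mul_comm]
        _ ≤ (X * (1 + δ) / (δ * y)) * (2 * y * δ / (1 + δ)) := by
            gcongr
            exact (nat_psi_diff hδ hX hu hy).trans (hM0 y hcase)
        _ = 2 * X := by
            field_simp
    have hp : 0 ≤ Chebyshev.psi M₀ / δ * M₀ := by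
      have := Chebyshev.psi_nonneg M₀
      positivity
    nlinarith
  · push Not at hcase
    have hW2 : nat_W δ X u ≤ X / δ * Chebyshev.psi M₀ := by
      rw [hW]
      calc ∑ d ∈ (Bl X).filter (fun d : ℕ => y / (1 + δ) < (d : ℝ) ∧ (d : ℝ) ≤ y),
            ArithmeticFunction.vonMangoldt d * (X / (δ * d)) ≤
          ∑ d ∈ (Bl X).filter (fun d : ℕ => y / (1 + δ) < (d : ℝ) ∧ (d : ℝ) ≤ y),
            ArithmeticFunction.vonMangoldt d * (X / δ) := by
            refine Finset.sum_le_sum fun d hd => ?_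
            have hd' := Finset.mem_Icc.1 (Finset.mem_filter.1 hd).1
            have hdpos : (1 : ℝ) ≤ d := by exact_mod_cast hd'.1
            refine mul_le_mul_of_nonneg_left ?_ ArithmeticFunction.vonMangoldt_nonneg
            apply div_le_div_of_nonneg_left hX0.le hδ
            nlinarith
        _ = (X / δ) *
            ∑ d ∈ (Bl X).filter (fun d : ℕ => y / (1 + δ) < (d : ℝ) ∧ (d : ℝ) ≤ y),
            ArithmeticFunction.vonMangoldt d := by
            rw [← Finset.sum_mul, mul_comm]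
        _ ≤ (X / δ) * Chebyshev.psi M₀ := by
            gcongr
            unfold Chebyshev.psi
            apply Finset.sum_le_sum_of_subset_of_nonneg
            · intro d hd
              have hd2 := (Finset.mem_filter.1 hd).2
              have hd' := Finset.mem_Icc.1 (Finset.mem_filter.1 hd).1
              refine Finset.mem_Ioc.2 ⟨hd'.1, (Nat.le_floor_iff (by linarith)).2 (by linarith)⟩
            · intro d _ _
              exact ArithmeticFunction.vonMangoldt_nonneg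
    have hu1 : 1 / u ≤ M₀ / X := by
      rw [div_le_div_iff₀ hu hX0]
      have : X / u < M₀ := hcase
      rw [div_lt_iff₀ hu] at this
      linarith
    have hpsi := Chebyshev.psi_nonneg M₀
    have h2 : nat_W δ X u * (nat_A f u / u ^ 2) ≤ (X / δ * Chebyshev.psi M₀) * (M₀ / X) := by
      apply mul_le_mul hW2 (hg1.trans hu1) hg0 (by positivity)
    have h3 : (X / δ * Chebyshev.psi M₀) * (M₀ / X) = Chebyshev.psi M₀ / δ * M₀ := by
      field_simp
    have h4 : 0 ≤ 2 * X * (nat_A f u / u ^ 2) := by positivity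
    linarith


private theorem nat_swap {δ : ℝ} (hδ : 0 < δ) (hδ1 : δ ≤ 1) {f : ℕ → ℂ} (hf : CM f) {X : ℝ}
    (hX : 1 ≤ X) :
    ∑ d ∈ Bl X, ArithmeticFunction.vonMangoldt d * (X / (δ * d)) *
      (∫ u in Set.Ioc (X / ((1 + δ) * d)) (X / d), nat_A f u / u ^ 2) =
    ∫ u in Set.Ioc (1 / 2 : ℝ) X, nat_W δ X u * (nat_A f u / u ^ 2) := by
  have hX0 : 0 < X := by linarith
  have hint := nat_integrable hf (b := X) (show (0 : ℝ) < 1 / 2 by norm_num)
  have h1 : ∀ u : ℝ, nat_W δ X u * (nat_A f u / u ^ 2) = ∑ d ∈ Bl X,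
      ArithmeticFunction.vonMangoldt d * (X / (δ * d)) *
        (Set.Ioc (X / ((1 + δ) * d)) (X / d)).indicator (fun u => nat_A f u / u ^ 2) u := by
    intro u
    unfold nat_W
    rw [Finset.sum_mul]
    refine Finset.sum_congr rfl fun d _ => ?_
    by_cases h : u ∈ Set.Ioc (X / ((1 + δ) * d)) (X / d)
    · rw [Set.indicator_of_mem h, Set.indicator_of_mem h, mul_one]
    · rw [Set.indicator_of_notMem h, Set.indicator_of_notMem h, mul_zero, zero_mul]
  simp only [h1]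
  rw [integral_finsetSum]
  · refine Finset.sum_congr rfl fun d hd => ?_
    have hd' := Finset.mem_Icc.1 hd
    have hdpos : (1 : ℝ) ≤ d := by exact_mod_cast hd'.1
    have hdX : (d : ℝ) ≤ X := (Nat.le_floor_iff hX0.le).1 hd'.2
    rw [integral_const_mul, setIntegral_indicator measurableSet_Ioc]
    congr 3
    symm
    apply Set.inter_eq_right.2
    apply Set.Ioc_subset_Ioc
    · rw [div_le_div_iff₀ (by norm_num) (by positivity)]
      nlinarith
    · exact div_le_self hX0.le hdpos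
  · intro d _
    apply Integrable.const_mul
    exact hint.indicator measurableSet_Ioc

private theorem nat_W_meas (δ X : ℝ) : Measurable (nat_W δ X) := by
  unfold nat_W
  refine Finset.measurable_fun_sum _ fun d _ => ?_
  exact (measurable_const.indicator measurableSet_Ioc).const_mul _

private theorem nat_W_int {δ : ℝ} (hδ : 0 < δ) {f : ℕ → ℂ} (hf : CM f) {X : ℝ}
    (hX : 1 ≤ X) :
    IntegrableOn (fun u => nat_W δ X u * (nat_A f u / u ^ 2)) (Set.Ioc (1 / 2 : ℝ) X) := by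
  have hX0 : 0 < X := by linarith
  have hint := nat_integrable hf (b := X) (show (0 : ℝ) < 1 / 2 by norm_num)
  refine Integrable.bdd_mul (c := ∑ d ∈ Bl X, ArithmeticFunction.vonMangoldt d * (X / (δ * d)))
    hint (nat_W_meas δ X).aestronglyMeasurable (Filter.Eventually.of_forall fun u => ?_)
  have h0 : ∀ d ∈ Bl X, 0 ≤ ArithmeticFunction.vonMangoldt d * (X / (δ * d)) := fun d _ =>
    mul_nonneg ArithmeticFunction.vonMangoldt_nonneg (by positivity)
  unfold nat_W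
  rw [Real.norm_of_nonneg (Finset.sum_nonneg fun d hd => mul_nonneg (h0 d hd)
    (Set.indicator_nonneg (fun _ _ => zero_le_one) _))]
  refine Finset.sum_le_sum fun d hd => ?_
  refine mul_le_of_le_one_right (h0 d hd) ?_
  exact Set.indicator_apply_le' (fun _ => le_rfl) (fun _ => zero_le_one)

private theorem nat_main {δ M₀ : ℝ} (hδ : 0 < δ) (hδ1 : δ ≤ 1) (hM : 1 ≤ M₀)
    (hM0 : ∀ y : ℝ, M₀ ≤ y → Chebyshev.psi y - Chebyshev.psi (y / (1 + δ)) ≤ 2 * y * δ / (1 + δ))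
    {f : ℕ → ℂ} (hf : CM f) {X : ℝ} (hX : 1 ≤ X) :
    nat_A f X * Real.log X ≤ 2 * X * (∫ u in Set.Ioc (1 : ℝ) X, nat_A f u / u ^ 2) +
      (3 + Chebyshev.psi M₀ / δ * M₀ + (Real.log 4 + 4)) * X + 2 * δ * X * Real.log X := by
  have hX0 : 0 < X := by linarith
  have hlog : 0 ≤ Real.log X := Real.log_nonneg hX
  -- first part
  have h1 : nat_A f X * Real.log X ≤ ‖∑ n ∈ Bl X, (Real.log n : ℂ) * f n‖ +
      ∑ n ∈ Bl X, (Real.log X - Real.log n) := by
    have e : ((Real.log X : ℝ) : ℂ) * ∑ n ∈ Bl X, f n = ∑ n ∈ Bl X, (Real.log n : ℂ) * f n +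
        ∑ n ∈ Bl X, ((Real.log X - Real.log n : ℝ) : ℂ) * f n := by
      rw [Finset.mul_sum, ← Finset.sum_add_distrib]
      refine Finset.sum_congr rfl fun n _ => ?_
      push_cast
      ring
    have e2 : nat_A f X * Real.log X = ‖((Real.log X : ℝ) : ℂ) * ∑ n ∈ Bl X, f n‖ := by
      rw [norm_mul, Complex.norm_real, Real.norm_of_nonneg hlog, mul_comm]
      rfl
    rw [e2, e]
    refine (norm_add_le _ _).trans ?_
    gcongr
    refine norm_sum_le_of_le _ fun n hn => ?_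
    have hn' := Finset.mem_Icc.1 hn
    have hnpos : (0 : ℝ) < n := by exact_mod_cast hn'.1
    have hnX : (n : ℝ) ≤ X := (Nat.le_floor_iff hX0.le).1 hn'.2
    have hl : Real.log n ≤ Real.log X := Real.log_le_log hnpos hnX
    rw [norm_mul, Complex.norm_real, Real.norm_of_nonneg (by linarith)]
    exact mul_le_of_le_one_right (by linarith) (hf.bd n)
  have h2 := nat_log_sum hX
  -- second part
  have h3 : ‖∑ n ∈ Bl X, (Real.log n : ℂ) * f n‖ ≤
      ∑ d ∈ Bl X, ArithmeticFunction.vonMangoldt d * nat_A f (X / d) := by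
    rw [nat_conv hf.mul X]
    refine norm_sum_le_of_le _ fun d _ => ?_
    rw [norm_mul, norm_mul, Complex.norm_real,
      Real.norm_of_nonneg ArithmeticFunction.vonMangoldt_nonneg]
    show _ * ‖f d‖ * nat_A f (X / d) ≤ _
    refine mul_le_mul_of_nonneg_right ?_ (nat_A_nonneg _ _)
    exact mul_le_of_le_one_right ArithmeticFunction.vonMangoldt_nonneg (hf.bd d)
  have h4 : ∑ d ∈ Bl X, ArithmeticFunction.vonMangoldt d * nat_A f (X / d) ≤
      (∫ u in Set.Ioc (1 / 2 : ℝ) X, nat_W δ X u * (nat_A f u / u ^ 2)) +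
        δ * X * (∑ d ∈ Bl X, ArithmeticFunction.vonMangoldt d / d) +
        ∑ d ∈ Bl X, ArithmeticFunction.vonMangoldt d := by
    rw [← nat_swap hδ hδ1 hf hX, Finset.mul_sum, ← Finset.sum_add_distrib,
      ← Finset.sum_add_distrib]
    refine Finset.sum_le_sum fun d hd => ?_
    have hd' := Finset.mem_Icc.1 hd
    have hdpos : (0 : ℝ) < d := by exact_mod_cast hd'.1
    have h := nat_avg hf hδ hX0 hdpos
    have h' := mul_le_mul_of_nonneg_left h
      (ArithmeticFunction.vonMangoldt_nonneg (n := d))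
    refine h'.trans (le_of_eq ?_)
    field_simp
  have h5 := nat_mertens hX
  have h6 : ∑ d ∈ Bl X, ArithmeticFunction.vonMangoldt d ≤ (Real.log 4 + 4) * X := by
    have e : ∑ d ∈ Bl X, ArithmeticFunction.vonMangoldt d = Chebyshev.psi X := by
      unfold Bl
      rw [Chebyshev.psi]
      congr 1
    rw [e]
    exact Chebyshev.psi_le_const_mul_self hX0.le
  have hint := nat_integrable hf (b := X) (show (0 : ℝ) < 1 / 2 by norm_num)
  have h7 : ∫ u in Set.Ioc (1 / 2 : ℝ) X, nat_W δ X u * (nat_A f u / u ^ 2) ≤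
      2 * X * (∫ u in Set.Ioc (1 / 2 : ℝ) X, nat_A f u / u ^ 2) +
        Chebyshev.psi M₀ / δ * M₀ * X := by
    have hconst : IntegrableOn (fun _ : ℝ => Chebyshev.psi M₀ / δ * M₀) (Set.Ioc (1 / 2 : ℝ) X) :=
      integrableOn_const (by simp)
    have a1 : ∫ u in Set.Ioc (1 / 2 : ℝ) X, nat_W δ X u * (nat_A f u / u ^ 2) ≤
        ∫ u in Set.Ioc (1 / 2 : ℝ) X, (2 * X * (nat_A f u / u ^ 2) + Chebyshev.psi M₀ / δ * M₀) := by
      apply setIntegral_mono_on (nat_W_int hδ hf hX) ((hint.const_mul _).add hconst)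
        measurableSet_Ioc
      intro u hu
      exact nat_W_bound hδ hM hM0 hf hX (by linarith [hu.1])
    rw [integral_add (hint.const_mul _) hconst, integral_const_mul, setIntegral_const] at a1
    have hp : 0 ≤ Chebyshev.psi M₀ / δ * M₀ := by
      have := Chebyshev.psi_nonneg M₀
      positivity
    have a2 : (volume.real (Set.Ioc (1 / 2 : ℝ) X)) • (Chebyshev.psi M₀ / δ * M₀) ≤
        Chebyshev.psi M₀ / δ * M₀ * X := by
      rw [Real.volume_real_Ioc_of_le (by linarith), smul_eq_mul]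
      nlinarith
    linarith
  have h8 : ∫ u in Set.Ioc (1 / 2 : ℝ) X, nat_A f u / u ^ 2 ≤
      (∫ u in Set.Ioc (1 : ℝ) X, nat_A f u / u ^ 2) + 1 := by
    have e : Set.Ioc (1 / 2 : ℝ) X = Set.Ioc (1 / 2 : ℝ) 1 ∪ Set.Ioc 1 X :=
      (Set.Ioc_union_Ioc_eq_Ioc (by norm_num) hX).symm
    have i1 := nat_integrable hf (b := 1) (show (0 : ℝ) < 1 / 2 by norm_num)
    have i2 := nat_integrable hf (b := X) (show (0 : ℝ) < 1 by norm_num)
    rw [e, setIntegral_union (Set.Ioc_disjoint_Ioc_of_le le_rfl) measurableSet_Ioc i1 i2]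
    have a1 : ∫ u in Set.Ioc (1 / 2 : ℝ) 1, nat_A f u / u ^ 2 ≤ 1 := by
      have a2 : ∫ u in Set.Ioc (1 / 2 : ℝ) 1, nat_A f u / u ^ 2 ≤
          ∫ u in Set.Ioc (1 / 2 : ℝ) 1, (2 : ℝ) := by
        apply setIntegral_mono_on i1 (integrableOn_const (by simp)) measurableSet_Ioc
        intro u hu
        have hu0 : 0 < u := by linarith [hu.1]
        rw [div_le_iff₀ (by positivity)]
        have := nat_A_le hf hu0.le
        nlinarith [hu.1]
      rw [setIntegral_const, Real.volume_real_Ioc_of_le (by norm_num), smul_eq_mul] at a2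
      linarith
    linarith
  have h9 : 2 * X * (∫ u in Set.Ioc (1 / 2 : ℝ) X, nat_A f u / u ^ 2) ≤
      2 * X * ((∫ u in Set.Ioc (1 : ℝ) X, nat_A f u / u ^ 2) + 1) := by gcongr
  have h10 : δ * X * (∑ d ∈ Bl X, ArithmeticFunction.vonMangoldt d / d) ≤
      δ * X * (2 * Real.log X) := by gcongr
  linarith

/-- NAT: from the logarithmic to the natural scale -/
theorem nat_scale (η : ℝ) (hη : 0 < η) : ∃ X₀ : ℝ, ∀ f : ℕ → ℂ, CM f → ∀ X : ℝ, X₀ ≤ X →
    ‖∑ n ∈ Bl X, f n‖ * Real.log X ≤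
      4 * X * (∫ u in Set.Ioc (1 : ℝ) X, ‖∑ n ∈ Bl u, f n‖ / u ^ 2) + η * X * Real.log X := by
  set δ := min 1 (η / 4) with hδdef
  have hδ : 0 < δ := lt_min one_pos (by positivity)
  have hδ1 : δ ≤ 1 := min_le_left _ _
  have hδη : δ ≤ η / 4 := min_le_right _ _
  obtain ⟨M₀, hM, hM0⟩ := nat_short hδ hδ1
  set K := 3 + Chebyshev.psi M₀ / δ * M₀ + (Real.log 4 + 4) with hK
  refine ⟨max 1 (Real.exp (2 * K / η)), fun f hf X hX => ?_⟩
  have hX1 : 1 ≤ X := (le_max_left _ _).trans hX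
  have hX2 : Real.exp (2 * K / η) ≤ X := (le_max_right _ _).trans hX
  have hX0 : 0 < X := by linarith
  have hlog : 2 * K / η ≤ Real.log X := by
    rw [Real.le_log_iff_exp_le hX0]
    exact hX2
  have hlog0 : 0 ≤ Real.log X := Real.log_nonneg hX1
  have h := nat_main hδ hδ1 hM hM0 hf hX1
  rw [← hK] at h
  have hK2 : K ≤ η / 2 * Real.log X := by
    rw [div_le_iff₀ hη] at hlog
    linarith
  have h1 : K * X ≤ η / 2 * Real.log X * X := by gcongr
  have h2 : 2 * δ * X * Real.log X ≤ 2 * (η / 4) * X * Real.log X := by gcongr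
  have hI : 0 ≤ ∫ u in Set.Ioc (1 : ℝ) X, nat_A f u / u ^ 2 :=
    setIntegral_nonneg measurableSet_Ioc fun u _ => div_nonneg (nat_A_nonneg f u) (by positivity)
  have h3 : 2 * X * (∫ u in Set.Ioc (1 : ℝ) X, nat_A f u / u ^ 2) ≤
      4 * X * (∫ u in Set.Ioc (1 : ℝ) X, nat_A f u / u ^ 2) := by
    have := mul_nonneg hX0.le hI
    linarith
  show nat_A f X * Real.log X ≤ 4 * X * (∫ u in Set.Ioc (1 : ℝ) X, nat_A f u / u ^ 2) +
    η * X * Real.log X
  linarith

end Pool.Agent.PS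

/-! ### Block PNT2 -/

/-! PS, block PNT2: the pointwise bound at the natural scale -/

namespace Pool.Agent.PS

open Filter Topology MeasureTheory

theorem pnt2_int {f : ℕ → ℂ} (hb : ∀ n, ‖f n‖ ≤ 1) {X : ℝ} (hX : 1 ≤ X) :
    IntegrableOn (fun u : ℝ => ‖lms_S f u‖ ^ 2 / u ^ 3) (Set.Ioc 1 X) ∧
      IntegrableOn (fun u : ℝ => u⁻¹) (Set.Ioc 1 X) ∧ ∫ u in Set.Ioc 1 X, u⁻¹ = Real.log X := by
  have h1 : IntervalIntegrable (fun u : ℝ => u⁻¹) volume 1 X := by
    apply intervalIntegral.intervalIntegrable_inv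
    · intro x hx
      rw [Set.uIcc_of_le hX, Set.mem_Icc] at hx
      linarith [hx.1]
    · exact continuousOn_id
  have hi := (intervalIntegrable_iff_integrableOn_Ioc_of_le hX).1 h1
  refine ⟨?_, hi, ?_⟩
  · have hmeas : Measurable (fun u : ℝ => ‖lms_S f u‖ ^ 2 / u ^ 3) := by
      have h1 : (fun u : ℝ => lms_S f u) = (fun n : ℕ => ∑ k ∈ Finset.Icc 1 n, f k) ∘
          (fun u : ℝ => ⌊u⌋₊) := by
        funext u
        simp only [Function.comp, lms_S, Bl]
      have h2 : Measurable (fun u : ℝ => lms_S f u) := by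
        rw [h1]
        exact (measurable_from_top).comp Nat.measurable_floor
      exact (h2.norm.pow_const 2).div (by fun_prop)
    refine Integrable.mono' hi hmeas.aestronglyMeasurable ?_
    rw [ae_restrict_iff' measurableSet_Ioc]
    refine Eventually.of_forall (fun u hu => ?_)
    have hu0 : (0 : ℝ) < u := lt_trans one_pos hu.1
    rw [Real.norm_of_nonneg (by positivity), div_le_iff₀ (by positivity)]
    have h3 := lms_S_le hb hu0.le
    calc ‖lms_S f u‖ ^ 2 ≤ u ^ 2 := by gcongr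
      _ = u⁻¹ * u ^ 3 := by field_simp
  · rw [← intervalIntegral.integral_of_le hX, integral_inv_of_pos one_pos (by linarith), div_one]

theorem point_pr {m : ℕ} [NeZero m] (χ : DirichletCharacter ℂ m) (ε : ℝ) (hε : 0 < ε) :
    ∃ X₀ : ℝ, ∀ X : ℝ, X₀ ≤ X → ∀ τ : ℝ, |τ| ≤ X ^ 2 → ‖Sf χ τ X‖ ≤ ε * X := by
  set c : ℝ := ε / 8 with hc
  have hc0 : 0 < c := by positivity
  obtain ⟨X₁, h1⟩ := nat_scale (ε / 2) (by positivity)
  obtain ⟨X₂, h2⟩ := log_ms χ (c ^ 2) (by positivity)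
  refine ⟨max 3 (max X₁ X₂), fun X hX τ hτ => ?_⟩
  have hX3 : 3 ≤ X := le_trans (le_max_left _ _) hX
  have hX1 : X₁ ≤ X := le_trans (le_trans (le_max_left _ _) (le_max_right _ _)) hX
  have hX2 : X₂ ≤ X := le_trans (le_trans (le_max_right _ _) (le_max_right _ _)) hX
  have hX0 : 0 < X := by linarith
  have hL0 : 0 < Real.log X := Real.log_pos (by linarith)
  set L := Real.log X with hL
  set f : ℕ → ℂ := fun n => (lam n : ℂ) * (χ n * tw τ n) with hf
  have hCM : CM f := lxt_cm χ τ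
  have h3 := h1 f hCM X hX1
  have h4 := h2 X hX2 τ hτ
  have heq : ∀ u : ℝ, Sf χ τ u = lms_S f u := fun u => rfl
  simp only [heq] at h4 ⊢
  obtain ⟨hi1, hi2, hi3⟩ := pnt2_int hCM.bd (X := X) (by linarith)
  have h5 : ∫ u in Set.Ioc (1 : ℝ) X, ‖∑ n ∈ Bl u, f n‖ / u ^ 2 ≤ c * L := by
    have h6 : ∫ u in Set.Ioc (1 : ℝ) X, ‖∑ n ∈ Bl u, f n‖ / u ^ 2 ≤
        ∫ u in Set.Ioc (1 : ℝ) X, (1 / (2 * c) * (‖lms_S f u‖ ^ 2 / u ^ 3) + c / 2 * u⁻¹) := by
      apply integral_mono_of_nonneg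
      · rw [EventuallyLE, ae_restrict_iff' measurableSet_Ioc]
        refine Eventually.of_forall (fun u hu => ?_)
        have hu0 : (0 : ℝ) < u := lt_trans one_pos hu.1
        simp only [Pi.zero_apply]
        positivity
      · exact (hi1.const_mul _).add (hi2.const_mul _)
      · rw [EventuallyLE, ae_restrict_iff' measurableSet_Ioc]
        refine Eventually.of_forall (fun u hu => ?_)
        have hu0 : (0 : ℝ) < u := lt_trans one_pos hu.1
        have e1 : ∑ n ∈ Bl u, f n = lms_S f u := rfl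
        rw [e1]
        set y := ‖lms_S f u‖ with hy
        have hy0 : 0 ≤ y := norm_nonneg _
        have e2 : 1 / (2 * c) * (y ^ 2 / u ^ 3) + c / 2 * u⁻¹ - y / u ^ 2 =
            (y - c * u) ^ 2 / (2 * c * u ^ 3) := by
          field_simp
          ring
        have e3 : 0 ≤ (y - c * u) ^ 2 / (2 * c * u ^ 3) := by positivity
        linarith
    refine h6.trans ?_
    have hi1' : IntegrableOn (fun u => 1 / (2 * c) * (‖lms_S f u‖ ^ 2 / u ^ 3)) (Set.Ioc 1 X) :=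
      hi1.const_mul _
    have hi2' : IntegrableOn (fun u : ℝ => c / 2 * u⁻¹) (Set.Ioc 1 X) := hi2.const_mul _
    rw [integral_add hi1' hi2', integral_const_mul, integral_const_mul, hi3]
    have e4 : 1 / (2 * c) * ∫ u in Set.Ioc 1 X, ‖lms_S f u‖ ^ 2 / u ^ 3 ≤
        1 / (2 * c) * (c ^ 2 * L) := mul_le_mul_of_nonneg_left h4 (by positivity)
    have e5 : 1 / (2 * c) * (c ^ 2 * L) = c / 2 * L := by field_simp
    rw [e5] at e4
    linarith
  have h7 : ‖lms_S f X‖ * L ≤ (ε * X) * L := by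
    have e1 : ∑ n ∈ Bl X, f n = lms_S f X := rfl
    rw [e1] at h3
    have e2 : 4 * X * (∫ u in Set.Ioc (1 : ℝ) X, ‖∑ n ∈ Bl u, f n‖ / u ^ 2) ≤ 4 * X * (c * L) :=
      mul_le_mul_of_nonneg_left h5 (by positivity)
    have e3 : 4 * X * (c * L) = ε / 2 * X * L := by rw [hc]; ring
    rw [e3] at e2
    linarith
  exact le_of_mul_le_mul_right h7 hL0

end Pool.Agent.PS

/-! ### Results of the pointwise half -/

namespace Pool.Agent.PS

theorem point : type_of% @point_pr := @point_pr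

end Pool.Agent.PS
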