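import Pool.Agent.Lib_helper1.PS.Base
import Pool.Agent.Lib_helper10.T2F.SLW
import Pool.Agent.Lib_helper2.PSP.P2

/-! PolynomialShifts, pointwise half, part 3: the inequality of Halasz and Montgomery for primes -/

/-! ### Block MAS -/

/-! PolynomialShifts, block MAS (helper2): the mass for the Selberg weights of dimension one -/

namespace Pool.Agent.PS

theorem mas_geom {p : ℕ} (hp : 2 ≤ p) (N : ℕ) :
    ∑ k ∈ Finset.Icc 1 N, ((p : ℝ) ^ k)⁻¹ ≤ (1 / (p : ℝ)) / (1 - 1 / (p : ℝ)) := by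
  have hp2 : (2 : ℝ) ≤ p := by exact_mod_cast hp
  set r : ℝ := 1 / (p : ℝ) with hr
  have hr0 : 0 < r := by rw [hr]; positivity
  have hr1 : r ≤ 1 / 2 := by
    rw [hr]; exact one_div_le_one_div_of_le (by norm_num) hp2
  have h1 : ∑ k ∈ Finset.Icc 1 N, ((p : ℝ) ^ k)⁻¹ = r * ∑ k ∈ Finset.range N, r ^ k := by
    have e : Finset.Icc 1 N = Finset.Ico 1 (N + 1) := by
      ext k; simp only [Finset.mem_Icc, Finset.mem_Ico]; omega
    rw [Finset.mul_sum, e, Finset.sum_Ico_eq_sum_range, Nat.add_sub_cancel]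
    refine Finset.sum_congr rfl fun k _ => ?_
    rw [hr, one_div, inv_pow, add_comm 1 k, pow_succ, mul_inv, mul_comm]
  have h2 : (∑ k ∈ Finset.range N, r ^ k) * (1 - r) ≤ 1 := by
    have := geom_sum_mul_neg r N
    rw [this]
    have : 0 ≤ r ^ N := by positivity
    linarith
  rw [h1, le_div_iff₀ (by linarith), mul_assoc]
  nlinarith

open Classical in
theorem mas_fiber (P : Finset ℕ) (hP : ∀ p ∈ P, p.Prime) (N : ℕ) :
    ∑ n ∈ (Finset.Icc 1 N).filter (fun n => n.primeFactors = P), (1 / (n : ℝ)) ≤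
      ∏ p ∈ P, (1 / (p : ℝ)) / (1 - 1 / (p : ℝ)) := by
  set A := (Finset.Icc 1 N).filter (fun n => n.primeFactors = P) with hA
  set B := P.pi (fun _ => Finset.Icc 1 N) with hB
  set F : ℕ → (∀ p ∈ P, ℕ) := fun n p _ => n.factorization p with hF
  set w : (∀ p ∈ P, ℕ) → ℝ := fun e => ∏ x ∈ P.attach, ((x.1 : ℝ) ^ (e x.1 x.2))⁻¹ with hw
  have hfac : ∀ n ∈ A, (n : ℝ) = ∏ p ∈ P, (p : ℝ) ^ n.factorization p := by
    intro n hn
    rw [hA, Finset.mem_filter, Finset.mem_Icc] at hn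
    have h0 : n ≠ 0 := by omega
    have h1 := Nat.prod_factorization_pow_eq_self h0
    rw [Finsupp.prod, Nat.support_factorization, hn.2] at h1
    conv_lhs => rw [← h1]
    push_cast
    rfl
  have hwF : ∀ n ∈ A, w (F n) = 1 / (n : ℝ) := by
    intro n hn
    rw [hfac n hn, one_div, ← Finset.prod_inv_distrib]
    simp only [hw, hF]
    exact Finset.prod_attach P (fun p => ((p : ℝ) ^ n.factorization p)⁻¹)
  have hinj : Set.InjOn F A := by
    intro n hn m hm hnm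
    have h1 := hfac n hn
    have h2 := hfac m hm
    have h3 : (n : ℝ) = m := by
      rw [h1, h2]
      refine Finset.prod_congr rfl fun p hp => ?_
      have := congrFun (congrFun hnm p) hp
      simp only [hF] at this
      rw [this]
    exact_mod_cast h3
  have hsub : A.image F ⊆ B := by
    intro e he
    obtain ⟨n, hn, rfl⟩ := Finset.mem_image.1 he
    rw [hB, Finset.mem_pi]
    intro p hp
    have hn' := hn
    rw [hA, Finset.mem_filter, Finset.mem_Icc] at hn'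
    have h0 : n ≠ 0 := by omega
    rw [Finset.mem_Icc]
    refine ⟨?_, ?_⟩
    · have hpn : p ∈ n.primeFactors := by rw [hn'.2]; exact hp
      exact (hP p hp).factorization_pos_of_dvd h0 (Nat.dvd_of_mem_primeFactors hpn)
    · exact (Nat.factorization_lt p h0).le.trans hn'.1.2
  calc ∑ n ∈ A, (1 / (n : ℝ)) = ∑ n ∈ A, w (F n) :=
        Finset.sum_congr rfl fun n hn => (hwF n hn).symm
    _ = ∑ e ∈ A.image F, w e := (Finset.sum_image hinj).symm
    _ ≤ ∑ e ∈ B, w e := by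
        refine Finset.sum_le_sum_of_subset_of_nonneg hsub fun e _ _ => ?_
        exact Finset.prod_nonneg fun x _ => by positivity
    _ = ∏ p ∈ P, ∑ k ∈ Finset.Icc 1 N, ((p : ℝ) ^ k)⁻¹ := by
        rw [hB, hw]
        exact (Finset.prod_sum P (fun _ => Finset.Icc 1 N) (fun p k => ((p : ℝ) ^ k)⁻¹)).symm
    _ ≤ _ := Finset.prod_le_prod (fun p _ => Finset.sum_nonneg fun k _ => by positivity)
        fun p hp => mas_geom (hP p hp).two_le N

open Classical in
theorem mass (S : Finset ℕ) (R : ℝ) (hR : 1 ≤ R) (hS : ∀ p : ℕ, p.Prime → (p : ℝ) ≤ R → p ∈ S) :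
    Real.log R ≤ ∑ d ∈ (Finset.Icc 1 ⌊R⌋₊).filter (fun d : ℕ => Squarefree d ∧
        ∀ p : ℕ, p.Prime → p ∣ d → p ∈ S), ∏ p ∈ d.primeFactors, (1 / (p : ℝ)) / (1 - 1 / (p : ℝ)) := by
  set N := ⌊R⌋₊ with hN
  set D := (Finset.Icc 1 N).filter (fun d : ℕ => Squarefree d ∧ ∀ p : ℕ, p.Prime → p ∣ d → p ∈ S)
    with hD
  have hR0 : 0 < R := by linarith
  have h1 : Real.log R ≤ ∑ n ∈ Finset.Icc 1 N, (1 / (n : ℝ)) := by
    have e1 : Real.log R ≤ Real.log ((N + 1 : ℕ) : ℝ) := by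
      refine Real.log_le_log hR0 ?_
      push_cast
      exact (Nat.lt_floor_add_one R).le
    have e2 := log_add_one_le_harmonic N
    have e3 : ((harmonic N : ℚ) : ℝ) = ∑ n ∈ Finset.Icc 1 N, (1 / (n : ℝ)) := by
      rw [harmonic_eq_sum_Icc]
      push_cast
      refine Finset.sum_congr rfl fun n _ => by rw [one_div]
    rw [← e3]
    exact e1.trans e2
  refine h1.trans ?_
  have hmap : ∀ n ∈ Finset.Icc 1 N, (∏ p ∈ n.primeFactors, p) ∈ D := by
    intro n hn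
    rw [Finset.mem_Icc] at hn
    have h0 : n ≠ 0 := by omega
    have hdvd : (∏ p ∈ n.primeFactors, p) ∣ n := Nat.prod_primeFactors_dvd n
    have hle := Nat.le_of_dvd (by omega) hdvd
    rw [hD, Finset.mem_filter, Finset.mem_Icc]
    refine ⟨⟨?_, hle.trans hn.2⟩, ?_, ?_⟩
    · exact Finset.prod_pos fun p hp => (Nat.prime_of_mem_primeFactors hp).pos
    · refine Finset.squarefree_prod_of_pairwise_isCoprime (fun p hp q hq hpq ↦ ?_)
        (fun p hp => (Nat.prime_of_mem_primeFactors hp).prime.squarefree)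
      exact Nat.coprime_iff_isRelPrime.mp ((Nat.coprime_primes (Nat.prime_of_mem_primeFactors hp)
        (Nat.prime_of_mem_primeFactors hq)).mpr hpq)
    · intro p hp hpd
      refine hS p hp ?_
      have h2 : p ≤ n := Nat.le_of_dvd (by omega) (hpd.trans hdvd)
      calc (p : ℝ) ≤ n := by exact_mod_cast h2
        _ ≤ N := by exact_mod_cast hn.2
        _ ≤ R := Nat.floor_le hR0.le
  rw [← Finset.sum_fiberwise_of_maps_to hmap]
  refine Finset.sum_le_sum fun d hd => ?_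
  rw [hD, Finset.mem_filter, Finset.mem_Icc] at hd
  refine le_trans ?_ (mas_fiber d.primeFactors (fun p hp => Nat.prime_of_mem_primeFactors hp) N)
  refine Finset.sum_le_sum_of_subset_of_nonneg ?_ fun n _ _ => by positivity
  intro n hn
  rw [Finset.mem_filter] at hn ⊢
  refine ⟨hn.1, ?_⟩
  rw [← hn.2, Nat.primeFactors_prod]
  exact fun p hp => Nat.prime_of_mem_primeFactors hp

end Pool.Agent.PS

/-! ### Block PHM -/

/-! PolynomialShifts, block PHM (helper2): the inequality of Halasz and Montgomery for primes -/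

namespace Pool.Agent.PS

open Filter Topology MeasureTheory

/-- duality -/
theorem phm_dual {ι κ : Type*} (U : Finset ι) (S : Finset κ) (a : ι → κ → ℂ) (Δ : ℝ) (hΔ : 0 ≤ Δ)
    (h : ∀ b : ι → ℂ, ∑ z ∈ S, ‖∑ k ∈ U, b k * a k z‖ ^ 2 ≤ Δ * ∑ k ∈ U, ‖b k‖ ^ 2)
    (c : κ → ℂ) :
    ∑ k ∈ U, ‖∑ z ∈ S, c z * a k z‖ ^ 2 ≤ Δ * ∑ z ∈ S, ‖c z‖ ^ 2 := by
  classical
  set T : ι → ℂ := fun k => ∑ z ∈ S, c z * a k z with hT
  set A : ℝ := ∑ k ∈ U, ‖T k‖ ^ 2 with hA
  have hA0 : 0 ≤ A := Finset.sum_nonneg fun k _ => by positivity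
  set W : κ → ℂ := fun z => ∑ k ∈ U, (starRingEnd ℂ) (T k) * a k z with hW
  have h1 : (A : ℂ) = ∑ z ∈ S, c z * W z := by
    have e1 : (A : ℂ) = ∑ k ∈ U, (starRingEnd ℂ) (T k) * T k := by
      rw [hA, Complex.ofReal_sum]
      refine Finset.sum_congr rfl fun k _ => ?_
      rw [← Complex.normSq_eq_conj_mul_self, Complex.normSq_eq_norm_sq]
    rw [e1]
    simp only [hT, hW, Finset.mul_sum]
    rw [Finset.sum_comm]
    refine Finset.sum_congr rfl fun z _ => Finset.sum_congr rfl fun k _ => by ring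
  have h2 : A ≤ ∑ z ∈ S, ‖c z‖ * ‖W z‖ := by
    have e1 : A = ‖(A : ℂ)‖ := by rw [Complex.norm_real, Real.norm_of_nonneg hA0]
    rw [e1, h1]
    refine (norm_sum_le _ _).trans (Finset.sum_le_sum fun z _ => ?_)
    rw [norm_mul]
  have h3 : A ^ 2 ≤ (∑ z ∈ S, ‖c z‖ ^ 2) * ∑ z ∈ S, ‖W z‖ ^ 2 :=
    (pow_le_pow_left₀ hA0 h2 2).trans (Finset.sum_mul_sq_le_sq_mul_sq _ _ _)
  have h4 : ∑ z ∈ S, ‖W z‖ ^ 2 ≤ Δ * A := by
    refine (h fun k => (starRingEnd ℂ) (T k)).trans (le_of_eq ?_)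
    simp [hA]
  rcases hA0.eq_or_lt with h0 | h0
  · rw [← h0]
    exact mul_nonneg hΔ (Finset.sum_nonneg fun z _ => by positivity)
  · have h5 : A * A ≤ A * (Δ * ∑ z ∈ S, ‖c z‖ ^ 2) := by
      have hc0 : 0 ≤ ∑ z ∈ S, ‖c z‖ ^ 2 := Finset.sum_nonneg fun z _ => by positivity
      nlinarith [mul_le_mul_of_nonneg_left h4 hc0]
    exact le_of_mul_le_mul_left h5 h0

/-- the Gram matrix bound -/
theorem phm_gram {ι κ : Type*} [DecidableEq ι] (U : Finset ι) (S : Finset κ) (w : κ → ℝ)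
    (a : ι → κ → ℂ) (D E : ℝ)
    (hD : ∀ k ∈ U, ‖∑ z ∈ S, (w z : ℂ) * (a k z * (starRingEnd ℂ) (a k z))‖ ≤ D)
    (hE : ∀ k ∈ U, ∀ l ∈ U, k ≠ l →
      ‖∑ z ∈ S, (w z : ℂ) * (a k z * (starRingEnd ℂ) (a l z))‖ ≤ E) (hE0 : 0 ≤ E)
    (b : ι → ℂ) :
    ∑ z ∈ S, w z * ‖∑ k ∈ U, b k * a k z‖ ^ 2 ≤ (D + E * U.card) * ∑ k ∈ U, ‖b k‖ ^ 2 := by
  set G : ι → ι → ℂ := fun k l => ∑ z ∈ S, (w z : ℂ) * (a k z * (starRingEnd ℂ) (a l z)) with hG
  set L : ℝ := ∑ z ∈ S, w z * ‖∑ k ∈ U, b k * a k z‖ ^ 2 with hL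
  have h1 : (L : ℂ) = ∑ k ∈ U, ∑ l ∈ U, b k * (starRingEnd ℂ) (b l) * G k l := by
    have e1 : (L : ℂ) = ∑ z ∈ S, (w z : ℂ) *
        ((∑ k ∈ U, b k * a k z) * (starRingEnd ℂ) (∑ l ∈ U, b l * a l z)) := by
      rw [hL, Complex.ofReal_sum]
      refine Finset.sum_congr rfl fun z _ => ?_
      rw [Complex.mul_conj, Complex.normSq_eq_norm_sq]
      push_cast
      ring
    have e2 : ∀ z ∈ S, (w z : ℂ) *
        ((∑ k ∈ U, b k * a k z) * (starRingEnd ℂ) (∑ l ∈ U, b l * a l z)) =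
        ∑ k ∈ U, ∑ l ∈ U, b k * (starRingEnd ℂ) (b l) *
          ((w z : ℂ) * (a k z * (starRingEnd ℂ) (a l z))) := by
      intro z _
      rw [map_sum, Finset.sum_mul_sum, Finset.mul_sum]
      refine Finset.sum_congr rfl fun k _ => ?_
      rw [Finset.mul_sum]
      refine Finset.sum_congr rfl fun l _ => ?_
      rw [map_mul]
      ring
    rw [e1, Finset.sum_congr rfl e2, Finset.sum_comm]
    refine Finset.sum_congr rfl fun k _ => ?_
    rw [Finset.sum_comm]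
    refine Finset.sum_congr rfl fun l _ => ?_
    rw [hG, Finset.mul_sum]
  have h2 : L ≤ ∑ k ∈ U, ∑ l ∈ U, ‖b k‖ * ‖b l‖ * ‖G k l‖ := by
    refine (le_abs_self L).trans ?_
    rw [← Complex.norm_real L |>.trans (Real.norm_eq_abs L), h1]
    refine (norm_sum_le _ _).trans (Finset.sum_le_sum fun k _ => ?_)
    refine (norm_sum_le _ _).trans (Finset.sum_le_sum fun l _ => ?_)
    rw [norm_mul, norm_mul, RCLike.norm_conj]
  refine h2.trans ?_
  have h3 : ∀ k ∈ U, ∀ l ∈ U, ‖b k‖ * ‖b l‖ * ‖G k l‖ ≤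
      (if k = l then D * ‖b k‖ ^ 2 else 0) + E * ((‖b k‖ ^ 2 + ‖b l‖ ^ 2) / 2) := by
    intro k hk l hl
    have hbk := norm_nonneg (b k)
    have hbl := norm_nonneg (b l)
    by_cases hkl : k = l
    · subst hkl
      simp only [if_true]
      have := hD k hk
      have e : ‖b k‖ * ‖b k‖ * ‖G k k‖ ≤ D * ‖b k‖ ^ 2 := by
        calc ‖b k‖ * ‖b k‖ * ‖G k k‖ ≤ ‖b k‖ * ‖b k‖ * D :=
              mul_le_mul_of_nonneg_left this (by positivity)
          _ = D * ‖b k‖ ^ 2 := by ring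
      have e2 : 0 ≤ E * ((‖b k‖ ^ 2 + ‖b k‖ ^ 2) / 2) := by positivity
      linarith
    · simp only [if_neg hkl, zero_add]
      have e1 := hE k hk l hl hkl
      have e2 : ‖b k‖ * ‖b l‖ ≤ (‖b k‖ ^ 2 + ‖b l‖ ^ 2) / 2 := by nlinarith [sq_nonneg (‖b k‖ - ‖b l‖)]
      calc ‖b k‖ * ‖b l‖ * ‖G k l‖ ≤ (‖b k‖ ^ 2 + ‖b l‖ ^ 2) / 2 * E :=
            mul_le_mul e2 e1 (norm_nonneg _) (by positivity)
        _ = _ := by ring
  refine (Finset.sum_le_sum fun k hk => Finset.sum_le_sum fun l hl => h3 k hk l hl).trans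
    (le_of_eq ?_)
  have h4 : ∀ k ∈ U, ∑ l ∈ U, ((if k = l then D * ‖b k‖ ^ 2 else 0) +
      E * ((‖b k‖ ^ 2 + ‖b l‖ ^ 2) / 2)) =
      D * ‖b k‖ ^ 2 + E / 2 * (U.card * ‖b k‖ ^ 2 + ∑ l ∈ U, ‖b l‖ ^ 2) := by
    intro k hk
    rw [Finset.sum_add_distrib, Finset.sum_ite_eq, if_pos hk, ← Finset.mul_sum,
      ← Finset.sum_div, Finset.sum_add_distrib, Finset.sum_const, nsmul_eq_mul]
    ring
  rw [Finset.sum_congr rfl h4, Finset.sum_add_distrib, ← Finset.mul_sum, ← Finset.mul_sum,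
    Finset.sum_add_distrib, Finset.sum_const, nsmul_eq_mul, ← Finset.mul_sum]
  ring


theorem phm_w {θ : ℕ → ℝ} {R : ℝ}
    (hθ : ∀ d, θ d ≠ 0 → (d : ℝ) ≤ R ^ 2) {n : ℕ} (hn : 1 ≤ n) :
    ∑ d ∈ n.divisors, θ d =
      ∑ d ∈ Finset.Icc 1 ⌊R ^ 2⌋₊, θ d * (if d ∣ n then 1 else 0) := by
  classical
  have h1 : ∑ d ∈ n.divisors, θ d = ∑ d ∈ n.divisors ∩ Finset.Icc 1 ⌊R ^ 2⌋₊, θ d := by
    symm
    refine Finset.sum_subset Finset.inter_subset_left ?_
    intro d hd hd2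
    by_contra h0
    apply hd2
    rw [Finset.mem_inter]
    refine ⟨hd, ?_⟩
    rw [Finset.mem_Icc]
    refine ⟨Nat.pos_of_mem_divisors hd, ?_⟩
    exact Nat.le_floor (hθ d h0)
  have h2 : ∑ d ∈ Finset.Icc 1 ⌊R ^ 2⌋₊, θ d * (if d ∣ n then 1 else 0) =
      ∑ d ∈ (Finset.Icc 1 ⌊R ^ 2⌋₊).filter (fun d => d ∣ n), θ d := by
    rw [Finset.sum_filter]
    refine Finset.sum_congr rfl fun d _ => ?_
    split_ifs <;> simp
  rw [h1, h2]
  congr 1
  ext d
  simp only [Finset.mem_inter, Finset.mem_filter, Nat.mem_divisors]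
  constructor
  · rintro ⟨⟨h, _⟩, h'⟩; exact ⟨h', h⟩
  · rintro ⟨h', h⟩; exact ⟨⟨h, by omega⟩, h'⟩


theorem phm_three {d : ℕ} (hd : 1 ≤ d) : (3 : ℝ) ^ d.primeFactors.card ≤ (d : ℝ) ^ 2 := by
  have h1 : 2 ^ d.primeFactors.card ≤ d := by
    calc 2 ^ d.primeFactors.card = ∏ _p ∈ d.primeFactors, 2 := by
          rw [Finset.prod_const]
      _ ≤ ∏ p ∈ d.primeFactors, p :=
          Finset.prod_le_prod' fun p hp => (Nat.prime_of_mem_primeFactors hp).two_le
      _ ≤ d := Nat.le_of_dvd hd (Nat.prod_primeFactors_dvd d)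
  calc (3 : ℝ) ^ d.primeFactors.card ≤ ((2 : ℝ) ^ 2) ^ d.primeFactors.card :=
        pow_le_pow_left₀ (by norm_num) (by norm_num) _
    _ = ((2 : ℝ) ^ d.primeFactors.card) ^ 2 := by rw [← pow_mul, ← pow_mul, mul_comm]
    _ ≤ (d : ℝ) ^ 2 := by
        refine pow_le_pow_left₀ (by positivity) ?_ 2
        exact_mod_cast h1

theorem phm_sum_three {θ : ℕ → ℝ} (hθ : ∀ d, |θ d| ≤ 3 ^ d.primeFactors.card) (D : ℕ) :
    ∑ d ∈ Finset.Icc 1 D, |θ d| ≤ (D : ℝ) ^ 3 := by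
  calc ∑ d ∈ Finset.Icc 1 D, |θ d|
      ≤ ∑ d ∈ Finset.Icc 1 D, (D : ℝ) ^ 2 := by
        refine Finset.sum_le_sum fun d hd => ?_
        rw [Finset.mem_Icc] at hd
        refine (hθ d).trans ((phm_three hd.1).trans ?_)
        refine pow_le_pow_left₀ (by positivity) ?_ 2
        exact_mod_cast hd.2
    _ = (D : ℝ) ^ 3 := by
        rw [Finset.sum_const, Nat.card_Icc, nsmul_eq_mul]
        simp
        ring

open Classical in
theorem phm_mul {d : ℕ} (hd : 1 ≤ d) (F : ℕ → ℂ) (x : ℝ) :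
    ∑ n ∈ PB x, (if d ∣ n then 1 else 0) * F n = ∑ m ∈ PB (x / d), F (d * m) := by
  have hn : (0 : ℝ) < d := by exact_mod_cast hd
  have h1 : ∑ n ∈ PB x, (if d ∣ n then 1 else 0) * F n =
      ∑ n ∈ (PB x).filter (fun n => d ∣ n), F n := by
    rw [Finset.sum_filter]
    refine Finset.sum_congr rfl fun z _ => ?_
    split_ifs <;> simp
  have h2 : (PB x).filter (fun n => d ∣ n) = (PB (x / d)).image (fun m => d * m) := by
    ext n
    simp only [Finset.mem_filter, Finset.mem_image, mem_PB]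
    constructor
    · rintro ⟨⟨hz, hzx, hzy⟩, ⟨m, rfl⟩⟩
      refine ⟨m, ⟨?_, ?_, ?_⟩, rfl⟩
      · rcases Nat.eq_zero_or_pos m with h | h
        · subst h; simp at hz
        · exact h
      · push_cast at hzx
        rw [le_div_iff₀ hn]; linarith
      · push_cast at hzy
        rw [div_right_comm, div_lt_iff₀ hn]; linarith
    · rintro ⟨m, ⟨hm, hmx, hmy⟩, rfl⟩
      refine ⟨⟨Nat.mul_pos hd hm, ?_, ?_⟩, dvd_mul_right _ _⟩
      · push_cast
        rw [le_div_iff₀ hn] at hmx; linarith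
      · push_cast
        rw [div_right_comm, div_lt_iff₀ hn] at hmy; linarith
  rw [h1, h2, Finset.sum_image]
  intro a _ b _ hab
  exact Nat.eq_of_mul_eq_mul_left hd hab

theorem phm_harm {x : ℝ} (hx : 3 ≤ x) : |∑ n ∈ PB x, (1 / (n : ℝ)) - 1| ≤ 8 / x := by
  have hx0 : 0 < x := by linarith
  have he0 := Real.exp_pos 1
  have he1 := Real.exp_one_lt_d9
  set y : ℝ := x / Real.exp 1 with hy
  have hy0 : 0 < y := by positivity
  have hy1 : 1 ≤ y := by rw [hy, le_div_iff₀ he0]; linarith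
  have hyx : y ≤ x := by
    rw [hy]
    refine div_le_self hx0.le ?_
    have := Real.add_one_le_exp 1
    linarith
  have hPB : PB x = Finset.Icc 1 ⌊x⌋₊ \ Finset.Icc 1 ⌊y⌋₊ := by
    ext n
    rw [mem_PB, Finset.mem_sdiff, Finset.mem_Icc, Finset.mem_Icc, Nat.le_floor_iff hx0.le,
      Nat.le_floor_iff hy0.le]
    constructor
    · rintro ⟨h1, h2, h3⟩
      exact ⟨⟨h1, h2⟩, fun h => absurd h.2 (not_le.2 h3)⟩
    · rintro ⟨⟨h1, h2⟩, h3⟩
      refine ⟨h1, h2, ?_⟩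
      by_contra h
      exact h3 ⟨h1, not_lt.1 h⟩
  have hsub : Finset.Icc 1 ⌊y⌋₊ ⊆ Finset.Icc 1 ⌊x⌋₊ :=
    Finset.Icc_subset_Icc le_rfl (Nat.floor_le_floor hyx)
  have hH : ∀ N : ℕ, ((harmonic N : ℚ) : ℝ) = ∑ n ∈ Finset.Icc 1 N, (1 / (n : ℝ)) := by
    intro N
    rw [harmonic_eq_sum_Icc]
    push_cast
    refine Finset.sum_congr rfl fun n _ => by rw [one_div]
  have hfl : ∀ u : ℝ, 1 ≤ u → |((harmonic ⌊u⌋₊ : ℚ) : ℝ) - Real.eulerMascheroniConstant -
      Real.log u| ≤ 2 / u := by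
    intro u hu
    set N := ⌊u⌋₊ with hN
    have hN1 : 1 ≤ N := Nat.le_floor (by simpa using hu)
    have hNu : (N : ℝ) ≤ u := Nat.floor_le (by linarith)
    have huN : u < N + 1 := Nat.lt_floor_add_one u
    have hN0 : (1 : ℝ) ≤ N := by exact_mod_cast hN1
    have h1 := Real.eulerMascheroniSeq_lt_eulerMascheroniConstant N
    have h2 := Real.eulerMascheroniConstant_lt_eulerMascheroniSeq' N
    rw [Real.eulerMascheroniSeq] at h1
    rw [Real.eulerMascheroniSeq', if_neg (by omega)] at h2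
    have h3 : Real.log (N + 1) ≤ Real.log N + 1 / N := by
      have e : Real.log (N + 1) - Real.log N = Real.log (1 + 1 / N) := by
        rw [← Real.log_div (by positivity) (by positivity)]
        congr 1
        field_simp
      have e2 : Real.log (1 + 1 / N) ≤ (1 + 1 / (N : ℝ)) - 1 :=
        Real.log_le_sub_one_of_pos (by positivity)
      linarith
    have h4 : Real.log N ≤ Real.log u := Real.log_le_log (by positivity) hNu
    have h5 : Real.log u ≤ Real.log (N + 1) := Real.log_le_log (by linarith) huN.le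
    have h6 : 1 / (N : ℝ) ≤ 2 / u := by
      rw [div_le_div_iff₀ (by positivity) (by linarith)]
      linarith
    rw [abs_le]
    constructor <;> linarith
  have h1 := hfl x (by linarith)
  have h2 := hfl y hy1
  have h3 : Real.log y = Real.log x - 1 := by
    rw [hy, Real.log_div hx0.ne' he0.ne', Real.log_exp]
  have h4 : ∑ n ∈ PB x, (1 / (n : ℝ)) = ((harmonic ⌊x⌋₊ : ℚ) : ℝ) - ((harmonic ⌊y⌋₊ : ℚ) : ℝ) := by
    rw [hPB, hH, hH, ← Finset.sum_sdiff hsub]
    ring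
  have h5 : 2 / y ≤ 6 / x := by
    rw [hy, div_div_eq_mul_div]
    refine div_le_div_of_nonneg_right ?_ hx0.le
    linarith
  rw [h3] at h2
  rw [h4]
  rw [abs_le] at h1 h2 ⊢
  have h6 : 8 / x = 2 / x + 6 / x := by ring
  rw [h6]
  constructor <;> linarith [h1.1, h1.2, h2.1, h2.2]

open Classical in
theorem phm_expand {θ : ℕ → ℝ} (D : ℕ) (F : ℕ → ℂ) (x : ℝ) :
    ∑ n ∈ PB x, ((∑ d ∈ Finset.Icc 1 D, θ d * (if d ∣ n then 1 else 0) : ℝ) : ℂ) * F n =
      ∑ d ∈ Finset.Icc 1 D, (θ d : ℂ) * ∑ m ∈ PB (x / d), F (d * m) := by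
  have h1 : ∀ n ∈ PB x, ((∑ d ∈ Finset.Icc 1 D, θ d * (if d ∣ n then 1 else 0) : ℝ) : ℂ) * F n =
      ∑ d ∈ Finset.Icc 1 D, (θ d : ℂ) * ((if d ∣ n then 1 else 0) * F n) := by
    intro n _
    push_cast
    rw [Finset.sum_mul]
    refine Finset.sum_congr rfl fun d _ => ?_
    split_ifs <;> simp
  rw [Finset.sum_congr rfl h1, Finset.sum_comm]
  refine Finset.sum_congr rfl fun d hd => ?_
  rw [← Finset.mul_sum, phm_mul (Finset.mem_Icc.1 hd).1]

open Classical in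
/-- the majorant of the primes -/
theorem phm_majorant (δ : ℝ) (hδ : 0 < δ) : ∃ κ C X₀ : ℝ, 0 < κ ∧ κ ≤ 1 / 4 ∧ 1 ≤ C ∧ 1 ≤ X₀ ∧
    ∀ X : ℝ, X₀ ≤ X → ∀ M : ℝ, X ^ δ ≤ M → ∃ w : ℕ → ℝ,
      (∀ n ∈ PB (Real.exp 1 * M), 0 ≤ w n) ∧
      (∀ p : ℕ, p.Prime → M < (p : ℝ) → (p : ℝ) ≤ 2 * M → 1 ≤ w p) ∧
      ∑ n ∈ PB (Real.exp 1 * M), w n ≤ C * (M / Real.log M) ∧
      ∀ j : ℤ, j ≠ 0 → |(j : ℝ)| ≤ 2 * X →
        ‖∑ n ∈ PB (Real.exp 1 * M), (w n : ℂ) * ang j n‖ ≤ C * M ^ (1 - 3 * κ / 4) := by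
  have hA : 1 ≤ 2 / δ + 1 := by
    have : 0 < 2 / δ := by positivity
    linarith
  obtain ⟨κ, C₁, hκ, hκ1, hC₁, hexp⟩ := exp_win_pr (2 / δ + 1) hA
  have he0 := Real.exp_pos 1
  have he1 := Real.exp_one_lt_d9
  have he2 : 2 ≤ Real.exp 1 := by
    have := Real.add_one_le_exp 1
    linarith
  refine ⟨κ, 3 * C₁ + (120 / κ + 16), (2 : ℝ) ^ (40 / (κ * δ)), hκ, hκ1, ?_, ?_, ?_⟩
  · have h1 : 0 ≤ 120 / κ := by positivity
    linarith
  · exact Real.one_le_rpow (by norm_num) (by positivity)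
  intro X hX M hM
  have hX1 : 1 ≤ X := (Real.one_le_rpow (by norm_num) (by positivity)).trans hX
  have hX0 : 0 < X := by linarith
  have hM2 : (2 : ℝ) ^ (40 / κ) ≤ M := by
    refine le_trans ?_ hM
    calc (2 : ℝ) ^ (40 / κ) = ((2 : ℝ) ^ (40 / (κ * δ))) ^ δ := by
          rw [← Real.rpow_mul (by norm_num)]
          congr 1
          field_simp
      _ ≤ X ^ δ := Real.rpow_le_rpow (by positivity) hX hδ.le
  have hM4 : 4 ≤ M := by
    refine le_trans ?_ hM2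
    calc (4 : ℝ) = 2 ^ (2 : ℝ) := by norm_num
      _ ≤ 2 ^ (40 / κ) := by
          refine Real.rpow_le_rpow_of_exponent_le (by norm_num) ?_
          rw [le_div_iff₀ hκ]; linarith
  have hM0 : 0 < M := by linarith
  have hlogM : 0 < Real.log M := Real.log_pos (by linarith)
  set R : ℝ := M ^ (κ / 40) with hR
  have hR2 : 2 ≤ R := by
    calc (2 : ℝ) = (2 ^ (40 / κ)) ^ (κ / 40) := by
          rw [← Real.rpow_mul (by norm_num)]
          rw [show 40 / κ * (κ / 40) = 1 by field_simp]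
          simp
      _ ≤ R := Real.rpow_le_rpow (by positivity) hM2 (by positivity)
  have hR0 : 0 < R := by linarith
  have hlogR : Real.log R = κ / 40 * Real.log M := Real.log_rpow hM0 _
  -- Selberg's weights
  set S : Finset ℕ := (Finset.range (⌊R⌋₊ + 1)).filter (fun p => p.Prime) with hS
  set h : ℕ → ℝ := fun p => 1 / (p : ℝ) with hh
  have hhp : ∀ p ∈ S, 0 < h p ∧ h p < 1 := by
    intro p hp
    have hp1 := (Finset.mem_filter.1 hp).2
    have hp2 : (2 : ℝ) ≤ p := by exact_mod_cast hp1.two_le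
    have h1 : 1 / (p : ℝ) ≤ 1 / 2 := one_div_le_one_div_of_le (by norm_num) hp2
    simp only [hh]
    exact ⟨by positivity, by linarith⟩
  obtain ⟨θ, hθ1, hθ2, hθ3, hθ4, hθ5⟩ := Pool.Agent.T2.selberg_weights_pr S
    (fun p hp => (Finset.mem_filter.1 hp).2) h hhp R (by linarith)
  have hmass : Real.log R ≤ ∑ d ∈ (Finset.Icc 1 ⌊R⌋₊).filter (fun d : ℕ => Squarefree d ∧
      ∀ p : ℕ, p.Prime → p ∣ d → p ∈ S), ∏ p ∈ d.primeFactors, h p / (1 - h p) := by
    have h1 := mass S R (by linarith) (fun p hp hpR => by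
      rw [hS, Finset.mem_filter, Finset.mem_range, Nat.lt_succ_iff]
      exact ⟨Nat.le_floor hpR, hp⟩)
    convert h1 using 3
  have hlogR0 : 0 < Real.log R := Real.log_pos (by linarith)
  set D : ℕ := ⌊R ^ 2⌋₊ with hD
  have hDR : (D : ℝ) ≤ R ^ 2 := Nat.floor_le (by positivity)
  have hR2M : R ^ 2 = M ^ (κ / 20) := by
    rw [hR, ← Real.rpow_natCast, ← Real.rpow_mul hM0.le]
    congr 1
    push_cast; ring
  have hR6 : (R ^ 2) ^ 3 = M ^ (3 * κ / 20) := by
    rw [hR2M, ← Real.rpow_natCast, ← Real.rpow_mul hM0.le]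
    congr 1
    push_cast; ring
  have hD3 : (D : ℝ) ^ 3 ≤ M ^ (3 * κ / 20) := by
    rw [← hR6]
    exact pow_le_pow_left₀ (by positivity) hDR 3
  have hθsum := phm_sum_three hθ2 D
  have hMh : 2 ≤ M ^ (1 / 2 : ℝ) := by
    have e1 : (4 : ℝ) ^ (1 / 2 : ℝ) = 2 := by
      rw [← Real.sqrt_eq_rpow, show (4 : ℝ) = 2 ^ 2 by norm_num]
      exact Real.sqrt_sq (by norm_num)
    exact e1.ge.trans (Real.rpow_le_rpow (by norm_num) hM4 (by norm_num))
  -- sizes of the divisors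
  have hdd : ∀ d ∈ Finset.Icc 1 D, (1 : ℝ) ≤ d ∧ (d : ℝ) ≤ M ^ (κ / 20) := by
    intro d hd
    rw [Finset.mem_Icc] at hd
    refine ⟨by exact_mod_cast hd.1, ?_⟩
    have h1 : (d : ℝ) ≤ D := by exact_mod_cast hd.2
    rw [← hR2M]
    linarith
  have hdy : ∀ d ∈ Finset.Icc 1 D, M ^ (1 - κ / 20) ≤ Real.exp 1 * M / d ∧
      2 * M ^ (1 / 2 : ℝ) ≤ Real.exp 1 * M / d := by
    intro d hd
    obtain ⟨h1, h2⟩ := hdd d hd
    have h0 : (0 : ℝ) < d := by linarith
    have h3 : M ^ (1 - κ / 20) * d ≤ M := by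
      calc M ^ (1 - κ / 20) * d ≤ M ^ (1 - κ / 20) * M ^ (κ / 20) :=
            mul_le_mul_of_nonneg_left h2 (by positivity)
        _ = M := by
            rw [← Real.rpow_add hM0]; simp
    have h4 : M ^ (1 / 2 : ℝ) ≤ M ^ (1 - κ / 20) :=
      Real.rpow_le_rpow_of_exponent_le (by linarith) (by linarith)
    constructor
    · rw [le_div_iff₀ h0]
      nlinarith
    · rw [le_div_iff₀ h0]
      have h5 : M ^ (1 / 2 : ℝ) * d ≤ M := le_trans (mul_le_mul_of_nonneg_right h4 h0.le) h3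
      nlinarith
  set x : ℝ := Real.exp 1 * M with hx
  have hx0 : 0 < x := by positivity
  refine ⟨fun n => x / n * ∑ d ∈ n.divisors, θ d, ?_, ?_, ?_, ?_⟩
  · intro n hn
    have h1 := (mem_PB.1 hn).1
    exact mul_nonneg (by positivity) (hθ4 n h1)
  · intro p hp hMp hpM
    have hp0 : (0 : ℝ) < p := by linarith
    simp only
    rw [Nat.Prime.sum_divisors hp, hθ3]
    have : θ p = 0 := by
      by_contra h0
      have h1 := (hθ1 p h0).2.2
      have h2 : R ^ 2 ≤ M := by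
        calc R ^ 2 = M ^ (κ / 20) := hR2M
          _ ≤ M ^ (1 : ℝ) := by
              refine Real.rpow_le_rpow_of_exponent_le (by linarith) ?_
              linarith
          _ = M := Real.rpow_one M
      linarith
    rw [this, zero_add, mul_one, le_div_iff₀ hp0, one_mul]
    calc (p : ℝ) ≤ 2 * M := hpM
      _ ≤ x := mul_le_mul_of_nonneg_right he2 hM0.le
  · -- the total mass
    have hw : ∀ n ∈ PB x, ((x / n * ∑ d ∈ n.divisors, θ d : ℝ) : ℂ) =
        ((∑ d ∈ Finset.Icc 1 D, θ d * (if d ∣ n then 1 else 0) : ℝ) : ℂ) * ((x / n : ℝ) : ℂ) := by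
      intro n hn
      rw [phm_w (fun d h0 => (hθ1 d h0).2.2) (mem_PB.1 hn).1, mul_comm, Complex.ofReal_mul]
    have h1 : ((∑ n ∈ PB x, x / n * ∑ d ∈ n.divisors, θ d : ℝ) : ℂ) =
        ((∑ d ∈ Finset.Icc 1 D, θ d * ∑ m ∈ PB (x / d), x / ((d : ℝ) * m) : ℝ) : ℂ) := by
      rw [Complex.ofReal_sum, Finset.sum_congr rfl hw, phm_expand D (fun n => ((x / n : ℝ) : ℂ)) x]
      push_cast
      rfl
    have h2 : ∑ n ∈ PB x, x / n * ∑ d ∈ n.divisors, θ d =
        ∑ d ∈ Finset.Icc 1 D, θ d * ∑ m ∈ PB (x / d), x / ((d : ℝ) * m) := by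
      exact_mod_cast h1
    rw [h2]
    have h3 : ∀ d ∈ Finset.Icc 1 D, θ d * ∑ m ∈ PB (x / d), x / ((d : ℝ) * m) ≤
        x * (θ d * ∏ p ∈ d.primeFactors, h p) + 8 * |θ d| := by
      intro d hd
      obtain ⟨hd1, hd2⟩ := hdd d hd
      obtain ⟨_, hd4⟩ := hdy d hd
      have hd0 : (0 : ℝ) < d := by linarith
      by_cases h0 : θ d = 0
      · simp [h0]
      have hsq := (hθ1 d h0).1
      have e1 : ∏ p ∈ d.primeFactors, h p = 1 / (d : ℝ) := by
        simp only [hh]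
        rw [Finset.prod_div_distrib, Finset.prod_const_one]
        congr 1
        rw [← Nat.cast_prod, Nat.prod_primeFactors_of_squarefree hsq]
      have e2 : ∑ m ∈ PB (x / d), x / ((d : ℝ) * m) = x / d * ∑ m ∈ PB (x / d), 1 / (m : ℝ) := by
        rw [Finset.mul_sum]
        refine Finset.sum_congr rfl fun m _ => ?_
        rw [div_mul_div_comm, mul_one]
      have e3 := phm_harm (x := x / d) (by linarith)
      rw [e1, e2]
      have e4 : x / d * ∑ m ∈ PB (x / d), 1 / (m : ℝ) =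
          x / d + x / d * (∑ m ∈ PB (x / d), 1 / (m : ℝ) - 1) := by ring
      have hxd : 0 < x / d := by positivity
      have e5 : |x / d * (∑ m ∈ PB (x / d), 1 / (m : ℝ) - 1)| ≤ 8 := by
        rw [abs_mul, abs_of_pos hxd]
        calc x / d * |∑ m ∈ PB (x / d), 1 / (m : ℝ) - 1| ≤ x / d * (8 / (x / d)) :=
              mul_le_mul_of_nonneg_left e3 hxd.le
          _ = 8 := by field_simp
      rw [e4, mul_add]
      have e6 : θ d * (x / d * (∑ m ∈ PB (x / d), 1 / (m : ℝ) - 1)) ≤ 8 * |θ d| := by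
        refine (le_abs_self _).trans ?_
        rw [abs_mul, mul_comm 8]
        exact mul_le_mul_of_nonneg_left e5 (abs_nonneg _)
      have e7 : θ d * (x / d) = x * (θ d * (1 / d)) := by ring
      linarith
    have h4 := Finset.sum_le_sum h3
    rw [Finset.sum_add_distrib, ← Finset.mul_sum, ← Finset.mul_sum] at h4
    refine h4.trans ?_
    have h5 : ∑ d ∈ Finset.Icc 1 D, θ d * ∏ p ∈ d.primeFactors, h p ≤ 40 / (κ * Real.log M) := by
      refine hθ5.trans ?_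
      refine (one_div_le_one_div_of_le hlogR0 hmass).trans (le_of_eq ?_)
      rw [hlogR]
      field_simp
    have h6 : x * ∑ d ∈ Finset.Icc 1 D, θ d * ∏ p ∈ d.primeFactors, h p ≤
        120 / κ * (M / Real.log M) := by
      calc x * ∑ d ∈ Finset.Icc 1 D, θ d * ∏ p ∈ d.primeFactors, h p ≤
            x * (40 / (κ * Real.log M)) := mul_le_mul_of_nonneg_left h5 hx0.le
        _ ≤ (3 * M) * (40 / (κ * Real.log M)) := by
            refine mul_le_mul_of_nonneg_right ?_ (by positivity)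
            rw [hx]
            exact mul_le_mul_of_nonneg_right (by linarith) hM0.le
        _ = 120 / κ * (M / Real.log M) := by
            field_simp
            norm_num
    have h7 : 8 * ∑ d ∈ Finset.Icc 1 D, |θ d| ≤ 16 * (M / Real.log M) := by
      have h8 : Real.log M ≤ M ^ (1 / 2 : ℝ) / (1 / 2) :=
        Real.log_le_rpow_div hM0.le (by norm_num)
      have h9 : M ^ (3 * κ / 20) ≤ M ^ (1 / 2 : ℝ) :=
        Real.rpow_le_rpow_of_exponent_le (by linarith) (by linarith)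
      have h10 : M ^ (1 / 2 : ℝ) * M ^ (1 / 2 : ℝ) = M := by
        rw [← Real.rpow_add hM0]; norm_num
      rw [mul_div_assoc', le_div_iff₀ hlogM]
      calc 8 * (∑ d ∈ Finset.Icc 1 D, |θ d|) * Real.log M ≤
            8 * M ^ (1 / 2 : ℝ) * (M ^ (1 / 2 : ℝ) / (1 / 2)) := by
            refine mul_le_mul ?_ h8 hlogM.le (by positivity)
            refine mul_le_mul_of_nonneg_left ?_ (by norm_num)
            linarith
        _ = 16 * (M ^ (1 / 2 : ℝ) * M ^ (1 / 2 : ℝ)) := by ring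
        _ = 16 * M := by rw [h10]
    have h8 : 0 ≤ 3 * C₁ * (M / Real.log M) := by positivity
    calc _ ≤ 120 / κ * (M / Real.log M) + 16 * (M / Real.log M) := add_le_add h6 h7
      _ ≤ _ := by
          rw [add_mul, add_mul (120 / κ)]
          linarith
  · -- the off-diagonal sums
    intro j hj hjX
    have hw : ∀ n ∈ PB x, ((x / n * ∑ d ∈ n.divisors, θ d : ℝ) : ℂ) * ang j n =
        ((∑ d ∈ Finset.Icc 1 D, θ d * (if d ∣ n then 1 else 0) : ℝ) : ℂ) *
          (((x / n : ℝ) : ℂ) * ang j n) := by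
      intro n hn
      rw [phm_w (fun d h0 => (hθ1 d h0).2.2) (mem_PB.1 hn).1, mul_comm (x / (n : ℝ)),
        Complex.ofReal_mul, mul_assoc]
    simp only
    rw [Finset.sum_congr rfl hw, phm_expand D (fun n => ((x / n : ℝ) : ℂ) * ang j n) x]
    have hXM : X ≤ M ^ (1 / δ) := by
      have h1 : (X ^ δ) ^ (1 / δ) ≤ M ^ (1 / δ) :=
        Real.rpow_le_rpow (by positivity) hM (by positivity)
      rwa [← Real.rpow_mul hX0.le, mul_one_div, div_self hδ.ne', Real.rpow_one] at h1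
    set K : ℝ := x * (C₁ * M ^ (-(κ * (1 - κ / 20)))) with hK
    have hone : ∀ d ∈ Finset.Icc 1 D,
        ‖∑ m ∈ PB (x / d), ((x / ((d * m : ℕ) : ℝ) : ℝ) : ℂ) * ang j (d * m)‖ ≤ K := by
      intro d hd
      obtain ⟨hd1, hd2⟩ := hdd d hd
      obtain ⟨hd3, hd4⟩ := hdy d hd
      have hd0 : (0 : ℝ) < d := by linarith
      have hdn : (d : ℂ) ≠ 0 := by exact_mod_cast hd0.ne'
      have e1 : ∑ m ∈ PB (x / d), ((x / ((d * m : ℕ) : ℝ) : ℝ) : ℂ) * ang j (d * m) =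
          ((x : ℂ) * (1 / d) * ang j d) * ∑ m ∈ PB (x / d), ang j m / m := by
        rw [Finset.mul_sum]
        refine Finset.sum_congr rfl fun m hm => ?_
        have hm0 : (m : ℂ) ≠ 0 := by
          have := (mem_PB.1 hm).1
          exact_mod_cast (by omega : m ≠ 0)
        rw [ang_mul]
        push_cast
        field_simp
      have hy : 1 ≤ x / d := by linarith
      have hjy : |(j : ℝ)| ≤ (x / d) ^ (2 / δ + 1) := by
        calc |(j : ℝ)| ≤ 2 * X := hjX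
          _ ≤ 2 * M ^ (1 / δ) := by linarith
          _ ≤ (2 * M ^ (1 / 2 : ℝ)) ^ (2 / δ + 1) := by
              rw [Real.mul_rpow (by norm_num) (by positivity), ← Real.rpow_mul hM0.le]
              refine mul_le_mul ?_ ?_ (by positivity) (by positivity)
              · calc (2 : ℝ) = 2 ^ (1 : ℝ) := by simp
                  _ ≤ 2 ^ (2 / δ + 1) :=
                    Real.rpow_le_rpow_of_exponent_le (by norm_num) hA
              · refine Real.rpow_le_rpow_of_exponent_le (by linarith) ?_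
                have : 1 / 2 * (2 / δ + 1) = 1 / δ + 1 / 2 := by field_simp
                rw [this]; linarith
          _ ≤ (x / d) ^ (2 / δ + 1) :=
              Real.rpow_le_rpow (by positivity) hd4 (by positivity)
      have e2 := hexp (x / d) hy j hj hjy
      have e3 : (x / d) ^ (-κ) ≤ M ^ (-(κ * (1 - κ / 20))) := by
        calc (x / d) ^ (-κ) ≤ (M ^ (1 - κ / 20)) ^ (-κ) :=
              Real.rpow_le_rpow_of_nonpos (by positivity) hd3 (by linarith)
          _ = M ^ (-(κ * (1 - κ / 20))) := by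
              rw [← Real.rpow_mul hM0.le]; congr 1; ring
      rw [e1, norm_mul, norm_mul, norm_mul]
      have e4 : ‖(x : ℂ)‖ = x := by rw [Complex.norm_real, Real.norm_of_nonneg hx0.le]
      have e5 : ‖(1 / (d : ℂ))‖ ≤ 1 := by
        rw [norm_div, norm_one, Complex.norm_natCast]
        exact (div_le_one hd0).2 hd1
      have e6 := ang_le j d
      rw [e4]
      have e7 : x * ‖(1 / (d : ℂ))‖ * ‖ang j d‖ ≤ x := by
        calc x * ‖(1 / (d : ℂ))‖ * ‖ang j d‖ ≤ x * 1 * 1 := by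
              refine mul_le_mul (mul_le_mul_of_nonneg_left e5 hx0.le) e6 (norm_nonneg _)
                (by positivity)
          _ = x := by ring
      refine (mul_le_mul e7 (e2.trans (mul_le_mul_of_nonneg_left e3 (by linarith)))
        (norm_nonneg _) hx0.le)
    refine (norm_sum_le _ _).trans ?_
    have h1 : ∑ d ∈ Finset.Icc 1 D, ‖(θ d : ℂ) * ∑ m ∈ PB (x / d),
        ((x / ((d * m : ℕ) : ℝ) : ℝ) : ℂ) * ang j (d * m)‖ ≤
        ∑ d ∈ Finset.Icc 1 D, |θ d| * K := by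
      refine Finset.sum_le_sum fun d hd => ?_
      rw [norm_mul, Complex.norm_real, Real.norm_eq_abs]
      exact mul_le_mul_of_nonneg_left (hone d hd) (abs_nonneg _)
    refine h1.trans ?_
    rw [← Finset.sum_mul]
    have hK0 : 0 ≤ K := by rw [hK]; positivity
    calc (∑ d ∈ Finset.Icc 1 D, |θ d|) * K ≤ M ^ (3 * κ / 20) * K :=
          mul_le_mul_of_nonneg_right (hθsum.trans hD3) hK0
      _ ≤ M ^ (3 * κ / 20) * ((3 * M) * (C₁ * M ^ (-(κ * (1 - κ / 20))))) := by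
          rw [hK, hx]
          refine mul_le_mul_of_nonneg_left ?_ (by positivity)
          refine mul_le_mul_of_nonneg_right ?_ (by positivity)
          exact mul_le_mul_of_nonneg_right (by linarith) hM0.le
      _ = 3 * C₁ * M ^ (3 * κ / 20 + 1 + -(κ * (1 - κ / 20))) := by
          rw [Real.rpow_add hM0, Real.rpow_add hM0, Real.rpow_one]
          ring
      _ ≤ 3 * C₁ * M ^ (1 - 3 * κ / 4) := by
          refine mul_le_mul_of_nonneg_left ?_ (by positivity)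
          refine Real.rpow_le_rpow_of_exponent_le (by linarith) ?_
          nlinarith
      _ ≤ _ := by
          refine mul_le_mul_of_nonneg_right ?_ (by positivity)
          have : 0 ≤ 120 / κ := by positivity
          linarith

theorem prime_hm_pr (δ : ℝ) (hδ : 0 < δ) (_hδ1 : δ ≤ 1) : ∃ α C X₀ : ℝ, 0 < α ∧ 1 ≤ C ∧
    ∀ X : ℝ, X₀ ≤ X → ∀ U : Finset ℤ, U ⊆ Ks X → (U.card : ℝ) ≤ X ^ α →
    ∀ M : ℝ, X ^ δ ≤ M → ∀ B : Finset ℕ, Pset B → (∀ p ∈ B, M < (p : ℝ) ∧ (p : ℝ) ≤ 2 * M) →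
    ∀ b : ℕ → ℂ, (∀ p, ‖b p‖ ≤ 1) →
      ∑ k ∈ U, ‖∑ p ∈ B, b p * ang k p‖ ^ 2 ≤ C * (M / Real.log M) * B.card := by
  classical
  obtain ⟨κ, C, X₀, hκ, hκ1, hC, hX₀, hmaj⟩ := phm_majorant δ hδ
  refine ⟨δ * (κ / 4), C + C * (2 / κ), max X₀ 2, by positivity, ?_, ?_⟩
  · have : 0 ≤ C * (2 / κ) := by positivity
    linarith
  intro X hX U hU hUc M hM B hB hBM b hb
  have hX0' : X₀ ≤ X := (le_max_left _ _).trans hX
  have hX2 : 2 ≤ X := (le_max_right _ _).trans hX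
  have hX0 : 0 < X := by linarith
  have hM1 : 1 < M := by
    refine lt_of_lt_of_le ?_ hM
    exact Real.one_lt_rpow (by linarith) hδ
  have hM0 : 0 < M := by linarith
  have hlogM : 0 < Real.log M := Real.log_pos hM1
  have he0 := Real.exp_pos 1
  have he2 : 2 ≤ Real.exp 1 := by
    have := Real.add_one_le_exp 1
    linarith
  obtain ⟨w, hw0, hw1, hwD, hwE⟩ := hmaj X hX0' M hM
  set Δ : ℝ := C * (M / Real.log M) + C * M ^ (1 - 3 * κ / 4) * U.card with hΔ
  set x : ℝ := Real.exp 1 * M with hx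
  have hne : ∀ n ∈ PB x, 1 ≤ n := fun n hn => (mem_PB.1 hn).1
  have hgr : ∀ k l : ℤ, ∀ n ∈ PB x, ang k n * (starRingEnd ℂ) (ang l n) = ang (k - l) n := by
    intro k l n hn
    rw [ang_conj l (hne n hn), ← ang_add _ _ (hne n hn), sub_eq_add_neg]
  have hBP : B ⊆ PB x := by
    intro p hp
    obtain ⟨h1, h2⟩ := hBM p hp
    rw [mem_PB]
    refine ⟨(hB p hp).one_lt.le, ?_, ?_⟩
    · rw [hx]
      nlinarith
    · rw [hx, mul_div_cancel_left₀ _ he0.ne']
      exact h1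
  have key : ∀ β : ℤ → ℂ, ∑ p ∈ B, ‖∑ k ∈ U, β k * ang k p‖ ^ 2 ≤
      Δ * ∑ k ∈ U, ‖β k‖ ^ 2 := by
    intro β
    have h1 : ∑ p ∈ B, ‖∑ k ∈ U, β k * ang k p‖ ^ 2 ≤
        ∑ n ∈ PB x, w n * ‖∑ k ∈ U, β k * ang k n‖ ^ 2 := by
      calc ∑ p ∈ B, ‖∑ k ∈ U, β k * ang k p‖ ^ 2 ≤
            ∑ p ∈ B, w p * ‖∑ k ∈ U, β k * ang k p‖ ^ 2 := by
            refine Finset.sum_le_sum fun p hp => ?_
            have h2 := hw1 p (hB p hp) (hBM p hp).1 (hBM p hp).2
            exact le_mul_of_one_le_left (by positivity) h2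
        _ ≤ _ := Finset.sum_le_sum_of_subset_of_nonneg hBP fun n hn _ =>
            mul_nonneg (hw0 n hn) (by positivity)
    refine h1.trans ?_
    refine phm_gram U (PB x) w (fun k n => ang k n) (C * (M / Real.log M))
      (C * M ^ (1 - 3 * κ / 4)) ?_ ?_ (by positivity) β
    · intro k _
      have e1 : ∑ n ∈ PB x, (w n : ℂ) * (ang k n * (starRingEnd ℂ) (ang k n)) =
          ((∑ n ∈ PB x, w n : ℝ) : ℂ) := by
        rw [Complex.ofReal_sum]
        refine Finset.sum_congr rfl fun n hn => ?_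
        rw [hgr k k n hn, sub_self, ang_zero', mul_one]
      rw [e1, Complex.norm_real, Real.norm_of_nonneg (Finset.sum_nonneg hw0)]
      exact hwD
    · intro k hk l hl hkl
      have e1 : ∑ n ∈ PB x, (w n : ℂ) * (ang k n * (starRingEnd ℂ) (ang l n)) =
          ∑ n ∈ PB x, (w n : ℂ) * ang (k - l) n :=
        Finset.sum_congr rfl fun n hn => by rw [hgr k l n hn]
      rw [e1]
      refine hwE (k - l) (sub_ne_zero.2 hkl) ?_
      have hk' := mem_Ks.1 (hU hk)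
      have hl' := mem_Ks.1 (hU hl)
      push_cast
      calc |(k : ℝ) - l| ≤ |(k : ℝ)| + |(l : ℝ)| := abs_sub _ _
        _ ≤ 2 * X := by linarith
  have hfin := phm_dual U B (fun k p => ang k p) Δ (by positivity) key b
  have hbc : ∑ p ∈ B, ‖b p‖ ^ 2 ≤ (B.card : ℝ) := by
    calc ∑ p ∈ B, ‖b p‖ ^ 2 ≤ ∑ p ∈ B, (1 : ℝ) := by
          refine Finset.sum_le_sum fun p _ => ?_
          have := hb p
          have h0 := norm_nonneg (b p)
          nlinarith
      _ = B.card := by simp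
  have hΔ' : Δ ≤ (C + C * (2 / κ)) * (M / Real.log M) := by
    have h1 : (U.card : ℝ) ≤ M ^ (κ / 4) := by
      refine hUc.trans ?_
      rw [Real.rpow_mul hX0.le]
      exact Real.rpow_le_rpow (by positivity) hM (by positivity)
    have h2 : C * M ^ (1 - 3 * κ / 4) * U.card ≤ C * M ^ (1 - κ / 2) := by
      calc C * M ^ (1 - 3 * κ / 4) * U.card ≤ C * M ^ (1 - 3 * κ / 4) * M ^ (κ / 4) :=
            mul_le_mul_of_nonneg_left h1 (by positivity)
        _ = C * M ^ (1 - κ / 2) := by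
            rw [mul_assoc, ← Real.rpow_add hM0]
            congr 2; ring
    have h3 : Real.log M ≤ M ^ (κ / 2) / (κ / 2) :=
      Real.log_le_rpow_div hM0.le (by positivity)
    have h4 : M ^ (1 - κ / 2) ≤ 2 / κ * (M / Real.log M) := by
      rw [mul_div_assoc', le_div_iff₀ hlogM]
      calc M ^ (1 - κ / 2) * Real.log M ≤ M ^ (1 - κ / 2) * (M ^ (κ / 2) / (κ / 2)) :=
            mul_le_mul_of_nonneg_left h3 (by positivity)
        _ = 2 / κ * (M ^ (1 - κ / 2) * M ^ (κ / 2)) := by field_simp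
        _ = 2 / κ * M := by
            rw [← Real.rpow_add hM0]; simp
    rw [hΔ]
    calc C * (M / Real.log M) + C * M ^ (1 - 3 * κ / 4) * U.card ≤
          C * (M / Real.log M) + C * (2 / κ * (M / Real.log M)) := by
          have := mul_le_mul_of_nonneg_left h4 (by linarith : 0 ≤ C)
          linarith
      _ = _ := by ring
  calc ∑ k ∈ U, ‖∑ p ∈ B, b p * ang k p‖ ^ 2 ≤ Δ * ∑ p ∈ B, ‖b p‖ ^ 2 := hfin
    _ ≤ ((C + C * (2 / κ)) * (M / Real.log M)) * B.card :=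
        mul_le_mul hΔ' hbc (Finset.sum_nonneg fun p _ => by positivity) (by positivity)

end Pool.Agent.PS

namespace Pool.Agent.PS

theorem exp_win : type_of% @exp_win_pr := @exp_win_pr

theorem prime_hm : type_of% @prime_hm_pr := @prime_hm_pr

end Pool.Agent.PS
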