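import Pool.Agent.Lib_helper1.PS.Defs
import Pool.Agent.Lib_helper39.T2X.EXL3
import Pool.Agent.Lib_helper39.T2X.EXL4

/-! PolynomialShifts, pointwise half, part 1: exponential sums and L-functions -/

/-! ### Block EXA -/

/-! PS, block EXA: exponential sums `∑ (n + α)^(iτ)` over short dyadic blocks -/

namespace Pool.Agent.PS

open Pool.Agent.T2.EXL

/-- the derivatives of `(τ/2π) log (x + α)` -/
noncomputable def exa_F (α τ : ℝ) : ℕ → ℝ → ℝ
  | 0 => fun x => τ / (2 * Real.pi) * Real.log (x + α)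
  | (i + 1) => fun x => τ / (2 * Real.pi) * ((-1) ^ i * (Nat.factorial i : ℝ)) * ((x + α) ^ (i + 1))⁻¹

theorem exa_der (α τ : ℝ) (i : ℕ) {x : ℝ} (hx : 0 < x + α) :
    HasDerivAt (exa_F α τ i) (exa_F α τ (i + 1) x) x := by
  have h1 : HasDerivAt (fun x : ℝ => x + α) 1 x := (hasDerivAt_id x).add_const α
  cases i with
  | zero =>
    have h2 := (h1.log hx.ne').const_mul (τ / (2 * Real.pi))
    have e : exa_F α τ (0 + 1) x = τ / (2 * Real.pi) * (1 / (x + α)) := by
      simp [exa_F]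
    rw [e]
    exact h2
  | succ i =>
    have h3 : HasDerivAt (fun y : ℝ => (y + α) ^ (i + 1)) (((i + 1 : ℕ) : ℝ) * (x + α) ^ i * 1) x := by
      have := h1.fun_pow (i + 1)
      simpa using this
    have h0 : (x + α) ^ (i + 1) ≠ 0 := by positivity
    have h2 := (h3.inv h0).const_mul (τ / (2 * Real.pi) * ((-1) ^ i * (Nat.factorial i : ℝ)))
    have e : exa_F α τ (i + 1 + 1) x = τ / (2 * Real.pi) * ((-1) ^ i * (Nat.factorial i : ℝ)) *
        (-(((i + 1 : ℕ) : ℝ) * (x + α) ^ i * 1) / ((x + α) ^ (i + 1)) ^ 2) := by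
      simp only [exa_F]
      rw [Nat.factorial_succ]
      push_cast
      have : x + α ≠ 0 := hx.ne'
      field_simp
      ring
    rw [e]
    exact h2

theorem exa_abs (α τ : ℝ) (i : ℕ) {x : ℝ} (hx : 0 < x + α) :
    |exa_F α τ (i + 1) x| = |τ| / (2 * Real.pi) * (Nat.factorial i : ℝ) * ((x + α) ^ (i + 1))⁻¹ := by
  simp only [exa_F]
  rw [abs_mul, abs_mul, abs_mul, abs_div, abs_pow, abs_neg, abs_one, one_pow, one_mul,
    abs_of_pos (show 0 < 2 * Real.pi by positivity), abs_of_pos (show 0 < ((x + α) ^ (i + 1))⁻¹ by positivity),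
    Nat.abs_cast]

theorem exa_term (α τ : ℝ) (n : ℤ) (hn : 0 < (n : ℝ) + α) :
    (((n : ℝ) + α : ℝ) : ℂ) ^ ((τ : ℂ) * Complex.I) = ee (exa_F α τ 0 n) := by
  rw [Complex.cpow_def_of_ne_zero (by exact_mod_cast hn.ne'), ← Complex.ofReal_log hn.le]
  simp only [ee, exa_F]
  congr 1
  push_cast
  have : (Real.pi : ℂ) ≠ 0 := by exact_mod_cast Real.pi_ne_zero
  field_simp

theorem exa_norm (α τ : ℝ) (n : ℕ) (hn : 0 < (n : ℝ) + α) :
    ‖(((n : ℝ) + α : ℝ) : ℂ) ^ ((τ : ℂ) * Complex.I)‖ = 1 := by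
  rw [Complex.norm_cpow_eq_rpow_re_of_pos hn]
  simp

theorem exa_log (r : ℕ) (hr : 1 ≤ r) {N : ℝ} (hN : 1 ≤ N) :
    (1 + Real.log N) ^ r ≤ (1 + 4 * r) ^ r * N ^ (1 / 4 : ℝ) := by
  have hr0 : (0 : ℝ) < r := by exact_mod_cast hr
  have h1 : Real.log N ≤ N ^ (1 / (4 * r) : ℝ) / (1 / (4 * r)) :=
    Real.log_le_rpow_div (by linarith) (by positivity)
  have h2 : N ^ (1 / (4 * r) : ℝ) / (1 / (4 * r)) = 4 * r * N ^ (1 / (4 * r) : ℝ) := by
    field_simp
  have h3 : 1 ≤ N ^ (1 / (4 * r) : ℝ) := Real.one_le_rpow hN (by positivity)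
  have h4 : 1 + Real.log N ≤ (1 + 4 * r) * N ^ (1 / (4 * r) : ℝ) := by
    rw [h2] at h1
    nlinarith
  have h5 : 0 ≤ 1 + Real.log N := by
    have := Real.log_nonneg hN
    linarith
  calc (1 + Real.log N) ^ r ≤ ((1 + 4 * r) * N ^ (1 / (4 * r) : ℝ)) ^ r := by gcongr
    _ = (1 + 4 * r) ^ r * N ^ (1 / 4 : ℝ) := by
      rw [mul_pow, ← Real.rpow_natCast (N ^ (1 / (4 * r) : ℝ)), ← Real.rpow_mul (by linarith)]
      congr 2
      field_simp

theorem exa (A : ℝ) (hA : 1 ≤ A) : ∃ κ C : ℝ, 0 < κ ∧ κ ≤ 1 / 4 ∧ 1 ≤ C ∧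
    ∀ (N a b : ℕ) (α τ : ℝ), 1 ≤ N → N ≤ a → a ≤ b → b ≤ 2 * N → 0 ≤ α → α ≤ 1 →
      (N : ℝ) ^ (3 / 4 : ℝ) ≤ |τ| → |τ| ≤ (N : ℝ) ^ A →
      ‖∑ n ∈ Finset.Ico a b, (((n : ℝ) + α : ℝ) : ℂ) ^ ((τ : ℂ) * Complex.I)‖ ≤
        C * (N : ℝ) ^ (1 - κ) := by
  set r : ℕ := ⌈2 * A⌉₊ with hr
  have hrA : 2 * A ≤ r := Nat.le_ceil _
  have hr2 : 2 ≤ (r : ℝ) := by linarith
  have hr1 : 1 ≤ r := by
    have : (1 : ℝ) ≤ r := by linarith
    exact_mod_cast this
  set D : ℝ := 3 ^ (r + 1) + (r + 1) * 3 ^ (2 * r + 2) with hD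
  have hD0 : 0 < D := by positivity
  set C₀ : ℝ := Cw r * (2 * r + 2 * Real.pi * D * (2 * r) ^ r * (1 + 4 * r) ^ r) with hC₀
  have hCw := Cw_pos r
  have hC₀0 : 0 < C₀ := by positivity
  have h2r : (0 : ℝ) < 2 ^ r := by positivity
  refine ⟨1 / (4 * 2 ^ r), max (max 1 (4 * (r : ℝ) ^ 2)) C₀, by positivity, ?_, ?_, ?_⟩
  · rw [div_le_div_iff₀ (by positivity) (by norm_num)]
    have : (1 : ℝ) ≤ 2 ^ r := one_le_pow₀ (by norm_num)
    linarith
  · exact le_trans (le_max_left _ _) (le_max_left _ _)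
  intro N a b α τ hN hNa hab hbN hα hα1 hτ1 hτ2
  set κ : ℝ := 1 / (4 * 2 ^ r) with hκ
  have hκ0 : 0 < κ := by positivity
  have hκ1 : κ ≤ 1 := by
    rw [hκ, div_le_one (by positivity)]
    have : (1 : ℝ) ≤ 2 ^ r := one_le_pow₀ (by norm_num)
    linarith
  have hN1 : (1 : ℝ) ≤ N := by exact_mod_cast hN
  have hN0 : (0 : ℝ) < N := by linarith
  have hNκ : 0 < (N : ℝ) ^ (1 - κ) := by positivity
  rcases lt_or_ge (N : ℝ) (4 * (r : ℝ) ^ 2) with hsm | hbig
  · -- small `N`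
    have h1 : ‖∑ n ∈ Finset.Ico a b, (((n : ℝ) + α : ℝ) : ℂ) ^ ((τ : ℂ) * Complex.I)‖ ≤ N := by
      refine (norm_sum_le _ _).trans ?_
      have : ∀ n ∈ Finset.Ico a b, ‖(((n : ℝ) + α : ℝ) : ℂ) ^ ((τ : ℂ) * Complex.I)‖ ≤ 1 := by
        intro n hn
        rw [Finset.mem_Ico] at hn
        have : (1 : ℝ) ≤ n := by exact_mod_cast (by omega : 1 ≤ n)
        rw [exa_norm α τ n (by linarith)]
      refine (Finset.sum_le_sum this).trans ?_
      rw [Finset.sum_const, Nat.card_Ico, nsmul_eq_mul, mul_one]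
      exact_mod_cast (by omega : b - a ≤ N)
    refine h1.trans ?_
    have h2 : (N : ℝ) = (N : ℝ) ^ κ * (N : ℝ) ^ (1 - κ) := by
      rw [← Real.rpow_add hN0]
      simp
    have h3 : (N : ℝ) ^ κ ≤ N := by
      calc (N : ℝ) ^ κ ≤ (N : ℝ) ^ (1 : ℝ) := Real.rpow_le_rpow_of_exponent_le hN1 hκ1
        _ = N := Real.rpow_one _
    calc (N : ℝ) = (N : ℝ) ^ κ * (N : ℝ) ^ (1 - κ) := h2
      _ ≤ (4 * (r : ℝ) ^ 2) * (N : ℝ) ^ (1 - κ) := by
          apply mul_le_mul_of_nonneg_right (h3.trans hsm.le) hNκ.le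
      _ ≤ _ := by
          apply mul_le_mul_of_nonneg_right _ hNκ.le
          exact le_trans (le_max_right _ _) (le_max_left _ _)
  · -- the main case
    set t : ℝ := |τ| with ht
    have ht0 : 0 < t := lt_of_lt_of_le (by positivity) hτ1
    have hr0 : (0 : ℝ) < r := by linarith
    set T : ℝ := t / (2 * Real.pi) with hT
    have hT0 : 0 < T := by positivity
    set q : ℝ := (N : ℝ) ^ (1 / 2 : ℝ) / t with hq
    have hq0 : 0 < q := by positivity
    have hq1 : q ≤ 1 := by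
      rw [hq, div_le_one ht0]
      exact le_trans (Real.rpow_le_rpow_of_exponent_le hN1 (by norm_num)) hτ1
    have hq2 : (N : ℝ) ^ (1 / 2 - A) ≤ q := by
      rw [hq, le_div_iff₀ ht0, Real.rpow_sub hN0]
      have : 0 < (N : ℝ) ^ A := by positivity
      rw [div_mul_eq_mul_div, div_le_iff₀ this]
      have h5 : 0 < (N : ℝ) ^ (1 / 2 : ℝ) := by positivity
      exact mul_le_mul_of_nonneg_left hτ2 h5.le
    set h₀ : ℝ := N * q ^ (1 / r : ℝ) / r with hh₀
    have hsq : 2 * (r : ℝ) ≤ (N : ℝ) ^ (1 / 2 : ℝ) := by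
      rw [← Real.sqrt_eq_rpow]
      apply Real.le_sqrt_of_sq_le
      nlinarith
    have hq3 : (N : ℝ) ^ (-(1 / 2) : ℝ) ≤ q ^ (1 / r : ℝ) := by
      calc (N : ℝ) ^ (-(1 / 2) : ℝ) ≤ (N : ℝ) ^ ((1 / 2 - A) * (1 / r)) := by
            apply Real.rpow_le_rpow_of_exponent_le hN1
            rw [mul_one_div, le_div_iff₀ hr0]
            nlinarith
        _ = ((N : ℝ) ^ (1 / 2 - A)) ^ (1 / r : ℝ) := by rw [Real.rpow_mul hN0.le]
        _ ≤ q ^ (1 / r : ℝ) := Real.rpow_le_rpow (by positivity) hq2 (by positivity)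
    have hh1 : (N : ℝ) ^ (1 / 2 : ℝ) / r ≤ h₀ := by
      rw [hh₀, div_le_div_iff_of_pos_right hr0]
      calc (N : ℝ) ^ (1 / 2 : ℝ) = N * (N : ℝ) ^ (-(1 / 2) : ℝ) := by
            nth_rewrite 2 [← Real.rpow_one (N : ℝ)]
            rw [← Real.rpow_add hN0]
            norm_num
        _ ≤ N * q ^ (1 / r : ℝ) := mul_le_mul_of_nonneg_left hq3 hN0.le
    have hh2 : 2 ≤ h₀ := by
      refine le_trans ?_ hh1
      rw [le_div_iff₀ hr0]
      exact hsq
    have hq4 : q ^ (1 / r : ℝ) ≤ 1 := Real.rpow_le_one hq0.le hq1 (by positivity)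
    have hh3 : h₀ ≤ N := by
      rw [hh₀, div_le_iff₀ hr0]
      nlinarith
    have hh0 : 0 < h₀ := by linarith
    have hhr : h₀ ^ r = N ^ r * q / r ^ r := by
      rw [hh₀, div_pow, mul_pow]
      congr 2
      rw [← Real.rpow_natCast, ← Real.rpow_mul hq0.le]
      have : (1 / (r : ℝ)) * ((r : ℕ) : ℝ) = 1 := by field_simp
      rw [this, Real.rpow_one]
    set H : ℕ := ⌊h₀⌋₊ with hH
    have hHle : (H : ℝ) ≤ h₀ := Nat.floor_le hh0.le
    have hHge : h₀ / 2 ≤ H := by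
      have := Nat.lt_floor_add_one h₀
      rw [← hH] at this
      linarith
    have hH0 : (0 : ℝ) < H := by linarith
    have hH1 : 1 ≤ H := by
      have : (0 : ℝ) < H := hH0
      exact_mod_cast this
    -- the derivative test
    set l0 : ℝ := T * (Nat.factorial r : ℝ) * ((3 * (N : ℝ)) ^ (r + 1))⁻¹ with hl0
    set l1 : ℝ := T * (Nat.factorial r : ℝ) * ((N : ℝ) ^ (r + 1))⁻¹ with hl1
    set l2 : ℝ := T * (Nat.factorial (r + 1) : ℝ) * ((N : ℝ) ^ (r + 2))⁻¹ with hl2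
    have hf0 : (0 : ℝ) < (Nat.factorial r : ℝ) := by exact_mod_cast Nat.factorial_pos r
    have hf1 : (1 : ℝ) ≤ (Nat.factorial r : ℝ) := by exact_mod_cast Nat.factorial_pos r
    have hfr : (Nat.factorial r : ℝ) ≤ (r : ℝ) ^ r := by exact_mod_cast Nat.factorial_le_pow r
    have hl00 : 0 < l0 := by positivity
    have hl20 : 0 ≤ l2 := by positivity
    have hxpos : ∀ x ∈ Set.Icc (N : ℝ) (2 * N : ℝ), 0 < x + α := by
      intro x hx
      have := hx.1
      linarith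
    have htest := abs_test r (exa_F α τ) (N : ℝ) (2 * N : ℝ) (a : ℤ) (b : ℤ)
      (by push_cast; exact_mod_cast hNa)
      (by
        have : (b : ℝ) ≤ 2 * N := by exact_mod_cast hbN
        push_cast
        linarith)
      (by
        intro i _ x hx
        exact exa_der α τ i (hxpos x hx))
      l0 l1 l2 hl00 hl20
      (by
        intro x hx
        have h6 := hxpos x hx
        rw [exa_abs α τ r h6]
        have h7 : x + α ≤ 3 * N := by
          have := hx.2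
          linarith
        have h8 : ((3 * (N : ℝ)) ^ (r + 1))⁻¹ ≤ ((x + α) ^ (r + 1))⁻¹ := by
          apply inv_anti₀ (by positivity)
          gcongr
        apply mul_le_mul_of_nonneg_left h8 (by positivity))
      (by
        intro x hx
        have h6 := hxpos x hx
        rw [exa_abs α τ r h6]
        have h7 : (N : ℝ) ≤ x + α := by
          have := hx.1
          linarith
        have h8 : ((x + α) ^ (r + 1))⁻¹ ≤ ((N : ℝ) ^ (r + 1))⁻¹ := by
          apply inv_anti₀ (by positivity)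
          gcongr
        apply mul_le_mul_of_nonneg_left h8 (by positivity))
      (by
        intro x hx
        have h6 := hxpos x hx
        rw [exa_abs α τ (r + 1) h6]
        have h7 : (N : ℝ) ≤ x + α := by
          have := hx.1
          linarith
        have h8 : ((x + α) ^ (r + 1 + 1))⁻¹ ≤ ((N : ℝ) ^ (r + 2))⁻¹ := by
          apply inv_anti₀ (by positivity)
          gcongr
        apply mul_le_mul_of_nonneg_left h8 (by positivity))
      H hH1
      (by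
        have h9 : (H : ℝ) ^ r ≤ h₀ ^ r := by gcongr
        calc (H : ℝ) ^ r * l1 ≤ h₀ ^ r * l1 := by
              apply mul_le_mul_of_nonneg_right h9 (by positivity)
          _ = ((Nat.factorial r : ℝ) / r ^ r) * ((N : ℝ) ^ (1 / 2 : ℝ) / N) * (1 / (2 * Real.pi)) := by
              rw [hhr, hl1, hT, hq]
              field_simp
              ring
          _ ≤ 1 * 1 * (1 / 2) := by
              apply mul_le_mul _ _ (by positivity) (by norm_num)
              · apply mul_le_mul _ _ (by positivity) (by norm_num)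
                · rw [div_le_one (by positivity)]; exact hfr
                · rw [div_le_one hN0]
                  calc (N : ℝ) ^ (1 / 2 : ℝ) ≤ (N : ℝ) ^ (1 : ℝ) :=
                        Real.rpow_le_rpow_of_exponent_le hN1 (by norm_num)
                    _ = N := Real.rpow_one _
              · have := Real.pi_gt_three
                rw [div_le_div_iff₀ (by positivity) (by norm_num)]
                linarith
          _ = 1 / 2 := by norm_num)
      (N : ℝ) (1 + Real.log N)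
      (by
        have : (b : ℝ) - a ≤ N := by
          have h10 : (b : ℝ) ≤ 2 * N := by exact_mod_cast hbN
          have h11 : (N : ℝ) ≤ a := by exact_mod_cast hNa
          linarith
        push_cast
        exact this)
      (by linarith)
      (by
        have := Real.log_nonneg hN1
        linarith)
      (by
        refine (harm_bound H).trans ?_
        have : Real.log H ≤ Real.log N := Real.log_le_log hH0 (by linarith)
        linarith)
    have hSeq : ∑ n ∈ Finset.Ico a b, (((n : ℝ) + α : ℝ) : ℂ) ^ ((τ : ℂ) * Complex.I) =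
        S (fun n => exa_F α τ 0 n) a b := by
      unfold S
      have : Finset.Ico (a : ℤ) (b : ℤ) = (Finset.Ico a b).image (fun n : ℕ => (n : ℤ)) := by
        ext x
        simp only [Finset.mem_Ico, Finset.mem_image]
        constructor
        · rintro ⟨h4, h5⟩
          exact ⟨x.toNat, by omega, by omega⟩
        · rintro ⟨j, hj, rfl⟩
          omega
      rw [this, Finset.sum_image (by intro x _ y _ hxy; simpa using hxy)]
      apply Finset.sum_congr rfl
      intro n hn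
      rw [Finset.mem_Ico] at hn
      have h12 : (1 : ℝ) ≤ n := by exact_mod_cast (by omega : 1 ≤ n)
      have := exa_term α τ (n : ℤ) (by push_cast; linarith)
      push_cast at this ⊢
      exact this
    rw [hSeq]
    set Z : ℝ := ‖S (fun n => exa_F α τ 0 n) a b‖ with hZ
    have hmain : Z ^ (2 ^ r) ≤ C₀ * (N : ℝ) ^ ((2 : ℝ) ^ r - 1 / 4) := by
      refine htest.trans ?_
      have e1 : 1 / (H : ℝ) ≤ 2 * r * (N : ℝ) ^ (-(1 / 4) : ℝ) := by
        calc 1 / (H : ℝ) ≤ 1 / (h₀ / 2) := by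
              apply one_div_le_one_div_of_le (by positivity) hHge
          _ ≤ 1 / (((N : ℝ) ^ (1 / 2 : ℝ) / r) / 2) := by
              apply one_div_le_one_div_of_le (by positivity)
              linarith
          _ = 2 * r * (N : ℝ) ^ (-(1 / 2) : ℝ) := by
              rw [Real.rpow_neg hN0.le]
              field_simp
          _ ≤ _ := by
              apply mul_le_mul_of_nonneg_left _ (by positivity)
              exact Real.rpow_le_rpow_of_exponent_le hN1 (by norm_num)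
      have e2 : (1 / l0 + N * l2 / l0 ^ 2) / N ≤ D * (N ^ r / T) := by
        have e3 : 1 / l0 / N = 3 ^ (r + 1) * (N ^ r / T) / (Nat.factorial r : ℝ) := by
          rw [hl0, mul_pow]
          field_simp
          ring
        have e4 : N * l2 / l0 ^ 2 / N = (r + 1) * 3 ^ (2 * r + 2) * (N ^ r / T) / (Nat.factorial r : ℝ) := by
          rw [hl0, hl2, Nat.factorial_succ]
          push_cast
          field_simp
          ring
        have e7 : D * (N ^ r / T) = 3 ^ (r + 1) * (N ^ r / T) +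
            (r + 1) * 3 ^ (2 * r + 2) * (N ^ r / T) := by rw [hD]; ring
        rw [add_div, e3, e4, e7]
        apply add_le_add
        · exact div_le_self (by positivity) hf1
        · exact div_le_self (by positivity) hf1
      have e5 : ((1 + Real.log N) / H) ^ r ≤
          (2 * r) ^ r * (1 + Real.log N) ^ r * (t / (N ^ r * (N : ℝ) ^ (1 / 2 : ℝ))) := by
        have h13 : 0 ≤ 1 + Real.log N := by
          have := Real.log_nonneg hN1
          linarith
        calc ((1 + Real.log N) / H) ^ r ≤ ((1 + Real.log N) / (h₀ / 2)) ^ r := by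
              gcongr
          _ = 2 ^ r * (1 + Real.log N) ^ r / h₀ ^ r := by
              rw [div_div_eq_mul_div, div_pow, mul_pow]
              ring
          _ = _ := by
              rw [hhr, hq, mul_pow]
              field_simp
      have e6 : (1 / l0 + N * l2 / l0 ^ 2) / N * ((1 + Real.log N) / H) ^ r ≤
          2 * Real.pi * D * (2 * r) ^ r * (1 + 4 * r) ^ r * (N : ℝ) ^ (-(1 / 4) : ℝ) := by
        have h13 : 0 ≤ 1 + Real.log N := by
          have := Real.log_nonneg hN1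
          linarith
        calc (1 / l0 + N * l2 / l0 ^ 2) / N * ((1 + Real.log N) / H) ^ r
            ≤ (D * (N ^ r / T)) * ((2 * r) ^ r * (1 + Real.log N) ^ r *
                (t / (N ^ r * (N : ℝ) ^ (1 / 2 : ℝ)))) := by
              apply mul_le_mul e2 e5 (by positivity) (by positivity)
          _ = 2 * Real.pi * D * (2 * r) ^ r * ((1 + Real.log N) ^ r / (N : ℝ) ^ (1 / 2 : ℝ)) := by
              rw [hT]
              field_simp
          _ ≤ 2 * Real.pi * D * (2 * r) ^ r * (((1 + 4 * r) ^ r * (N : ℝ) ^ (1 / 4 : ℝ)) /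
                (N : ℝ) ^ (1 / 2 : ℝ)) := by
              have := exa_log r hr1 hN1
              gcongr
          _ = _ := by
              have h14 : (N : ℝ) ^ (1 / 4 : ℝ) / (N : ℝ) ^ (1 / 2 : ℝ) = (N : ℝ) ^ (-(1 / 4) : ℝ) := by
                rw [← Real.rpow_sub hN0]
                norm_num
              rw [mul_div_assoc, h14]
              ring
      calc Cw r * (N : ℝ) ^ (2 ^ r) * (1 / (H : ℝ) + (1 / l0 + N * l2 / l0 ^ 2) / N *
            ((1 + Real.log N) / H) ^ r)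
          ≤ Cw r * (N : ℝ) ^ (2 ^ r) * (2 * r * (N : ℝ) ^ (-(1 / 4) : ℝ) +
            2 * Real.pi * D * (2 * r) ^ r * (1 + 4 * r) ^ r * (N : ℝ) ^ (-(1 / 4) : ℝ)) := by
            apply mul_le_mul_of_nonneg_left (add_le_add e1 e6) (by positivity)
        _ = C₀ * ((N : ℝ) ^ (2 ^ r) * (N : ℝ) ^ (-(1 / 4) : ℝ)) := by
            rw [hC₀]
            ring
        _ = C₀ * (N : ℝ) ^ ((2 : ℝ) ^ r - 1 / 4) := by
            rw [← Real.rpow_natCast (N : ℝ) (2 ^ r), ← Real.rpow_add hN0]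
            push_cast
            ring_nf
    set C₁ : ℝ := max (max 1 (4 * (r : ℝ) ^ 2)) C₀ with hC₁
    have hC₁1 : 1 ≤ C₁ := le_trans (le_max_left _ _) (le_max_left _ _)
    have hpow : Z ^ (2 ^ r) ≤ (C₁ * (N : ℝ) ^ (1 - κ)) ^ (2 ^ r) := by
      rw [mul_pow]
      have h15 : ((N : ℝ) ^ (1 - κ)) ^ (2 ^ r) = (N : ℝ) ^ ((2 : ℝ) ^ r - 1 / 4) := by
        rw [← Real.rpow_natCast ((N : ℝ) ^ (1 - κ)), ← Real.rpow_mul hN0.le]
        congr 1
        rw [hκ]
        push_cast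
        field_simp
      rw [h15]
      refine hmain.trans ?_
      apply mul_le_mul_of_nonneg_right _ (by positivity)
      calc C₀ ≤ C₁ := le_max_right _ _
        _ = C₁ ^ 1 := (pow_one _).symm
        _ ≤ C₁ ^ (2 ^ r) := pow_le_pow_right₀ hC₁1 (Nat.one_le_two_pow)
    exact le_of_pow_le_pow_left₀ (by positivity) (by positivity) hpow

end Pool.Agent.PS

/-! ### Block EXB -/

/-! PS, block EXB: the sums `∑_{n < M} (n + α)^(iτ)` with the main term -/

namespace Pool.Agent.PS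

/-- the primitive of `(x + α)^(iτ)` -/
noncomputable def exb_P (α τ : ℝ) (x : ℝ) : ℂ :=
  ((x + α : ℝ) : ℂ) ^ (1 + (τ : ℂ) * Complex.I) / (1 + (τ : ℂ) * Complex.I)

theorem exb_s_re (τ : ℝ) : (1 + (τ : ℂ) * Complex.I).re = 1 := by simp

theorem exb_s_im (τ : ℝ) : (1 + (τ : ℂ) * Complex.I).im = τ := by simp

theorem exb_s_ne (τ : ℝ) : (1 + (τ : ℂ) * Complex.I) ≠ 0 := by
  intro h
  have := congrArg Complex.re h
  rw [exb_s_re] at this
  simp at this

theorem exb_s_one (τ : ℝ) : 1 ≤ ‖(1 + (τ : ℂ) * Complex.I)‖ := by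
  have := Complex.abs_re_le_norm (1 + (τ : ℂ) * Complex.I)
  rwa [exb_s_re, abs_one] at this

theorem exb_s_tau (τ : ℝ) : |τ| ≤ ‖(1 + (τ : ℂ) * Complex.I)‖ := by
  have := Complex.abs_im_le_norm (1 + (τ : ℂ) * Complex.I)
  rwa [exb_s_im] at this

theorem exb_norm_le (τ : ℝ) {r : ℝ} (hr : 0 ≤ r) : ‖(r : ℂ) ^ ((τ : ℂ) * Complex.I)‖ ≤ 1 := by
  rcases hr.eq_or_lt with h | h
  · rw [← h]
    by_cases hτ : τ = 0
    · simp [hτ]
    · rw [Complex.ofReal_zero, Complex.zero_cpow (by simp [hτ])]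
      simp
  · rw [Complex.norm_cpow_eq_rpow_re_of_pos h]
    simp

theorem exb_norm_P (τ : ℝ) {r : ℝ} (hr : 0 ≤ r) : ‖(r : ℂ) ^ (1 + (τ : ℂ) * Complex.I)‖ = r := by
  rcases hr.eq_or_lt with h | h
  · rw [← h, Complex.ofReal_zero, Complex.zero_cpow (exb_s_ne τ)]
    simp
  · rw [Complex.norm_cpow_eq_rpow_re_of_pos h, exb_s_re, Real.rpow_one]

theorem exb_P_le {α τ x : ℝ} (h : 0 ≤ x + α) : ‖exb_P α τ x‖ ≤ x + α := by
  unfold exb_P
  rw [norm_div, exb_norm_P τ h]
  exact div_le_self h (exb_s_one τ)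

theorem exb_P_le' {α τ x : ℝ} (h : 0 ≤ x + α) (hτ : 0 < |τ|) : ‖exb_P α τ x‖ ≤ (x + α) / |τ| := by
  unfold exb_P
  rw [norm_div, exb_norm_P τ h]
  exact div_le_div_of_nonneg_left h hτ (exb_s_tau τ)

theorem exb_pow (α : ℝ) (s : ℂ) {x : ℝ} (hx : 0 < x + α) :
    HasDerivAt (fun y : ℝ => ((y + α : ℝ) : ℂ) ^ s) (s * ((x + α : ℝ) : ℂ) ^ (s - 1) * 1) x := by
  have h1 : HasDerivAt (fun z : ℂ => z + (α : ℂ)) 1 (x : ℂ) := (hasDerivAt_id _).add_const _
  have h2 := (h1.cpow_const (c := s) (Or.inl (by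
    have : 0 < ((x : ℂ) + (α : ℂ)).re := by simpa using hx
    exact this))).comp_ofReal
  simpa using h2

theorem exb_der (α τ : ℝ) {x : ℝ} (hx : 0 < x + α) :
    HasDerivAt (exb_P α τ) (((x + α : ℝ) : ℂ) ^ ((τ : ℂ) * Complex.I)) x := by
  have h2 := (exb_pow α (1 + (τ : ℂ) * Complex.I) hx).div_const (1 + (τ : ℂ) * Complex.I)
  have e : (1 + (τ : ℂ) * Complex.I) * ((x + α : ℝ) : ℂ) ^ (1 + (τ : ℂ) * Complex.I - 1) * 1 /
      (1 + (τ : ℂ) * Complex.I) = ((x + α : ℝ) : ℂ) ^ ((τ : ℂ) * Complex.I) := by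
    rw [add_sub_cancel_left, mul_one, mul_div_cancel_left₀ _ (exb_s_ne τ)]
  rw [e] at h2
  exact h2

theorem exb_der2 (α τ : ℝ) {x : ℝ} (hx : 0 < x + α) :
    HasDerivAt (fun y : ℝ => ((y + α : ℝ) : ℂ) ^ ((τ : ℂ) * Complex.I))
      (((τ : ℂ) * Complex.I) * ((x + α : ℝ) : ℂ) ^ ((τ : ℂ) * Complex.I - 1)) x := by
  have h2 := exb_pow α ((τ : ℂ) * Complex.I) hx
  rw [mul_one] at h2
  exact h2

theorem exb_step {α τ N : ℝ} (hN : 0 < N) (hα : 0 ≤ α) (n : ℕ) (hn : N ≤ n) :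
    ‖((((n : ℝ) + α : ℝ) : ℂ) ^ ((τ : ℂ) * Complex.I)) -
      (exb_P α τ ((n + 1 : ℕ) : ℝ) - exb_P α τ (n : ℝ))‖ ≤ |τ| / N := by
  have hpos : ∀ x ∈ Set.Icc (n : ℝ) ((n : ℝ) + 1), N ≤ x + α := by
    intro x hx
    have := hx.1
    linarith
  have h1 : ∀ x ∈ Set.Icc (n : ℝ) ((n : ℝ) + 1),
      ‖((x + α : ℝ) : ℂ) ^ ((τ : ℂ) * Complex.I) -
        (((n : ℝ) + α : ℝ) : ℂ) ^ ((τ : ℂ) * Complex.I)‖ ≤ |τ| / N * (x - n) := by
    intro x hx
    apply norm_image_sub_le_of_norm_deriv_le_segment' (f := fun y : ℝ => ((y + α : ℝ) : ℂ) ^ ((τ : ℂ) * Complex.I))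
      (f' := fun y : ℝ => ((τ : ℂ) * Complex.I) * ((y + α : ℝ) : ℂ) ^ ((τ : ℂ) * Complex.I - 1))
      (a := (n : ℝ)) (b := (n : ℝ) + 1)
    · intro y hy
      exact (exb_der2 α τ (by linarith [hpos y hy])).hasDerivWithinAt
    · intro y hy
      have hy' := hpos y ⟨hy.1, hy.2.le⟩
      rw [norm_mul, Complex.norm_cpow_eq_rpow_re_of_pos (by linarith)]
      have e1 : ‖(τ : ℂ) * Complex.I‖ = |τ| := by simp
      have e2 : ((τ : ℂ) * Complex.I - 1).re = -1 := by simp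
      rw [e1, e2, Real.rpow_neg_one, ← div_eq_mul_inv]
      exact div_le_div_of_nonneg_left (abs_nonneg _) hN hy'
    · exact hx
  have h2 : ∀ x ∈ Set.Icc (n : ℝ) ((n : ℝ) + 1), HasDerivWithinAt
      (fun y : ℝ => exb_P α τ y - (y : ℂ) * (((n : ℝ) + α : ℝ) : ℂ) ^ ((τ : ℂ) * Complex.I))
      (((x + α : ℝ) : ℂ) ^ ((τ : ℂ) * Complex.I) -
        (((n : ℝ) + α : ℝ) : ℂ) ^ ((τ : ℂ) * Complex.I)) (Set.Icc (n : ℝ) ((n : ℝ) + 1)) x := by
    intro x hx
    have h3 := (exb_der α τ (x := x) (by linarith [hpos x hx]))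
    have h4 : HasDerivAt (fun y : ℝ => (y : ℂ) * (((n : ℝ) + α : ℝ) : ℂ) ^ ((τ : ℂ) * Complex.I))
        (1 * (((n : ℝ) + α : ℝ) : ℂ) ^ ((τ : ℂ) * Complex.I)) x := by
      have := (hasDerivAt_id x).ofReal_comp.mul_const ((((n : ℝ) + α : ℝ) : ℂ) ^ ((τ : ℂ) * Complex.I))
      simpa using this
    rw [one_mul] at h4
    exact (h3.sub h4).hasDerivWithinAt
  have h5 := norm_image_sub_le_of_norm_deriv_le_segment' (C := |τ| / N) h2
    (by
      intro x hx
      have hx' : x ∈ Set.Icc (n : ℝ) ((n : ℝ) + 1) := ⟨hx.1, hx.2.le⟩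
      refine (h1 x hx').trans ?_
      have h6 : x - n ≤ 1 := by linarith [hx.2]
      have h7 : 0 ≤ |τ| / N := by positivity
      nlinarith) ((n : ℝ) + 1) (Set.right_mem_Icc.2 (by linarith))
  have e : ((((n : ℝ) + α : ℝ) : ℂ) ^ ((τ : ℂ) * Complex.I)) -
      (exb_P α τ ((n + 1 : ℕ) : ℝ) - exb_P α τ (n : ℝ)) =
      -(exb_P α τ ((n : ℝ) + 1) - (((n : ℝ) + 1 : ℝ) : ℂ) * (((n : ℝ) + α : ℝ) : ℂ) ^ ((τ : ℂ) * Complex.I) -
        (exb_P α τ (n : ℝ) - ((n : ℝ) : ℂ) * (((n : ℝ) + α : ℝ) : ℂ) ^ ((τ : ℂ) * Complex.I))) := by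
    push_cast
    ring
  rw [e, norm_neg]
  refine h5.trans ?_
  rw [add_sub_cancel_left, mul_one]

theorem exb_block (A : ℝ) (hA : 1 ≤ A) : ∃ κ C : ℝ, 0 < κ ∧ κ ≤ 1 / 4 ∧ 1 ≤ C ∧
    ∀ (N a b : ℕ) (α τ : ℝ), 1 ≤ N → N ≤ a → a ≤ b → b ≤ 2 * N → 0 ≤ α → α ≤ 1 →
      |τ| ≤ (N : ℝ) ^ A →
      ‖∑ n ∈ Finset.Ico a b, (((n : ℝ) + α : ℝ) : ℂ) ^ ((τ : ℂ) * Complex.I) -
        (exb_P α τ b - exb_P α τ a)‖ ≤ C * (N : ℝ) ^ (1 - κ) := by
  obtain ⟨κ, C, hκ, hκ1, hC, h⟩ := exa A hA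
  refine ⟨κ, C + 6, hκ, hκ1, by linarith, ?_⟩
  intro N a b α τ hN hNa hab hbN hα hα1 hτ
  have hN1 : (1 : ℝ) ≤ N := by exact_mod_cast hN
  have hN0 : (0 : ℝ) < N := by linarith
  have hp0 : 0 < (N : ℝ) ^ (1 - κ) := by positivity
  have haN : (N : ℝ) ≤ a := by exact_mod_cast hNa
  have hbN' : (b : ℝ) ≤ 2 * N := by exact_mod_cast hbN
  have hab' : (a : ℝ) ≤ b := by exact_mod_cast hab
  rcases le_or_gt ((N : ℝ) ^ (3 / 4 : ℝ)) |τ| with h1 | h1
  · have h2 := h N a b α τ hN hNa hab hbN hα hα1 h1 hτ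
    have hτ0 : 0 < |τ| := lt_of_lt_of_le (by positivity) h1
    have h3 : ∀ x : ℝ, (N : ℝ) ≤ x → x ≤ 2 * N → ‖exb_P α τ x‖ ≤ 3 * (N : ℝ) ^ (1 - κ) := by
      intro x hx1 hx2
      refine (exb_P_le' (by linarith) hτ0).trans ?_
      rw [div_le_iff₀ hτ0]
      have h4 : (N : ℝ) ≤ (N : ℝ) ^ (1 - κ) * |τ| := by
        calc (N : ℝ) = (N : ℝ) ^ (1 : ℝ) := (Real.rpow_one _).symm
          _ ≤ (N : ℝ) ^ ((1 - κ) + 3 / 4) := Real.rpow_le_rpow_of_exponent_le hN1 (by linarith)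
          _ = (N : ℝ) ^ (1 - κ) * (N : ℝ) ^ (3 / 4 : ℝ) := Real.rpow_add hN0 _ _
          _ ≤ _ := mul_le_mul_of_nonneg_left h1 hp0.le
      linarith
    have h5 := h3 a haN (by linarith)
    have h6 := h3 b (by linarith) hbN'
    calc ‖_ - (exb_P α τ b - exb_P α τ a)‖ ≤ C * (N : ℝ) ^ (1 - κ) +
          (3 * (N : ℝ) ^ (1 - κ) + 3 * (N : ℝ) ^ (1 - κ)) :=
          (norm_sub_le _ _).trans (add_le_add h2 ((norm_sub_le _ _).trans (add_le_add h6 h5)))
      _ = _ := by ring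
  · have h2 : exb_P α τ b - exb_P α τ a = ∑ n ∈ Finset.Ico a b,
        (exb_P α τ ((n + 1 : ℕ) : ℝ) - exb_P α τ (n : ℝ)) := by
      rw [Finset.sum_Ico_sub (fun n : ℕ => exb_P α τ (n : ℝ)) hab]
    rw [h2, ← Finset.sum_sub_distrib]
    refine (norm_sum_le _ _).trans ?_
    have h3 : ∀ n ∈ Finset.Ico a b, ‖((((n : ℝ) + α : ℝ) : ℂ) ^ ((τ : ℂ) * Complex.I)) -
      (exb_P α τ ((n + 1 : ℕ) : ℝ) - exb_P α τ (n : ℝ))‖ ≤ |τ| / N := by
      intro n hn
      rw [Finset.mem_Ico] at hn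
      apply exb_step hN0 hα n
      have : (a : ℝ) ≤ n := by exact_mod_cast hn.1
      linarith
    refine (Finset.sum_le_sum h3).trans ?_
    rw [Finset.sum_const, Nat.card_Ico, nsmul_eq_mul]
    have h4 : ((b - a : ℕ) : ℝ) ≤ N := by exact_mod_cast (by omega : b - a ≤ N)
    calc ((b - a : ℕ) : ℝ) * (|τ| / N) ≤ N * (|τ| / N) :=
          mul_le_mul_of_nonneg_right h4 (by positivity)
      _ = |τ| := by field_simp
      _ ≤ (N : ℝ) ^ (3 / 4 : ℝ) := h1.le
      _ ≤ (N : ℝ) ^ (1 - κ) := Real.rpow_le_rpow_of_exponent_le hN1 (by linarith)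
      _ ≤ _ := by nlinarith

theorem exb (A : ℝ) (hA : 1 ≤ A) : ∃ κ C : ℝ, 0 < κ ∧ κ ≤ 1 / 4 ∧ 1 ≤ C ∧
    ∀ (x : ℝ) (M : ℕ) (α τ : ℝ), 1 ≤ x → (M : ℝ) ≤ x → 0 ≤ α → α ≤ 1 → |τ| ≤ x ^ A →
      ‖∑ n ∈ Finset.range M, (((n : ℝ) + α : ℝ) : ℂ) ^ ((τ : ℂ) * Complex.I) - exb_P α τ M‖ ≤
        C * x ^ (1 - κ) := by
  obtain ⟨κ, C, hκ, hκ1, hC, h⟩ := exb_block (4 * A) (by linarith)
  refine ⟨κ, 7 * C + 33, hκ, hκ1, by linarith, ?_⟩
  intro x M α τ hx hM hα hα1 hτ
  have hx0 : 0 < x := by linarith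
  have hxp : 1 ≤ x ^ (1 - κ) := Real.one_le_rpow hx (by linarith)
  -- the trivial bound
  have htriv : ∀ K : ℕ, ‖∑ n ∈ Finset.range K, (((n : ℝ) + α : ℝ) : ℂ) ^ ((τ : ℂ) * Complex.I) -
      exb_P α τ K‖ ≤ 2 * K + 1 := by
    intro K
    refine (norm_sub_le _ _).trans ?_
    have h1 : ‖∑ n ∈ Finset.range K, (((n : ℝ) + α : ℝ) : ℂ) ^ ((τ : ℂ) * Complex.I)‖ ≤ K := by
      refine (norm_sum_le _ _).trans ?_
      refine (Finset.sum_le_sum (fun n _ => exb_norm_le τ (by positivity))).trans ?_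
      simp
    have h2 : ‖exb_P α τ K‖ ≤ K + α := exb_P_le (by positivity)
    linarith
  rcases lt_or_ge x 16 with hx16 | hx16
  · refine (htriv M).trans ?_
    nlinarith
  · have hind : ∀ K : ℕ, (K : ℝ) ≤ x →
        ‖∑ n ∈ Finset.range K, (((n : ℝ) + α : ℝ) : ℂ) ^ ((τ : ℂ) * Complex.I) -
          exb_P α τ K‖ ≤ 3 * x ^ (1 / 2 : ℝ) + 7 * C * (K : ℝ) ^ (1 - κ) := by
      intro K
      induction K using Nat.strong_induction_on with
      | _ K ih =>
        intro hK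
        rcases le_or_gt (K : ℝ) (x ^ (1 / 2 : ℝ)) with h1 | h1
        · have h2 : 1 ≤ x ^ (1 / 2 : ℝ) := Real.one_le_rpow hx (by norm_num)
          have h3 : 0 ≤ 7 * C * (K : ℝ) ^ (1 - κ) := by positivity
          have := htriv K
          linarith
        · set N : ℕ := (K + 1) / 2 with hN
          have h4 : 4 ≤ x ^ (1 / 2 : ℝ) := by
            rw [← Real.sqrt_eq_rpow]
            apply Real.le_sqrt_of_sq_le
            linarith
          have hK4 : (4 : ℝ) < K := by linarith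
          have hK4' : 4 < K := by exact_mod_cast hK4
          have hN1 : 1 ≤ N := by omega
          have hNK : N < K := by omega
          have hKN : K ≤ 2 * N := by omega
          have hN34 : (N : ℝ) ≤ 3 / 4 * K := by
            have : 2 * N ≤ K + 1 := by omega
            have h5 : 2 * (N : ℝ) ≤ K + 1 := by exact_mod_cast this
            linarith
          have hNle : (N : ℝ) ≤ x := by
            have : (N : ℝ) ≤ K := by exact_mod_cast hNK.le
            linarith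
          have hNge : x ^ (1 / 2 : ℝ) / 2 ≤ N := by
            have : (K : ℝ) ≤ 2 * N := by exact_mod_cast hKN
            linarith
          have hτN : |τ| ≤ (N : ℝ) ^ (4 * A) := by
            refine hτ.trans ?_
            calc x ^ A ≤ ((x ^ (1 / 2 : ℝ) / 2) ^ (4 : ℝ)) ^ A := by
                  apply Real.rpow_le_rpow hx0.le _ (by linarith)
                  have e1 : (x ^ (1 / 2 : ℝ) / 2) ^ (4 : ℝ) = x * x / 16 := by
                    rw [show (4 : ℝ) = ((4 : ℕ) : ℝ) by norm_num, Real.rpow_natCast, div_pow]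
                    have e2 : (x ^ (1 / 2 : ℝ)) ^ 2 = x := by
                      rw [← Real.rpow_natCast, ← Real.rpow_mul hx0.le]
                      norm_num
                    have e3 : (x ^ (1 / 2 : ℝ)) ^ 4 = x * x := by
                      calc (x ^ (1 / 2 : ℝ)) ^ 4 = (x ^ (1 / 2 : ℝ)) ^ 2 * (x ^ (1 / 2 : ℝ)) ^ 2 := by ring
                        _ = x * x := by rw [e2]
                    rw [e3]
                    norm_num
                  rw [e1]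
                  nlinarith
              _ = (x ^ (1 / 2 : ℝ) / 2) ^ (4 * A) := by
                  rw [Real.rpow_mul (by positivity)]
              _ ≤ (N : ℝ) ^ (4 * A) := by
                  apply Real.rpow_le_rpow (by positivity) hNge (by linarith)
          have hb := h N N K α τ hN1 le_rfl hNK.le hKN hα hα1 hτN
          have hi := ih N hNK hNle
          have hsplit : ∑ n ∈ Finset.range K, (((n : ℝ) + α : ℝ) : ℂ) ^ ((τ : ℂ) * Complex.I) -
              exb_P α τ K = (∑ n ∈ Finset.range N, (((n : ℝ) + α : ℝ) : ℂ) ^ ((τ : ℂ) * Complex.I) -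
              exb_P α τ N) + (∑ n ∈ Finset.Ico N K, (((n : ℝ) + α : ℝ) : ℂ) ^ ((τ : ℂ) * Complex.I) -
              (exb_P α τ K - exb_P α τ N)) := by
            rw [← Finset.sum_range_add_sum_Ico _ hNK.le]
            ring
          have hNp : (N : ℝ) ^ (1 - κ) ≤ 7 / 8 * (K : ℝ) ^ (1 - κ) := by
            calc (N : ℝ) ^ (1 - κ) ≤ (3 / 4 * (K : ℝ)) ^ (1 - κ) :=
                  Real.rpow_le_rpow (by positivity) hN34 (by linarith)
              _ = (3 / 4 : ℝ) ^ (1 - κ) * (K : ℝ) ^ (1 - κ) := by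
                  rw [Real.mul_rpow (by norm_num) (by positivity)]
              _ ≤ 7 / 8 * (K : ℝ) ^ (1 - κ) := by
                  apply mul_le_mul_of_nonneg_right _ (by positivity)
                  calc (3 / 4 : ℝ) ^ (1 - κ) ≤ (3 / 4 : ℝ) ^ (1 / 2 : ℝ) :=
                        Real.rpow_le_rpow_of_exponent_ge (by norm_num) (by norm_num) (by linarith)
                    _ ≤ 7 / 8 := by
                        rw [← Real.sqrt_eq_rpow]
                        apply Real.sqrt_le_iff.2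
                        norm_num
          rw [hsplit]
          refine (norm_add_le _ _).trans ?_
          have hC0 : 0 ≤ C := by linarith
          nlinarith [mul_le_mul_of_nonneg_left hNp hC0]
    refine (hind M hM).trans ?_
    have h1 : x ^ (1 / 2 : ℝ) ≤ x ^ (1 - κ) := Real.rpow_le_rpow_of_exponent_le hx (by linarith)
    have h2 : (M : ℝ) ^ (1 - κ) ≤ x ^ (1 - κ) := Real.rpow_le_rpow (by positivity) hM (by linarith)
    have h3 : 0 ≤ C := by linarith
    nlinarith [mul_le_mul_of_nonneg_left h2 h3]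

end Pool.Agent.PS

/-! ### Block EXC -/

/-! PS, block EXC: the sums `∑ f(n) n^(iτ)` for periodic `f` -/

namespace Pool.Agent.PS

theorem exc_P_sub (τ : ℝ) {a b : ℝ} (ha : 0 < a) (hab : a ≤ b) :
    ‖(b : ℂ) ^ (1 + (τ : ℂ) * Complex.I) / (1 + (τ : ℂ) * Complex.I) -
      (a : ℂ) ^ (1 + (τ : ℂ) * Complex.I) / (1 + (τ : ℂ) * Complex.I)‖ ≤ b - a := by
  have h := norm_image_sub_le_of_norm_deriv_le_segment' (f := exb_P 0 τ)
    (f' := fun x => ((x + 0 : ℝ) : ℂ) ^ ((τ : ℂ) * Complex.I)) (C := 1) (a := a) (b := b)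
    (fun x hx => (exb_der 0 τ (by
      have := hx.1
      linarith)).hasDerivWithinAt)
    (fun x hx => exb_norm_le τ (by
      have := hx.1
      linarith)) b (Set.right_mem_Icc.2 hab)
  simp only [exb_P, add_zero, one_mul] at h
  exact h

theorem exc_term (m : ℕ) (hm : 1 ≤ m) (c j : ℕ) (τ : ℝ) :
    ((m * j + c : ℕ) : ℂ) ^ ((τ : ℂ) * Complex.I) =
      (m : ℂ) ^ ((τ : ℂ) * Complex.I) *
        (((j : ℝ) + (c : ℝ) / m : ℝ) : ℂ) ^ ((τ : ℂ) * Complex.I) := by
  have hm0 : (0 : ℝ) < m := by exact_mod_cast hm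
  have h1 : ((m * j + c : ℕ) : ℂ) = ((m : ℝ) : ℂ) * (((j : ℝ) + (c : ℝ) / m : ℝ) : ℂ) := by
    rw [← Complex.ofReal_mul]
    have : ((m * j + c : ℕ) : ℝ) = (m : ℝ) * ((j : ℝ) + (c : ℝ) / m) := by
      push_cast
      field_simp
    rw [← this]
    push_cast
    rfl
  rw [h1, Complex.mul_cpow_ofReal_nonneg hm0.le (by positivity)]
  simp

theorem exc_term' (m : ℕ) (hm : 1 ≤ m) (c j : ℕ) (τ : ℝ) :
    (m : ℂ) ^ ((τ : ℂ) * Complex.I) * exb_P ((c : ℝ) / m) τ j =
      (1 / (m : ℂ)) * ((((m * j + c : ℕ) : ℝ) : ℂ) ^ (1 + (τ : ℂ) * Complex.I) /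
        (1 + (τ : ℂ) * Complex.I)) := by
  have hm0 : (0 : ℝ) < m := by exact_mod_cast hm
  have hm1 : (m : ℂ) ≠ 0 := by exact_mod_cast hm0.ne'
  have h1 : (((m * j + c : ℕ) : ℝ) : ℂ) = ((m : ℝ) : ℂ) * (((j : ℝ) + (c : ℝ) / m : ℝ) : ℂ) := by
    rw [← Complex.ofReal_mul]
    congr 1
    push_cast
    field_simp
  rw [h1, Complex.mul_cpow_ofReal_nonneg hm0.le (by positivity)]
  unfold exb_P
  have h2 : ((m : ℝ) : ℂ) ^ (1 + (τ : ℂ) * Complex.I) = m * (m : ℂ) ^ ((τ : ℂ) * Complex.I) := by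
    rw [Complex.ofReal_natCast, Complex.cpow_add _ _ hm1, Complex.cpow_one]
  rw [h2]
  field_simp

theorem exc_split (m : ℕ) (J : ℕ) (F : ℕ → ℂ) :
    ∑ n ∈ Finset.range (m * J), F n = ∑ c ∈ Finset.range m, ∑ j ∈ Finset.range J, F (m * j + c) := by
  rw [Finset.sum_comm]
  induction J with
  | zero => simp
  | succ J ih =>
    rw [Finset.sum_range_succ, ← ih, Nat.mul_succ, Finset.sum_range_add]

theorem exc (A : ℝ) (hA : 1 ≤ A) (m : ℕ) (hm : 1 ≤ m) : ∃ κ C : ℝ, 0 < κ ∧ κ ≤ 1 / 4 ∧ 1 ≤ C ∧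
    ∀ f : ℕ → ℂ, (∀ n, f (n + m) = f n) → (∀ n, ‖f n‖ ≤ 1) → ∀ x τ : ℝ, 1 ≤ x → |τ| ≤ x ^ A →
      ‖∑ n ∈ Finset.Icc 1 ⌊x⌋₊, f n * (n : ℂ) ^ ((τ : ℂ) * Complex.I) -
        ((∑ c ∈ Finset.range m, f c) / m) * ((x : ℂ) ^ (1 + (τ : ℂ) * Complex.I) /
          (1 + (τ : ℂ) * Complex.I))‖ ≤ C * x ^ (1 - κ) := by
  obtain ⟨κ, C, hκ, hκ1, hC, h⟩ := exb A hA
  have hm0 : (1 : ℝ) ≤ m := by exact_mod_cast hm
  have hmp : (0 : ℝ) < m := by linarith
  refine ⟨κ, m * (2 * C + 3) + (m + 1), hκ, hκ1, by nlinarith, ?_⟩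
  intro f hf hfb x τ hx hτ
  have hx0 : 0 < x := by linarith
  have hxp : 1 ≤ x ^ (1 - κ) := Real.one_le_rpow hx (by linarith)
  set N : ℕ := ⌊x⌋₊ with hN
  have hNx : (N : ℝ) ≤ x := Nat.floor_le hx0.le
  have hxN : x < N + 1 := Nat.lt_floor_add_one x
  set J : ℕ := N / m + 1 with hJ
  have hJ1 : N + 1 ≤ m * J := by
    have h1 := Nat.lt_mul_div_succ N (show 0 < m by omega)
    rw [← hJ] at h1
    exact h1
  have hJ2 : m * J ≤ N + m := by
    have := Nat.mul_div_le N m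
    rw [hJ, Nat.mul_succ]
    omega
  have hJx : (J : ℝ) ≤ 2 * x := by
    have h1 : N / m ≤ N := Nat.div_le_self N m
    have h2 : (J : ℝ) ≤ N + 1 := by
      rw [hJ]
      push_cast
      have : ((N / m : ℕ) : ℝ) ≤ N := by exact_mod_cast h1
      linarith
    linarith
  have hfper : ∀ j c : ℕ, f (m * j + c) = f c := by
    intro j c
    induction j with
    | zero => simp
    | succ j ih =>
      rw [← ih, ← hf (m * j + c)]
      congr 1
      ring
  set G : ℕ → ℂ := fun n => f n * (n : ℂ) ^ ((τ : ℂ) * Complex.I) with hG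
  have hGb : ∀ n, ‖G n‖ ≤ 1 := by
    intro n
    simp only [hG]
    rw [norm_mul]
    have h1 : ‖(n : ℂ) ^ ((τ : ℂ) * Complex.I)‖ ≤ 1 := by
      have := exb_norm_le τ (r := (n : ℝ)) (by positivity)
      simpa using this
    calc ‖f n‖ * ‖(n : ℂ) ^ ((τ : ℂ) * Complex.I)‖ ≤ 1 * 1 :=
          mul_le_mul (hfb n) h1 (norm_nonneg _) (by norm_num)
      _ = 1 := by norm_num
  -- completing the range
  have hcomp : ‖∑ n ∈ Finset.Icc 1 N, G n - ∑ n ∈ Finset.range (m * J), G n‖ ≤ m + 1 := by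
    have h1 : ∑ n ∈ Finset.range (m * J), G n = ∑ n ∈ Finset.Icc 1 N, G n +
        (G 0 + ∑ n ∈ Finset.Ico (N + 1) (m * J), G n) := by
      rw [← Finset.sum_range_add_sum_Ico _ hJ1, Finset.range_eq_Ico,
        Finset.sum_eq_sum_Ico_succ_bot (by omega)]
      have : Finset.Ico (0 + 1) (N + 1) = Finset.Icc 1 N := by
        ext n
        simp only [Finset.mem_Ico, Finset.mem_Icc]
        omega
      rw [this]
      ring
    rw [h1, sub_add_cancel_left, norm_neg]
    refine (norm_add_le _ _).trans ?_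
    have h2 : ‖∑ n ∈ Finset.Ico (N + 1) (m * J), G n‖ ≤ m := by
      refine (norm_sum_le _ _).trans ((Finset.sum_le_sum fun n _ => hGb n).trans ?_)
      rw [Finset.sum_const, Nat.card_Ico, nsmul_eq_mul, mul_one]
      exact_mod_cast (by omega : m * J - (N + 1) ≤ m)
    linarith [hGb 0]
  -- the complete sum
  have hfull : ‖∑ n ∈ Finset.range (m * J), G n -
      ((∑ c ∈ Finset.range m, f c) / m) * ((x : ℂ) ^ (1 + (τ : ℂ) * Complex.I) /
          (1 + (τ : ℂ) * Complex.I))‖ ≤ m * ((2 * C + 3) * x ^ (1 - κ)) := by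
    rw [exc_split]
    have h1 : ∀ c ∈ Finset.range m, ∑ j ∈ Finset.range J, G (m * j + c) =
        f c * ((m : ℂ) ^ ((τ : ℂ) * Complex.I) *
          ∑ j ∈ Finset.range J, (((j : ℝ) + (c : ℝ) / m : ℝ) : ℂ) ^ ((τ : ℂ) * Complex.I)) := by
      intro c _
      rw [Finset.mul_sum, Finset.mul_sum]
      apply Finset.sum_congr rfl
      intro j _
      simp only [hG]
      rw [hfper, exc_term m hm]
    rw [Finset.sum_congr rfl h1]
    have h2 : ((∑ c ∈ Finset.range m, f c) / m) * ((x : ℂ) ^ (1 + (τ : ℂ) * Complex.I) /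
          (1 + (τ : ℂ) * Complex.I)) = ∑ c ∈ Finset.range m, f c * ((1 / (m : ℂ)) *
            ((x : ℂ) ^ (1 + (τ : ℂ) * Complex.I) / (1 + (τ : ℂ) * Complex.I))) := by
      rw [← Finset.sum_mul]
      ring
    rw [h2, ← Finset.sum_sub_distrib]
    refine (norm_sum_le _ _).trans ?_
    have h3 : ∀ c ∈ Finset.range m, ‖f c * ((m : ℂ) ^ ((τ : ℂ) * Complex.I) *
          ∑ j ∈ Finset.range J, (((j : ℝ) + (c : ℝ) / m : ℝ) : ℂ) ^ ((τ : ℂ) * Complex.I)) -
          f c * ((1 / (m : ℂ)) * ((x : ℂ) ^ (1 + (τ : ℂ) * Complex.I) /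
            (1 + (τ : ℂ) * Complex.I)))‖ ≤ (2 * C + 3) * x ^ (1 - κ) := by
      intro c hc
      rw [Finset.mem_range] at hc
      have hc1 : (c : ℝ) ≤ m := by exact_mod_cast hc.le
      rw [← mul_sub, norm_mul]
      have h4 := h (2 * x) J ((c : ℝ) / m) τ (by linarith) hJx (by positivity)
        (by rw [div_le_one hmp]; exact hc1)
        (hτ.trans (Real.rpow_le_rpow hx0.le (by linarith) (by linarith)))
      have h5 : ‖(m : ℂ) ^ ((τ : ℂ) * Complex.I)‖ ≤ 1 := by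
        have := exb_norm_le τ (r := (m : ℝ)) (by positivity)
        simpa using this
      have h6 : (m : ℂ) ^ ((τ : ℂ) * Complex.I) *
          ∑ j ∈ Finset.range J, (((j : ℝ) + (c : ℝ) / m : ℝ) : ℂ) ^ ((τ : ℂ) * Complex.I) -
          (1 / (m : ℂ)) * ((x : ℂ) ^ (1 + (τ : ℂ) * Complex.I) / (1 + (τ : ℂ) * Complex.I)) =
          (m : ℂ) ^ ((τ : ℂ) * Complex.I) * (∑ j ∈ Finset.range J,
            (((j : ℝ) + (c : ℝ) / m : ℝ) : ℂ) ^ ((τ : ℂ) * Complex.I) - exb_P ((c : ℝ) / m) τ J) +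
          (1 / (m : ℂ)) * ((((m * J + c : ℕ) : ℝ) : ℂ) ^ (1 + (τ : ℂ) * Complex.I) /
            (1 + (τ : ℂ) * Complex.I) - (x : ℂ) ^ (1 + (τ : ℂ) * Complex.I) /
              (1 + (τ : ℂ) * Complex.I)) := by
        rw [mul_sub, mul_sub, exc_term' m hm]
        ring
      have h7 : x ≤ ((m * J + c : ℕ) : ℝ) := by
        have : ((N + 1 : ℕ) : ℝ) ≤ ((m * J + c : ℕ) : ℝ) := by exact_mod_cast (by omega)
        push_cast at this ⊢
        linarith
      have h8 : ((m * J + c : ℕ) : ℝ) - x ≤ 2 * m + 1 := by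
        have : ((m * J + c : ℕ) : ℝ) ≤ ((N + m + m : ℕ) : ℝ) := by exact_mod_cast (by omega)
        push_cast at this ⊢
        linarith
      have h9 := exc_P_sub τ hx0 h7
      have h10 : ‖(1 / (m : ℂ))‖ = 1 / m := by simp
      have h11 : (2 * x) ^ (1 - κ) ≤ 2 * x ^ (1 - κ) := by
        rw [Real.mul_rpow (by norm_num) hx0.le]
        apply mul_le_mul_of_nonneg_right _ (by positivity)
        calc (2 : ℝ) ^ (1 - κ) ≤ 2 ^ (1 : ℝ) :=
              Real.rpow_le_rpow_of_exponent_le (by norm_num) (by linarith)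
          _ = 2 := Real.rpow_one _
      rw [h6]
      have h12 : ‖(m : ℂ) ^ ((τ : ℂ) * Complex.I) * (∑ j ∈ Finset.range J,
            (((j : ℝ) + (c : ℝ) / m : ℝ) : ℂ) ^ ((τ : ℂ) * Complex.I) - exb_P ((c : ℝ) / m) τ J)‖ ≤
            1 * (C * (2 * x) ^ (1 - κ)) := by
        rw [norm_mul]
        exact mul_le_mul h5 h4 (norm_nonneg _) (by norm_num)
      have h13 : ‖(1 / (m : ℂ)) * ((((m * J + c : ℕ) : ℝ) : ℂ) ^ (1 + (τ : ℂ) * Complex.I) /
            (1 + (τ : ℂ) * Complex.I) - (x : ℂ) ^ (1 + (τ : ℂ) * Complex.I) /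
              (1 + (τ : ℂ) * Complex.I))‖ ≤ 3 := by
        rw [norm_mul, h10, one_div, inv_mul_le_iff₀ hmp]
        linarith
      have h14 : ‖f c‖ ≤ 1 := hfb c
      calc ‖f c‖ * ‖_‖ ≤ 1 * (1 * (C * (2 * x) ^ (1 - κ)) + 3) := by
            apply mul_le_mul h14 ((norm_add_le _ _).trans (add_le_add h12 h13)) (norm_nonneg _)
              (by norm_num)
        _ ≤ (2 * C + 3) * x ^ (1 - κ) := by
            have : C * (2 * x) ^ (1 - κ) ≤ C * (2 * x ^ (1 - κ)) :=
              mul_le_mul_of_nonneg_left h11 (by linarith)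
            nlinarith
    refine (Finset.sum_le_sum h3).trans ?_
    rw [Finset.sum_const, Finset.card_range, nsmul_eq_mul]
  have hfin : ∑ n ∈ Finset.Icc 1 N, G n -
        ((∑ c ∈ Finset.range m, f c) / m) * ((x : ℂ) ^ (1 + (τ : ℂ) * Complex.I) /
          (1 + (τ : ℂ) * Complex.I)) = (∑ n ∈ Finset.Icc 1 N, G n - ∑ n ∈ Finset.range (m * J), G n) +
          (∑ n ∈ Finset.range (m * J), G n - ((∑ c ∈ Finset.range m, f c) / m) *
            ((x : ℂ) ^ (1 + (τ : ℂ) * Complex.I) / (1 + (τ : ℂ) * Complex.I))) := by ring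
  rw [hfin]
  refine (norm_add_le _ _).trans ?_
  nlinarith [hcomp, hfull]

end Pool.Agent.PS

/-! ### Block WIN -/

/-! PS, block WIN: sums over one period `(x/e, x]` with the weight `1/n` -/

namespace Pool.Agent.PS

open Filter Topology MeasureTheory

theorem win_per (k : ℤ) {a : ℝ} (ha : 0 < a) :
    ((a * Real.exp 1 : ℝ) : ℂ) ^ (((2 * Real.pi * k : ℝ) : ℂ) * Complex.I) =
      (a : ℂ) ^ (((2 * Real.pi * k : ℝ) : ℂ) * Complex.I) := by
  rw [Complex.ofReal_mul, Complex.mul_cpow_ofReal_nonneg ha.le (Real.exp_pos 1).le]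
  have h1 : ((Real.exp 1 : ℝ) : ℂ) ^ (((2 * Real.pi * k : ℝ) : ℂ) * Complex.I) = 1 := by
    rw [Complex.cpow_def_of_ne_zero (by exact_mod_cast (Real.exp_pos 1).ne'),
      ← Complex.ofReal_log (Real.exp_pos 1).le, Real.log_exp]
    have := Complex.exp_int_mul_two_pi_mul_I k
    rw [← this]
    congr 1
    push_cast
    ring
  rw [h1, mul_one]

theorem win_int (k : ℤ) (hk : k ≠ 0) {a : ℝ} (ha : 0 < a) :
    ∫ t in Set.Ioc a (a * Real.exp 1),
      (t : ℂ) ^ (((2 * Real.pi * k : ℝ) : ℂ) * Complex.I - 1) = 0 := by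
  have h1 : a ≤ a * Real.exp 1 := by
    have := Real.add_one_le_exp (1 : ℝ)
    nlinarith
  have hτ : ((2 * Real.pi * k : ℝ) : ℂ) * Complex.I ≠ 0 := by
    have h2 : (k : ℝ) ≠ 0 := by exact_mod_cast hk
    have h3 : (2 * Real.pi * k : ℝ) ≠ 0 := by
      have := Real.pi_ne_zero
      positivity
    exact mul_ne_zero (by exact_mod_cast h3) Complex.I_ne_zero
  rw [← intervalIntegral.integral_of_le h1, integral_cpow]
  · rw [sub_add_cancel, win_per k ha, sub_self, zero_div]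
  · right
    refine ⟨?_, ?_⟩
    · intro h
      apply hτ
      have := congrArg (· + 1) h
      simpa using this
    · rw [Set.uIcc_of_le h1, Set.mem_Icc]
      intro h
      linarith [h.1]

theorem win_sq {t : ℝ} (ht : 0 < t) (τ : ℝ) :
    ((t : ℂ)⁻¹) ^ 2 * (t : ℂ) ^ (1 + (τ : ℂ) * Complex.I) = (t : ℂ) ^ ((τ : ℂ) * Complex.I - 1) := by
  have ht0 : (t : ℂ) ≠ 0 := by exact_mod_cast ht.ne'
  rw [Complex.cpow_add _ _ ht0, Complex.cpow_sub _ _ ht0, Complex.cpow_one]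
  field_simp

theorem win_one {t : ℝ} (ht : 0 < t) (τ : ℝ) :
    (t : ℂ)⁻¹ * (t : ℂ) ^ (1 + (τ : ℂ) * Complex.I) = (t : ℂ) ^ ((τ : ℂ) * Complex.I) := by
  have ht0 : (t : ℂ) ≠ 0 := by exact_mod_cast ht.ne'
  rw [Complex.cpow_add _ _ ht0, Complex.cpow_one]
  field_simp

theorem win_f (A : ℝ) (hA : 1 ≤ A) (m : ℕ) (hm : 1 ≤ m) : ∃ κ C : ℝ, 0 < κ ∧ κ ≤ 1 / 4 ∧ 1 ≤ C ∧
    ∀ f : ℕ → ℂ, (∀ n, f (n + m) = f n) → (∀ n, ‖f n‖ ≤ 1) → ∀ x : ℝ, 1 ≤ x →
      ∀ k : ℤ, k ≠ 0 → |(k : ℝ)| ≤ x ^ A →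
        ‖∑ n ∈ PB x, f n * ang k n / (n : ℂ)‖ ≤ C * x ^ (-κ) := by
  classical
  obtain ⟨κ, C, hκ, hκ1, hC, h⟩ := exc (2 * A) (by linarith) m hm
  refine ⟨κ, 150 + 12 * C, hκ, hκ1, by linarith, ?_⟩
  intro f hf hfb x hx k hk hkx
  have hx0 : 0 < x := by linarith
  have he1 : (2.7 : ℝ) < Real.exp 1 := by
    have := Real.exp_one_gt_d9
    linarith
  have he2 : Real.exp 1 < 2.72 := by
    have := Real.exp_one_lt_d9
    linarith
  have he0 : 0 < Real.exp 1 := by linarith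
  have hxκ : 0 < x ^ (-κ) := by positivity
  have hangb : ∀ n : ℕ, ‖ang k n‖ ≤ 1 := by
    intro n
    have := exb_norm_le (2 * Real.pi * k) (r := (n : ℝ)) (by positivity)
    simpa [ang, tw] using this
  set a : ℝ := x / Real.exp 1 with ha
  have ha0 : 0 < a := by positivity
  have hax : a * Real.exp 1 = x := by rw [ha]; field_simp
  have hax1 : a ≤ x := by
    rw [ha, div_le_iff₀ he0]
    nlinarith
  rcases lt_or_ge x 50 with hsm | hbig
  · -- small `x`
    have h1 : ‖∑ n ∈ PB x, f n * ang k n / (n : ℂ)‖ ≤ 3 := by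
      refine (norm_sum_le _ _).trans ?_
      have h2 : ∀ n ∈ PB x, ‖f n * ang k n / (n : ℂ)‖ ≤ Real.exp 1 / x := by
        intro n hn
        rw [PB, Finset.mem_filter] at hn
        have hn0 : (0 : ℝ) < n := lt_trans ha0 hn.2
        rw [norm_div, norm_mul, Complex.norm_natCast]
        have h3 : ‖f n‖ * ‖ang k n‖ ≤ 1 := by
          calc _ ≤ (1 : ℝ) * 1 := mul_le_mul (hfb n) (hangb n) (norm_nonneg _) (by norm_num)
            _ = 1 := by norm_num
        rw [div_le_div_iff₀ hn0 hx0]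
        have h4 : x < n * Real.exp 1 := by
          have := hn.2
          rw [div_lt_iff₀ he0] at this
          exact this
        nlinarith [norm_nonneg (f n), norm_nonneg (ang k n)]
      refine (Finset.sum_le_sum h2).trans ?_
      rw [Finset.sum_const, nsmul_eq_mul]
      have h5 : ((PB x).card : ℝ) ≤ x := by
        have h6 : (PB x).card ≤ ⌊x⌋₊ := by
          refine (Finset.card_filter_le _ _).trans ?_
          simp [Bl]
        calc ((PB x).card : ℝ) ≤ ⌊x⌋₊ := by exact_mod_cast h6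
          _ ≤ x := Nat.floor_le hx0.le
      calc ((PB x).card : ℝ) * (Real.exp 1 / x) ≤ x * (Real.exp 1 / x) :=
            mul_le_mul_of_nonneg_right h5 (by positivity)
        _ = Real.exp 1 := by field_simp
        _ ≤ 3 := by linarith
    have h2 : (1 : ℝ) ≤ 50 * x ^ (-κ) := by
      rw [Real.rpow_neg hx0.le, ← div_eq_mul_inv, le_div_iff₀ (by positivity), one_mul]
      calc x ^ κ ≤ x ^ (1 : ℝ) := Real.rpow_le_rpow_of_exponent_le hx (by linarith)
        _ = x := Real.rpow_one _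
        _ ≤ 50 := hsm.le
    nlinarith
  · set τ : ℝ := 2 * Real.pi * k with hτ
    set r : ℂ := (∑ c ∈ Finset.range m, f c) / m with hr
    set c : ℕ → ℂ := fun n => if n = 0 then 0 else f n * ang k n with hc
    set G : ℝ → ℂ := fun t => (t : ℂ) ^ (1 + (τ : ℂ) * Complex.I) / (1 + (τ : ℂ) * Complex.I) with hG
    set B : ℝ → ℂ := fun t => ∑ n ∈ Finset.Icc 0 ⌊t⌋₊, c n with hB
    have hBeq : ∀ t : ℝ, B t = ∑ n ∈ Finset.Icc 1 ⌊t⌋₊, f n * (n : ℂ) ^ ((τ : ℂ) * Complex.I) := by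
      intro t
      simp only [hB]
      rw [← Finset.insert_Icc_add_one_left_eq_Icc (Nat.zero_le _), Finset.sum_insert (by simp)]
      simp only [hc, if_true, zero_add]
      apply Finset.sum_congr rfl
      intro n hn
      rw [Finset.mem_Icc] at hn
      rw [if_neg (by omega)]
      simp only [ang, tw, hτ]
    set E : ℝ → ℂ := fun t => B t - r * G t with hE
    have ha1 : 1 ≤ a := by
      rw [ha, le_div_iff₀ he0]
      linarith
    have hEb : ∀ t : ℝ, a ≤ t → ‖E t‖ ≤ C * t ^ (1 - κ) := by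
      intro t ht
      have h1 : |τ| ≤ t ^ (2 * A) := by
        have e1 : |τ| ≤ 2 * Real.pi * x ^ A := by
          rw [hτ, abs_mul, abs_of_pos (by positivity)]
          exact mul_le_mul_of_nonneg_left hkx (by positivity)
        have e2 : 2 * Real.pi * x ^ A ≤ a ^ (2 * A) := by
          have e3 : (2 * Real.pi * x) ^ A ≤ (a ^ (2 : ℝ)) ^ A := by
            apply Real.rpow_le_rpow (by positivity) _ (by linarith)
            have e4 : a ^ (2 : ℝ) = x * x / (Real.exp 1 * Real.exp 1) := by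
              rw [Real.rpow_two, ha]
              ring
            rw [e4, le_div_iff₀ (by positivity)]
            have e5 : 2 * Real.pi * (Real.exp 1 * Real.exp 1) ≤ 50 := by
              have := Real.pi_lt_d2
              have := Real.pi_pos
              nlinarith
            nlinarith
          have e6 : 2 * Real.pi * x ^ A ≤ (2 * Real.pi * x) ^ A := by
            rw [Real.mul_rpow (by positivity) hx0.le]
            apply mul_le_mul_of_nonneg_right _ (by positivity)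
            have e7 : (1 : ℝ) ≤ 2 * Real.pi := by
              have := Real.pi_gt_three
              linarith
            calc 2 * Real.pi = (2 * Real.pi) ^ (1 : ℝ) := (Real.rpow_one _).symm
              _ ≤ _ := Real.rpow_le_rpow_of_exponent_le e7 hA
          rw [Real.rpow_mul ha0.le]
          exact e6.trans e3
        exact e1.trans (e2.trans (Real.rpow_le_rpow ha0.le ht (by linarith)))
      have h2 := h f hf hfb t τ (by linarith) h1
      simp only [hE, hG]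
      rw [hBeq]
      exact h2
    -- Abel summation
    have hdiff : ∀ t ∈ Set.Icc a x, HasDerivAt (fun t : ℝ => ((t : ℂ)⁻¹)) (-((t : ℂ)⁻¹) ^ 2) t := by
      intro t ht
      have ht0 : t ≠ 0 := by linarith [ht.1]
      have h1 := ((hasDerivAt_inv (x := (t : ℂ)) (by exact_mod_cast ht0))).comp_ofReal
      convert h1 using 1
      rw [inv_pow]
    have hcont : ContinuousOn (fun t : ℝ => -((t : ℂ)⁻¹) ^ 2) (Set.Icc a x) := by
      apply ContinuousOn.neg
      apply ContinuousOn.pow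
      apply ContinuousOn.inv₀ (Complex.continuous_ofReal.continuousOn)
      intro t ht
      have ht0 : t ≠ 0 := by linarith [ht.1]
      exact_mod_cast ht0
    have hderiv : ∀ t ∈ Set.Icc a x, deriv (fun t : ℝ => ((t : ℂ)⁻¹)) t = -((t : ℂ)⁻¹) ^ 2 :=
      fun t ht => (hdiff t ht).deriv
    have hdint : IntegrableOn (deriv (fun t : ℝ => ((t : ℂ)⁻¹))) (Set.Icc a x) := by
      apply (hcont.integrableOn_Icc).congr_fun _ measurableSet_Icc
      intro t ht
      exact (hderiv t ht).symm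
    have habel := sum_mul_eq_sub_sub_integral_mul c ha0.le hax1
      (fun t ht => (hdiff t ht).differentiableAt) hdint
    have hsum : ∑ n ∈ PB x, f n * ang k n / (n : ℂ) =
        ∑ n ∈ Finset.Ioc ⌊a⌋₊ ⌊x⌋₊, ((n : ℝ) : ℂ)⁻¹ * c n := by
      have e1 : PB x = Finset.Ioc ⌊a⌋₊ ⌊x⌋₊ := by
        ext n
        rw [PB, Finset.mem_filter, Bl, Finset.mem_Icc, Finset.mem_Ioc, ← ha, Nat.floor_lt ha0.le]
        constructor
        · rintro ⟨h1, h2⟩
          exact ⟨h2, h1.2⟩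
        · rintro ⟨h1, h2⟩
          refine ⟨⟨?_, h2⟩, h1⟩
          have : (0 : ℝ) < n := lt_trans ha0 h1
          exact_mod_cast this
      rw [e1]
      apply Finset.sum_congr rfl
      intro n hn
      rw [Finset.mem_Ioc] at hn
      simp only [hc]
      rw [if_neg (by omega)]
      push_cast
      ring
    rw [hsum, habel]
    -- the integral
    have hGc : ContinuousOn G (Set.Icc a x) := by
      intro t ht
      have ht0 : 0 < t := by linarith [ht.1]
      have := (exb_der 0 τ (x := t) (by linarith)).continuousAt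
      have e2 : exb_P 0 τ = G := by
        funext y
        simp only [exb_P, hG, add_zero]
      rw [e2] at this
      exact this.continuousWithinAt
    have hI1 : IntegrableOn (fun t : ℝ => (-((t : ℂ)⁻¹) ^ 2) * (r * G t)) (Set.Ioc a x) :=
      ((hcont.mul (continuousOn_const.mul hGc)).integrableOn_Icc).mono_set Set.Ioc_subset_Icc_self
    have hI2 : IntegrableOn (fun t : ℝ => (-((t : ℂ)⁻¹) ^ 2) * B t) (Set.Ioc a x) := by
      have := integrableOn_mul_sum_Icc (m := 0) c ha0.le (hcont.integrableOn_Icc)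
      exact this.mono_set Set.Ioc_subset_Icc_self
    have hI3 : IntegrableOn (fun t : ℝ => (-((t : ℂ)⁻¹) ^ 2) * E t) (Set.Ioc a x) := by
      have := hI2.sub hI1
      apply this.congr_fun _ measurableSet_Ioc
      intro t _
      simp only [hE, Pi.sub_apply]
      ring
    have hint : ∫ t in Set.Ioc a x, deriv (fun t : ℝ => ((t : ℂ)⁻¹)) t * ∑ n ∈ Finset.Icc 0 ⌊t⌋₊, c n =
        ∫ t in Set.Ioc a x, (-((t : ℂ)⁻¹) ^ 2) * E t := by
      have e1 : ∫ t in Set.Ioc a x, deriv (fun t : ℝ => ((t : ℂ)⁻¹)) t * ∑ n ∈ Finset.Icc 0 ⌊t⌋₊, c n =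
          ∫ t in Set.Ioc a x, ((-((t : ℂ)⁻¹) ^ 2) * (r * G t) + (-((t : ℂ)⁻¹) ^ 2) * E t) := by
        apply setIntegral_congr_fun measurableSet_Ioc
        intro t ht
        simp only
        rw [hderiv t (Set.Ioc_subset_Icc_self ht)]
        simp only [hE, hB]
        ring
      rw [e1, integral_add hI1 hI3]
      have e2 : ∫ t in Set.Ioc a x, (-((t : ℂ)⁻¹) ^ 2) * (r * G t) = 0 := by
        have e3 : ∫ t in Set.Ioc a x, (-((t : ℂ)⁻¹) ^ 2) * (r * G t) =
            ∫ t in Set.Ioc a x, (-r / (1 + (τ : ℂ) * Complex.I)) *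
              (t : ℂ) ^ ((τ : ℂ) * Complex.I - 1) := by
          apply setIntegral_congr_fun measurableSet_Ioc
          intro t ht
          have ht0 : 0 < t := lt_trans ha0 ht.1
          simp only [hG]
          rw [← win_sq ht0 τ]
          ring
        rw [e3, integral_const_mul]
        have e4 := win_int k hk ha0
        rw [hax] at e4
        rw [hτ]
        rw [e4, mul_zero]
      rw [e2, zero_add]
    rw [hint]
    have hbd : ((x : ℝ) : ℂ)⁻¹ * ∑ n ∈ Finset.Icc 0 ⌊x⌋₊, c n - ((a : ℝ) : ℂ)⁻¹ * ∑ n ∈ Finset.Icc 0 ⌊a⌋₊, c n =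
        ((x : ℝ) : ℂ)⁻¹ * E x - ((a : ℝ) : ℂ)⁻¹ * E a := by
      have e1 : ((x : ℝ) : ℂ)⁻¹ * G x = ((a : ℝ) : ℂ)⁻¹ * G a := by
        simp only [hG]
        rw [← mul_div_assoc, ← mul_div_assoc, win_one hx0, win_one ha0]
        have e2 := win_per k ha0
        rw [hax] at e2
        rw [hτ, e2]
      have e3 : ∀ t : ℝ, ∑ n ∈ Finset.Icc 0 ⌊t⌋₊, c n = r * G t + E t := by
        intro t
        simp only [hE, hB]
        ring
      rw [e3 x, e3 a]
      have e4 : ((x : ℝ) : ℂ)⁻¹ * (r * G x) = ((a : ℝ) : ℂ)⁻¹ * (r * G a) := by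
        calc ((x : ℝ) : ℂ)⁻¹ * (r * G x) = r * (((x : ℝ) : ℂ)⁻¹ * G x) := by ring
          _ = _ := by rw [e1]; ring
      rw [mul_add, mul_add, e4]
      ring
    rw [hbd]
    -- the bounds
    have haκ : a ^ (-κ) ≤ 3 * x ^ (-κ) := by
      rw [ha, Real.div_rpow hx0.le he0.le]
      have e1 : (Real.exp 1) ^ κ ≤ 3 := by
        calc (Real.exp 1) ^ κ ≤ (Real.exp 1) ^ (1 : ℝ) :=
              Real.rpow_le_rpow_of_exponent_le (by linarith) (by linarith)
          _ = Real.exp 1 := Real.rpow_one _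
          _ ≤ 3 := by linarith
      rw [Real.rpow_neg he0.le, div_inv_eq_mul, mul_comm]
      exact mul_le_mul_of_nonneg_right e1 hxκ.le
    have hb1 : ∀ t : ℝ, a ≤ t → ‖((t : ℝ) : ℂ)⁻¹ * E t‖ ≤ 3 * C * x ^ (-κ) := by
      intro t ht
      have ht0 : 0 < t := by linarith
      rw [norm_mul, norm_inv, Complex.norm_real, Real.norm_of_nonneg ht0.le]
      calc t⁻¹ * ‖E t‖ ≤ t⁻¹ * (C * t ^ (1 - κ)) :=
            mul_le_mul_of_nonneg_left (hEb t ht) (by positivity)
        _ = C * t ^ (-κ) := by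
            have : t ^ (1 - κ) = t * t ^ (-κ) := by
              rw [Real.rpow_sub ht0, Real.rpow_one, Real.rpow_neg ht0.le, div_eq_mul_inv]
            rw [this]
            field_simp
        _ ≤ C * a ^ (-κ) := by
            apply mul_le_mul_of_nonneg_left _ (by linarith)
            exact Real.rpow_le_rpow_of_nonpos ha0 ht (by linarith)
        _ ≤ C * (3 * x ^ (-κ)) := mul_le_mul_of_nonneg_left haκ (by linarith)
        _ = _ := by ring
    have hb2 : ‖∫ t in Set.Ioc a x, (-((t : ℂ)⁻¹) ^ 2) * E t‖ ≤ 6 * C * x ^ (-κ) := by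
      have e1 : ∀ t ∈ Set.Ioc a x, ‖(-((t : ℂ)⁻¹) ^ 2) * E t‖ ≤ 3 * C * x ^ (-κ) * a⁻¹ := by
        intro t ht
        have ht0 : 0 < t := lt_trans ha0 ht.1
        have e2 : (-((t : ℂ)⁻¹) ^ 2) * E t = -((t : ℂ)⁻¹) * (((t : ℝ) : ℂ)⁻¹ * E t) := by ring
        rw [e2, norm_mul, norm_neg, norm_inv, Complex.norm_real, Real.norm_of_nonneg ht0.le]
        have e3 : t⁻¹ ≤ a⁻¹ := inv_anti₀ ha0 ht.1.le
        calc t⁻¹ * ‖((t : ℝ) : ℂ)⁻¹ * E t‖ ≤ a⁻¹ * (3 * C * x ^ (-κ)) :=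
              mul_le_mul e3 (hb1 t ht.1.le) (norm_nonneg _) (by positivity)
          _ = _ := by ring
      have e4 := norm_setIntegral_le_of_norm_le_const (μ := volume) (s := Set.Ioc a x)
        (C := 3 * C * x ^ (-κ) * a⁻¹) (by
          rw [Real.volume_Ioc]
          exact ENNReal.ofReal_lt_top) e1
      refine e4.trans ?_
      rw [Measure.real, Real.volume_Ioc, ENNReal.toReal_ofReal (by linarith)]
      have e5 : a⁻¹ * (x - a) ≤ 2 := by
        rw [inv_mul_le_iff₀ ha0, ← hax]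
        nlinarith
      calc 3 * C * x ^ (-κ) * a⁻¹ * (x - a) = (3 * C * x ^ (-κ)) * (a⁻¹ * (x - a)) := by ring
        _ ≤ (3 * C * x ^ (-κ)) * 2 := mul_le_mul_of_nonneg_left e5 (by positivity)
        _ = _ := by ring
    have hfin : ‖((x : ℝ) : ℂ)⁻¹ * E x - ((a : ℝ) : ℂ)⁻¹ * E a -
        ∫ t in Set.Ioc a x, (-((t : ℂ)⁻¹) ^ 2) * E t‖ ≤ 12 * C * x ^ (-κ) := by
      have e1 := hb1 x hax1
      have e2 := hb1 a le_rfl
      calc _ ≤ (3 * C * x ^ (-κ) + 3 * C * x ^ (-κ)) + 6 * C * x ^ (-κ) :=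
            (norm_sub_le _ _).trans (add_le_add ((norm_sub_le _ _).trans (add_le_add e1 e2)) hb2)
        _ = _ := by ring
    refine hfin.trans ?_
    nlinarith

end Pool.Agent.PS

namespace Pool.Agent.PS

theorem exp_win_pr (A : ℝ) (hA : 1 ≤ A) : ∃ κ C : ℝ, 0 < κ ∧ κ ≤ 1 / 4 ∧ 1 ≤ C ∧
    ∀ x : ℝ, 1 ≤ x → ∀ k : ℤ, k ≠ 0 → |(k : ℝ)| ≤ x ^ A →
      ‖∑ n ∈ PB x, ang k n / n‖ ≤ C * x ^ (-κ) := by
  obtain ⟨κ, C, hκ, hκ1, hC, h⟩ := win_f A hA 1 le_rfl
  refine ⟨κ, C, hκ, hκ1, hC, fun x hx k hk hkx => ?_⟩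
  have := h (fun _ => 1) (fun _ => rfl) (fun _ => by simp) x hx k hk hkx
  simpa using this

end Pool.Agent.PS

/-! ### Block LBD -/

/-! PS, block LBD: the size of `L(s, χ)` to the right of the line `Re s = 1` -/

namespace Pool.Agent.PS

open Filter Topology MeasureTheory

theorem lbd_tail {F : ℕ → ℂ} (hF : ∀ n, ‖F n‖ ≤ 1) {κ C U δ : ℝ} (hκ : 0 < κ)
    (hC : 1 ≤ C) (hU : 1 ≤ U) (hδ : 0 ≤ δ) (hκ1 : κ ≤ 1 / 4)
    (hb : ∀ x : ℝ, U ≤ x → ‖∑ n ∈ Finset.Icc 1 ⌊x⌋₊, F n‖ ≤ δ * x + C * x ^ (1 - κ)) {σ : ℝ}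
    (hσ : 1 < σ) (hσ2 : σ ≤ 2) :
    ‖LSeries F σ‖ ≤ (1 + Real.log U) + 4 * δ / (σ - 1) + 4 * C / κ := by
  classical
  have hU0 : 0 < U := by linarith
  set F1 : ℕ → ℂ := fun n => if n ≤ ⌊U⌋₊ then F n else 0 with hF1
  set F2 : ℕ → ℂ := fun n => if n ≤ ⌊U⌋₊ then 0 else F n with hF2
  have hF1b : ∀ n, ‖F1 n‖ ≤ 1 := by
    intro n
    simp only [hF1]
    split_ifs
    · exact hF n
    · simp
  have hF2b : ∀ n, ‖F2 n‖ ≤ 1 := by
    intro n
    simp only [hF2]
    split_ifs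
    · simp
    · exact hF n
  have hre : ((σ : ℝ) : ℂ).re = σ := Complex.ofReal_re σ
  have hs1 : LSeriesSummable F1 σ :=
    LSeriesSummable_of_bounded_of_one_lt_real (fun n _ => hF1b n) hσ
  have hs2 : LSeriesSummable F2 σ :=
    LSeriesSummable_of_bounded_of_one_lt_real (fun n _ => hF2b n) hσ
  have hdec : LSeries F σ = LSeries F1 σ + LSeries F2 σ := by
    rw [← LSeries_add hs1 hs2]
    congr 1
    funext n
    simp only [hF1, hF2, Pi.add_apply]
    split_ifs <;> simp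
  -- the finite part
  have hfin : ‖LSeries F1 σ‖ ≤ 1 + Real.log U := by
    have h1 : LSeries F1 σ = ∑ n ∈ Finset.Icc 1 ⌊U⌋₊, LSeries.term F1 σ n := by
      unfold LSeries
      apply tsum_eq_sum
      intro n hn
      rw [Finset.mem_Icc, not_and_or] at hn
      rcases Nat.eq_zero_or_pos n with rfl | h0
      · simp
      · have : ¬ n ≤ ⌊U⌋₊ := by omega
        rw [LSeries.term_of_ne_zero (by omega)]
        simp only [hF1]
        rw [if_neg this, zero_div]
    rw [h1]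
    refine (norm_sum_le _ _).trans ?_
    have h2 : ∀ n ∈ Finset.Icc 1 ⌊U⌋₊, ‖LSeries.term F1 σ n‖ ≤ 1 / (n : ℝ) := by
      intro n hn
      rw [Finset.mem_Icc] at hn
      have hn1 : (1 : ℝ) ≤ n := by exact_mod_cast hn.1
      rw [LSeries.term_of_ne_zero (by omega), norm_div, Complex.norm_natCast_cpow_of_pos (by omega)]
      rw [hre]
      have h3 : (n : ℝ) ≤ (n : ℝ) ^ σ := by
        calc (n : ℝ) = (n : ℝ) ^ (1 : ℝ) := (Real.rpow_one _).symm
          _ ≤ _ := Real.rpow_le_rpow_of_exponent_le hn1 hσ.le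
      exact div_le_div₀ zero_le_one (hF1b n) (by linarith) h3
    refine (Finset.sum_le_sum h2).trans ?_
    have h4 := harmonic_le_one_add_log ⌊U⌋₊
    have h5 : ((harmonic ⌊U⌋₊ : ℚ) : ℝ) = ∑ n ∈ Finset.Icc 1 ⌊U⌋₊, 1 / (n : ℝ) := by
      rw [harmonic_eq_sum_Icc]
      push_cast
      simp
    rw [h5] at h4
    refine h4.trans ?_
    have h6 : Real.log ⌊U⌋₊ ≤ Real.log U := by
      apply Real.log_le_log
      · have : 1 ≤ ⌊U⌋₊ := Nat.le_floor (by simpa using hU)
        exact_mod_cast this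
      · exact Nat.floor_le hU0.le
    linarith
  -- the tail
  have hbound : ∀ u : ℝ, 1 ≤ u → ‖∑ k ∈ Finset.Icc 1 ⌊u⌋₊, F2 k‖ ≤
      2 * δ * u + 2 * C * u ^ (1 - κ) := by
    intro u hu
    rcases lt_or_ge u U with h | h
    · have : ∑ k ∈ Finset.Icc 1 ⌊u⌋₊, F2 k = 0 := by
        apply Finset.sum_eq_zero
        intro n hn
        rw [Finset.mem_Icc] at hn
        simp only [hF2]
        rw [if_pos (hn.2.trans (Nat.floor_le_floor h.le))]
      rw [this, norm_zero]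
      positivity
    · have hfl : ⌊U⌋₊ ≤ ⌊u⌋₊ := Nat.floor_le_floor h
      have h1 : ∑ k ∈ Finset.Icc 1 ⌊u⌋₊, F2 k = ∑ k ∈ Finset.Icc 1 ⌊u⌋₊, F k -
          ∑ k ∈ Finset.Icc 1 ⌊U⌋₊, F k := by
        have e1 : Finset.Icc 1 ⌊u⌋₊ = Finset.Icc 1 ⌊U⌋₊ ∪ Finset.Ioc ⌊U⌋₊ ⌊u⌋₊ := by
          ext n
          simp only [Finset.mem_Icc, Finset.mem_union, Finset.mem_Ioc]
          omega
        have e2 : Disjoint (Finset.Icc 1 ⌊U⌋₊) (Finset.Ioc ⌊U⌋₊ ⌊u⌋₊) := by
          rw [Finset.disjoint_left]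
          intro n hn hn'
          rw [Finset.mem_Icc] at hn
          rw [Finset.mem_Ioc] at hn'
          omega
        rw [e1, Finset.sum_union e2, Finset.sum_union e2]
        have e3 : ∑ k ∈ Finset.Icc 1 ⌊U⌋₊, F2 k = 0 := by
          apply Finset.sum_eq_zero
          intro n hn
          rw [Finset.mem_Icc] at hn
          simp only [hF2]
          rw [if_pos hn.2]
        have e4 : ∑ k ∈ Finset.Ioc ⌊U⌋₊ ⌊u⌋₊, F2 k = ∑ k ∈ Finset.Ioc ⌊U⌋₊ ⌊u⌋₊, F k := by
          apply Finset.sum_congr rfl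
          intro n hn
          rw [Finset.mem_Ioc] at hn
          simp only [hF2]
          rw [if_neg (by omega)]
        rw [e3, e4]
        ring
      rw [h1]
      have h3 : U ^ (1 - κ) ≤ u ^ (1 - κ) := Real.rpow_le_rpow (by linarith) h (by linarith)
      have h4 := hb u h
      have h5 := hb U le_rfl
      refine (norm_sub_le _ _).trans ?_
      nlinarith
  have hO : (fun n : ℕ => ∑ k ∈ Finset.Icc 1 n, F2 k) =O[atTop] fun n => (n : ℝ) ^ (1 : ℝ) := by
    apply Asymptotics.IsBigO.of_bound 1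
    filter_upwards with n
    rw [Real.rpow_one, Real.norm_of_nonneg (by positivity), one_mul]
    refine (norm_sum_le _ _).trans ((Finset.sum_le_sum fun k _ => hF2b k).trans ?_)
    simp
  have hint := LSeries_eq_mul_integral F2 (r := 1) (by norm_num) (s := (σ : ℂ))
    (by rw [hre]; exact hσ) hs2 hO
  have htail : ‖LSeries F2 σ‖ ≤ 4 * δ / (σ - 1) + 4 * C / κ := by
    have hlt1 : -σ < -1 := by linarith
    have hlt2 : -κ - σ < -1 := by linarith
    have hI1 := integrableOn_Ioi_rpow_of_lt hlt1 (show (0 : ℝ) < 1 by norm_num)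
    have hI2 := integrableOn_Ioi_rpow_of_lt hlt2 (show (0 : ℝ) < 1 by norm_num)
    rw [hint, norm_mul]
    have h1 : ‖∫ t in Set.Ioi (1 : ℝ), (∑ k ∈ Finset.Icc 1 ⌊t⌋₊, F2 k) * (t : ℂ) ^ (-((σ : ℂ) + 1))‖ ≤
        2 * δ / (σ - 1) + 2 * C / κ := by
      refine (norm_integral_le_of_norm_le ((hI1.const_mul (2 * δ)).add (hI2.const_mul (2 * C))) ?_).trans ?_
      · rw [ae_restrict_iff' measurableSet_Ioi]
        refine Eventually.of_forall fun t ht => ?_
        have ht1 : 1 < t := ht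
        have ht0 : 0 < t := by linarith
        rw [norm_mul, Complex.norm_cpow_eq_rpow_re_of_pos ht0]
        have e0 : (-((σ : ℂ) + 1)).re = -σ - 1 := by simp; ring
        rw [e0]
        have e1 : t * t ^ (-σ - 1) = t ^ (-σ) := by
          nth_rewrite 1 [← Real.rpow_one t]
          rw [← Real.rpow_add ht0]
          congr 1
          ring
        have e2 : t ^ (1 - κ) * t ^ (-σ - 1) = t ^ (-κ - σ) := by
          rw [← Real.rpow_add ht0]
          congr 1
          ring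
        calc ‖∑ k ∈ Finset.Icc 1 ⌊t⌋₊, F2 k‖ * t ^ (-σ - 1) ≤
              (2 * δ * t + 2 * C * t ^ (1 - κ)) * t ^ (-σ - 1) :=
              mul_le_mul_of_nonneg_right (hbound t ht1.le) (by positivity)
          _ = 2 * δ * (t * t ^ (-σ - 1)) + 2 * C * (t ^ (1 - κ) * t ^ (-σ - 1)) := by ring
          _ = 2 * δ * t ^ (-σ) + 2 * C * t ^ (-κ - σ) := by rw [e1, e2]
      · simp only [Pi.add_apply]
        rw [integral_add (hI1.const_mul (2 * δ)) (hI2.const_mul (2 * C)), integral_const_mul,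
          integral_const_mul, integral_Ioi_rpow_of_lt hlt1 (by norm_num),
          integral_Ioi_rpow_of_lt hlt2 (by norm_num), Real.one_rpow, Real.one_rpow]
        have e3 : -1 / (-σ + 1) = 1 / (σ - 1) := by
          rw [← neg_div_neg_eq]
          congr 1 <;> ring
        have e4 : -1 / (-κ - σ + 1) ≤ 1 / κ := by
          rw [← neg_div_neg_eq, neg_neg]
          apply one_div_le_one_div_of_le hκ
          linarith
        rw [e3]
        have e5 : 2 * C * (-1 / (-κ - σ + 1)) ≤ 2 * C * (1 / κ) :=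
          mul_le_mul_of_nonneg_left e4 (by linarith)
        calc 2 * δ * (1 / (σ - 1)) + 2 * C * (-1 / (-κ - σ + 1)) ≤
              2 * δ * (1 / (σ - 1)) + 2 * C * (1 / κ) := by linarith
          _ = _ := by ring
    have h2 : ‖(σ : ℂ)‖ ≤ 2 := by
      rw [Complex.norm_real, Real.norm_of_nonneg (by linarith)]
      exact hσ2
    have h3 : 0 ≤ 2 * δ / (σ - 1) + 2 * C / κ := by
      have : 0 < σ - 1 := by linarith
      positivity
    calc ‖(σ : ℂ)‖ * ‖_‖ ≤ 2 * (2 * δ / (σ - 1) + 2 * C / κ) :=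
          mul_le_mul h2 h1 (norm_nonneg _) (by norm_num)
      _ = _ := by ring
  rw [hdec]
  refine (norm_add_le _ _).trans ?_
  linarith

theorem lbd {m : ℕ} [NeZero m] (χ : DirichletCharacter ℂ m) (θ K : ℝ) (hθ : 0 < θ) (hK : 1 ≤ K) :
    ∃ T₀ L₀ : ℝ, 1 ≤ T₀ ∧ 1 ≤ L₀ ∧ ∀ L : ℝ, L₀ ≤ L → ∀ τ : ℝ, T₀ ≤ |τ| → |τ| ≤ Real.exp (K * L) →
      ‖LSeries (fun n => χ n) ((1 + 1 / L : ℝ) + τ * Complex.I)‖ ≤ θ * L := by
  set A : ℝ := max 1 (2 * K / θ) with hA
  have hA1 : 1 ≤ A := le_max_left _ _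
  have hm : 1 ≤ m := Nat.one_le_iff_ne_zero.2 (NeZero.ne m)
  have hm0 : (0 : ℝ) < m := by exact_mod_cast hm
  obtain ⟨κ, C, hκ, hκ1, hC, h⟩ := exc A hA1 m hm
  refine ⟨max 1 (16 / θ), max 1 ((1 + 4 * C / κ) * (4 / θ)), le_max_left _ _, le_max_left _ _, ?_⟩
  intro L hL τ hτ1 hτ2
  have hL1 : 1 ≤ L := le_trans (le_max_left _ _) hL
  have hL2 : (1 + 4 * C / κ) * (4 / θ) ≤ L := le_trans (le_max_right _ _) hL
  have hτ3 : 1 ≤ |τ| := le_trans (le_max_left _ _) hτ1
  have hτ4 : 16 / θ ≤ |τ| := le_trans (le_max_right _ _) hτ1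
  have hL0 : 0 < L := by linarith
  set σ : ℝ := 1 + 1 / L with hσdef
  have hσ1 : 1 < σ := by
    have : 0 < 1 / L := by positivity
    linarith
  have hσ2 : σ ≤ 2 := by
    have : 1 / L ≤ 1 := by rw [div_le_one hL0]; exact hL1
    linarith
  set F : ℕ → ℂ := fun n => χ n * (n : ℂ) ^ (((-τ : ℝ) : ℂ) * Complex.I) with hF
  have hFb : ∀ n, ‖F n‖ ≤ 1 := by
    intro n
    simp only [hF]
    rw [norm_mul]
    have h1 : ‖(n : ℂ) ^ (((-τ : ℝ) : ℂ) * Complex.I)‖ ≤ 1 := by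
      have := exb_norm_le (-τ) (r := (n : ℝ)) (by positivity)
      simpa using this
    calc ‖χ n‖ * ‖(n : ℂ) ^ (((-τ : ℝ) : ℂ) * Complex.I)‖ ≤ 1 * 1 :=
          mul_le_mul (χ.norm_le_one _) h1 (norm_nonneg _) (by norm_num)
      _ = 1 := by norm_num
  have heq : LSeries (fun n => χ n) ((σ : ℝ) + τ * Complex.I) = LSeries F σ := by
    unfold LSeries
    apply tsum_congr
    intro n
    rcases eq_or_ne n 0 with rfl | hn
    · simp
    · rw [LSeries.term_of_ne_zero hn, LSeries.term_of_ne_zero hn]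
      have hn0 : (n : ℂ) ≠ 0 := by exact_mod_cast hn
      simp only [hF]
      rw [Complex.cpow_add _ _ hn0]
      have e1 : ((-τ : ℝ) : ℂ) * Complex.I = -((τ : ℂ) * Complex.I) := by push_cast; ring
      rw [e1, Complex.cpow_neg]
      have e2 : (n : ℂ) ^ ((τ : ℂ) * Complex.I) ≠ 0 := by
        rw [Complex.cpow_ne_zero_iff]
        exact Or.inl hn0
      field_simp
  rw [heq]
  set U : ℝ := Real.exp (θ / 2 * L) with hU
  have hU1 : 1 ≤ U := by
    rw [hU]; exact Real.one_le_exp (by positivity)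
  have hU0 : 0 < U := by linarith
  have hτ0 : 0 < |τ| := by linarith
  set r : ℂ := (∑ c ∈ Finset.range m, χ c) / m with hr
  have hr1 : ‖r‖ ≤ 1 := by
    rw [hr, norm_div, Complex.norm_natCast, div_le_one hm0]
    refine (norm_sum_le _ _).trans ((Finset.sum_le_sum fun c _ => χ.norm_le_one _).trans ?_)
    simp
  have hb : ∀ x : ℝ, U ≤ x → ‖∑ n ∈ Finset.Icc 1 ⌊x⌋₊, F n‖ ≤ 1 / |τ| * x + C * x ^ (1 - κ) := by
    intro x hx
    have hx1 : 1 ≤ x := hU1.trans hx
    have hx0 : 0 < x := by linarith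
    have hτx : |(-τ)| ≤ x ^ A := by
      rw [abs_neg]
      refine hτ2.trans ?_
      have e1 : Real.exp (K * L) = U ^ (2 * K / θ) := by
        rw [hU, ← Real.exp_mul]
        congr 1
        field_simp
      rw [e1]
      calc U ^ (2 * K / θ) ≤ x ^ (2 * K / θ) := Real.rpow_le_rpow hU0.le hx (by positivity)
        _ ≤ x ^ A := Real.rpow_le_rpow_of_exponent_le hx1 (le_max_right _ _)
    have h1 := h (fun n => χ n) (by intro n; simp) (fun n => χ.norm_le_one _) x (-τ) hx1 hτx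
    have h2 : ‖(x : ℂ) ^ (1 + ((-τ : ℝ) : ℂ) * Complex.I) / (1 + ((-τ : ℝ) : ℂ) * Complex.I)‖ ≤
        x / |τ| := by
      rw [norm_div, exb_norm_P (-τ) hx0.le]
      have := exb_s_tau (-τ)
      rw [abs_neg] at this
      exact div_le_div_of_nonneg_left hx0.le hτ0 this
    have h3 : ‖r * ((x : ℂ) ^ (1 + ((-τ : ℝ) : ℂ) * Complex.I) /
        (1 + ((-τ : ℝ) : ℂ) * Complex.I))‖ ≤ 1 / |τ| * x := by
      rw [norm_mul]
      calc ‖r‖ * _ ≤ 1 * (x / |τ|) := mul_le_mul hr1 h2 (norm_nonneg _) (by norm_num)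
        _ = _ := by ring
    have h4 : ∑ n ∈ Finset.Icc 1 ⌊x⌋₊, F n = r * ((x : ℂ) ^ (1 + ((-τ : ℝ) : ℂ) * Complex.I) /
        (1 + ((-τ : ℝ) : ℂ) * Complex.I)) + (∑ n ∈ Finset.Icc 1 ⌊x⌋₊, F n -
        r * ((x : ℂ) ^ (1 + ((-τ : ℝ) : ℂ) * Complex.I) / (1 + ((-τ : ℝ) : ℂ) * Complex.I))) := by
      ring
    rw [h4]
    exact (norm_add_le _ _).trans (add_le_add h3 h1)
  have hfin := lbd_tail hFb hκ hC hU1 (by positivity) hκ1 hb hσ1 hσ2
  refine hfin.trans ?_
  have hlogU : Real.log U = θ / 2 * L := by rw [hU, Real.log_exp]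
  have e2 : σ - 1 = 1 / L := by rw [hσdef]; ring
  rw [hlogU, e2]
  have e3 : 4 * (1 / |τ|) / (1 / L) = 4 / |τ| * L := by field_simp
  have e4 : 4 / |τ| ≤ θ / 4 := by
    rw [div_le_iff₀ hτ0]
    rw [div_le_iff₀ hθ] at hτ4
    linarith
  have e5 : 1 + 4 * C / κ ≤ θ / 4 * L := by
    have h5 : (1 + 4 * C / κ) * (4 / θ) * (θ / 4) ≤ L * (θ / 4) :=
      mul_le_mul_of_nonneg_right hL2 (by positivity)
    have h6 : (1 + 4 * C / κ) * (4 / θ) * (θ / 4) = 1 + 4 * C / κ := by field_simp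
    linarith
  rw [e3]
  nlinarith [mul_le_mul_of_nonneg_right e4 hL0.le]

end Pool.Agent.PS

/-! ### Block INV -/

/-! PS, block INV: lower bounds for `L(s, χ)` to the right of the line `Re s = 1` -/

namespace Pool.Agent.PS

open Filter Topology

/-- a continuous function without zeros on a rectangle -/
theorem inv_cpt (g : ℂ → ℂ) (hg : Continuous g) (h0 : ∀ s : ℂ, 1 ≤ s.re → g s ≠ 0) (T : ℝ) :
    ∃ c : ℝ, 0 < c ∧ ∀ s : ℂ, 1 ≤ s.re → s.re ≤ 2 → |s.im| ≤ T → c ≤ ‖g s‖ := by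
  have hK : IsCompact (Set.Icc (1 : ℝ) 2 ×ℂ Set.Icc (-T) T) := isCompact_Icc.reProdIm isCompact_Icc
  rcases (Set.Icc (1 : ℝ) 2 ×ℂ Set.Icc (-T) T).eq_empty_or_nonempty with he | hne
  · refine ⟨1, one_pos, fun s h1 h2 h3 => ?_⟩
    have : s ∈ (Set.Icc (1 : ℝ) 2 ×ℂ Set.Icc (-T) T) := by
      rw [Complex.mem_reProdIm]
      exact ⟨⟨h1, h2⟩, abs_le.1 h3⟩
    rw [he] at this
    exact absurd this (Set.notMem_empty _)
  · obtain ⟨s0, hs0, hmin⟩ := hK.exists_isMinOn hne (hg.norm.continuousOn)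
    have hs0' := hs0
    rw [Complex.mem_reProdIm] at hs0'
    refine ⟨‖g s0‖, norm_pos_iff.2 (h0 s0 hs0'.1.1), fun s h1 h2 h3 => ?_⟩
    apply hmin
    rw [Complex.mem_reProdIm]
    exact ⟨⟨h1, h2⟩, abs_le.1 h3⟩

theorem inv_near {m : ℕ} [NeZero m] (χ : DirichletCharacter ℂ m) (T : ℝ) :
    ∃ c : ℝ, 0 < c ∧ ∀ s : ℂ, 1 < s.re → s.re ≤ 2 → |s.im| ≤ T →
      c ≤ ‖LSeries (fun n => χ n) s‖ := by
  by_cases hχ : χ = 1
  · obtain ⟨c, hc, h⟩ := inv_cpt (DirichletCharacter.LFunctionTrivChar₁ m)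
      (DirichletCharacter.differentiable_LFunctionTrivChar₁ m).continuous (by
        intro s hs
        by_cases h1 : s = 1
        · rw [h1]
          exact DirichletCharacter.LFunctionTrivChar₁_apply_one_ne_zero m
        · rw [DirichletCharacter.LFunctionTrivChar₁, Function.update_of_ne h1]
          apply mul_ne_zero (sub_ne_zero.2 h1)
          exact DirichletCharacter.LFunction_ne_zero_of_one_le_re 1 (Or.inr h1) hs) T
    have hT : 0 < 1 + |T| := by positivity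
    refine ⟨c / (1 + |T|), by positivity, fun s h1 h2 h3 => ?_⟩
    have hs1 : s ≠ 1 := by
      intro h4
      rw [h4] at h1
      simp at h1
    have h4 := h s h1.le h2 h3
    rw [DirichletCharacter.LFunctionTrivChar₁, Function.update_of_ne hs1, norm_mul,
      DirichletCharacter.LFunctionTrivChar,
      DirichletCharacter.LFunction_eq_LSeries 1 h1] at h4
    have h5 : ‖s - 1‖ ≤ 1 + |T| := by
      refine (Complex.norm_le_abs_re_add_abs_im _).trans ?_
      have e1 : |(s - 1).re| ≤ 1 := by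
        rw [abs_le]
        constructor
        · simp; linarith
        · simp; linarith
      have e2 : |(s - 1).im| ≤ |T| := by
        have : (s - 1).im = s.im := by simp
        rw [this]
        exact h3.trans (le_abs_self T)
      linarith
    rw [hχ, div_le_iff₀ hT]
    calc c ≤ ‖s - 1‖ * ‖LSeries (fun n => (1 : DirichletCharacter ℂ m) n) s‖ := h4
      _ ≤ (1 + |T|) * ‖LSeries (fun n => (1 : DirichletCharacter ℂ m) n) s‖ :=
          mul_le_mul_of_nonneg_right h5 (norm_nonneg _)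
      _ = _ := mul_comm _ _
  · obtain ⟨c, hc, h⟩ := inv_cpt (DirichletCharacter.LFunction χ)
      (DirichletCharacter.differentiable_LFunction hχ).continuous
      (fun s hs => DirichletCharacter.LFunction_ne_zero_of_one_le_re χ (Or.inl hχ) hs) T
    refine ⟨c, hc, fun s h1 h2 h3 => ?_⟩
    have h4 := h s h1.le h2 h3
    rw [DirichletCharacter.LFunction_eq_LSeries χ h1] at h4
    exact h4

theorem inv_one {m : ℕ} [NeZero m] (σ : ℝ) (hσ : 1 < σ) (hσ2 : σ ≤ 2) :
    ‖LSeries (fun n => (1 : DirichletCharacter ℂ m) n) σ‖ ≤ 21 / (σ - 1) := by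
  have h := lbd_tail (F := fun n => (1 : DirichletCharacter ℂ m) n)
    (fun n => (1 : DirichletCharacter ℂ m).norm_le_one _) (κ := 1 / 4) (C := 1) (U := 1) (δ := 1)
    (by norm_num) le_rfl le_rfl (by norm_num) le_rfl (by
      intro x hx
      have h1 : ‖∑ n ∈ Finset.Icc 1 ⌊x⌋₊, (1 : DirichletCharacter ℂ m) n‖ ≤ x := by
        refine (norm_sum_le _ _).trans ((Finset.sum_le_sum fun n _ =>
          (1 : DirichletCharacter ℂ m).norm_le_one _).trans ?_)
        simp only [Finset.sum_const, Nat.card_Icc, Nat.add_sub_cancel, nsmul_eq_mul, mul_one]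
        exact Nat.floor_le (by linarith)
      have h2 : 0 ≤ x ^ (1 - 1 / 4 : ℝ) := by positivity
      linarith) hσ hσ2
  refine h.trans ?_
  have h1 : 0 < σ - 1 := by linarith
  have h2 : 1 ≤ 1 / (σ - 1) := by
    rw [le_div_iff₀ h1]
    linarith
  rw [Real.log_one]
  have e1 : 4 * 1 / (σ - 1) = 4 * (1 / (σ - 1)) := by ring
  have e2 : 21 / (σ - 1) = 21 * (1 / (σ - 1)) := by ring
  rw [e1, e2]
  norm_num
  rw [one_div] at h2
  linarith

theorem inv_bd {m : ℕ} [NeZero m] (χ : DirichletCharacter ℂ m) (η K : ℝ) (hη : 0 < η) (hK : 1 ≤ K) :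
    ∃ L₀ : ℝ, 1 ≤ L₀ ∧ ∀ L : ℝ, L₀ ≤ L → ∀ τ : ℝ, |τ| ≤ Real.exp (K * L) →
      1 ≤ η * L * ‖LSeries (fun n => χ n) ((1 + 1 / L : ℝ) + τ * Complex.I)‖ := by
  set θ : ℝ := η ^ 4 / 9261 with hθ
  have hθ0 : 0 < θ := by positivity
  obtain ⟨T₀, L₁, hT₀, hL₁, hlbd⟩ := lbd (χ ^ 2) θ (K + 1) hθ0 (by linarith)
  obtain ⟨c, hc, hnear⟩ := inv_near χ T₀
  refine ⟨max L₁ (max 1 (1 / (η * c))), le_trans (le_max_left _ _) (le_max_right _ _), ?_⟩
  intro L hL τ hτ
  have hLL1 : L₁ ≤ L := le_trans (le_max_left _ _) hL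
  have hL1 : 1 ≤ L := le_trans (le_trans (le_max_left _ _) (le_max_right _ _)) hL
  have hL2 : 1 / (η * c) ≤ L := le_trans (le_trans (le_max_right _ _) (le_max_right _ _)) hL
  have hL0 : 0 < L := by linarith
  set σ : ℝ := 1 + 1 / L with hσdef
  have hσ1 : 1 < σ := by
    have : 0 < 1 / L := by positivity
    linarith
  have hσ2 : σ ≤ 2 := by
    have : 1 / L ≤ 1 := by rw [div_le_one hL0]; exact hL1
    linarith
  rcases le_or_gt |τ| T₀ with hs | hb
  · have h1 := hnear ((σ : ℝ) + τ * Complex.I) (by simpa using hσ1) (by simpa using hσ2)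
      (by simpa using hs)
    have h2 : 1 ≤ η * L * c := by
      rw [div_le_iff₀ (by positivity)] at hL2
      linarith
    calc (1 : ℝ) ≤ η * L * c := h2
      _ ≤ _ := mul_le_mul_of_nonneg_left h1 (by positivity)
  · have h1 := DirichletCharacter.norm_LSeries_product_ge_one χ (x := 1 / L) (by positivity) τ
    rw [norm_mul, norm_mul, norm_pow, norm_pow] at h1
    have e1 : (1 + ((1 / L : ℝ) : ℂ)) = ((σ : ℝ) : ℂ) := by rw [hσdef]; push_cast; ring
    have e2 : (1 + ((1 / L : ℝ) : ℂ) + Complex.I * (τ : ℂ)) = ((σ : ℝ) : ℂ) + τ * Complex.I := by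
      rw [hσdef]; push_cast; ring
    have e3 : (1 + ((1 / L : ℝ) : ℂ) + 2 * Complex.I * (τ : ℂ)) =
        ((1 + 1 / L : ℝ) : ℂ) + ((2 * τ : ℝ) : ℂ) * Complex.I := by
      push_cast; ring
    rw [e2, e3, e1] at h1
    set y : ℝ := ‖LSeries (fun n => χ n) ((σ : ℝ) + τ * Complex.I)‖ with hy
    have hy0 : 0 ≤ y := norm_nonneg _
    have h2 := inv_one (m := m) σ hσ1 hσ2
    have e4 : 21 / (σ - 1) = 21 * L := by
      rw [hσdef]
      field_simp
      ring
    rw [e4] at h2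
    have h3 := hlbd L hLL1 (2 * τ) (by
      rw [abs_mul, abs_two]
      linarith) (by
      rw [abs_mul, abs_two]
      have h4 : (2 : ℝ) ≤ Real.exp L := by
        have := Real.add_one_le_exp L
        linarith
      calc 2 * |τ| ≤ Real.exp L * Real.exp (K * L) :=
            mul_le_mul h4 hτ (abs_nonneg _) (Real.exp_pos _).le
        _ = Real.exp ((K + 1) * L) := by
            rw [← Real.exp_add]
            congr 1
            ring)
    have h5 : 1 ≤ (21 * L) ^ 3 * y ^ 4 * (θ * L) := by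
      refine le_trans h1 ?_
      apply mul_le_mul _ h3 (norm_nonneg _) (by positivity)
      apply mul_le_mul_of_nonneg_right _ (by positivity)
      exact pow_le_pow_left₀ (norm_nonneg _) h2 3
    have h6 : 1 ≤ (η * L * y) ^ 4 := by
      calc (1 : ℝ) ≤ (21 * L) ^ 3 * y ^ 4 * (θ * L) := h5
        _ = (η * L * y) ^ 4 := by
            rw [hθ]
            ring
    by_contra h7
    push Not at h7
    have h8 : (η * L * y) ^ 4 < 1 := pow_lt_one₀ (by positivity) h7 (by norm_num)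
    linarith

end Pool.Agent.PS
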